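import Mathlib
import Pool.Agent.Helper669.Iter

/-!
# Rows of a matrix of finite support iterations: basic facts

A row is given by the admissible promises `RR` and by a set `S` of coordinates.
-/

namespace Pool.Agent.TH778.MX

open Pool.Agent.Helper669.Iter

set_option linter.unusedSectionVars false

universe u

variable {I : Type u} [LinearOrder I]

/-- valid conditions below `ξ` with support in `S` -/
def Vs (RR : I → Set (Pr I)) (S : Set I) (ξ : I) : Set (Rep I) :=
  {r | Adm RR r ∧ Below r ξ ∧ supp r ⊆ S}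

theorem supp_one : supp (one I) = ∅ := by
  ext η
  simp [supp, one]

theorem one_mem_Vs (RR : I → Set (Pr I)) (S : Set I) (ξ : I) : one I ∈ Vs RR S ξ :=
  ⟨adm_one RR, below_one ξ, by rw [supp_one]; exact Set.empty_subset _⟩

theorem Vs_mono {RR RR' : I → Set (Pr I)} {S S' : Set I} {ξ ξ' : I}
    (h1 : ∀ η < ξ, RR η ⊆ RR' η) (h2 : S ⊆ S') (h3 : ξ ≤ ξ') : Vs RR S ξ ⊆ Vs RR' S' ξ' := by
  rintro r ⟨hr1, hr2, hr3⟩
  refine ⟨fun η R hR => ?_, hr2.mono h3, hr3.trans h2⟩
  by_cases hη : η < ξ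
  · exact h1 η hη (hr1 η R hR)
  · rw [(hr2 η (not_lt.1 hη)).2] at hR
    exact absurd hR (Finset.notMem_empty R)

theorem supp_res (r : Rep I) (ξ : I) : supp (res r ξ) ⊆ supp r := by
  intro η hη
  by_contra h
  obtain ⟨h1, h2⟩ := notMem_supp h
  by_cases hlt : η < ξ
  · rcases hη with h3 | h3
    · rw [res_st_lt hlt] at h3; exact h3 h1
    · rw [res_pr_lt hlt] at h3; exact h3 h2
  · rcases hη with h3 | h3
    · rw [res_st_ge (not_lt.1 hlt)] at h3; exact h3 rfl
    · rw [res_pr_ge (not_lt.1 hlt)] at h3; exact h3 rfl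

theorem supp_glue (q r : Rep I) (ξ : I) : supp (glue q r ξ) ⊆ supp q ∪ supp r := by
  intro η hη
  by_cases hlt : η < ξ
  · left
    rcases hη with h3 | h3
    · rw [glue_st_lt hlt] at h3; exact Or.inl h3
    · rw [glue_pr_lt hlt] at h3; exact Or.inr h3
  · right
    rcases hη with h3 | h3
    · rw [glue_st_ge (not_lt.1 hlt)] at h3; exact Or.inl h3
    · rw [glue_pr_ge (not_lt.1 hlt)] at h3; exact Or.inr h3

theorem res_mem_Vs {RR : I → Set (Pr I)} {S : Set I} {r : Rep I} (h : Adm RR r)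
    (h' : supp r ⊆ S) (ξ : I) : res r ξ ∈ Vs RR S ξ :=
  ⟨adm_res h ξ, below_res r ξ, (supp_res r ξ).trans h'⟩

theorem res_mem_Vs' {RR : I → Set (Pr I)} {S : Set I} {r : Rep I} {τ : I} (h : r ∈ Vs RR S τ)
    (ξ : I) : res r ξ ∈ Vs RR S ξ := res_mem_Vs h.1 h.2.2 ξ

theorem glue_mem_Vs {RR : I → Set (Pr I)} {S : Set I} {q r : Rep I} {τ η τ' : I}
    (hq : q ∈ Vs RR S τ') (hr : r ∈ Vs RR S τ) (h : η ≤ τ) : glue q r η ∈ Vs RR S τ :=
  ⟨adm_glue hq.1 hr.1 η, fun ζ hζ => by
    rw [glue_st_ge (h.trans hζ), glue_pr_ge (h.trans hζ)]; exact hr.2.1 ζ hζ,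
    (supp_glue q r η).trans (Set.union_subset hq.2.2 hr.2.2)⟩

theorem Vs_sub_Vd {RR : I → Set (Pr I)} {S : Set I} {ξ : I} : Vs RR S ξ ⊆ Vd RR ξ :=
  fun _ h => ⟨h.1, h.2.1⟩

structure GoodS (RR : I → Set (Pr I)) (S : Set I) (ξ : I) : Prop where
  opn : ∀ R ∈ RR ξ, ∀ n m, ∀ w ∈ R n m, ∃ q ∈ Vs RR S ξ, w ∈ bs q ξ ∧ bs q ξ ⊆ R n m
  amal : ∀ F : Finset (Pr I), (∀ R ∈ F, R ∈ RR ξ) → ∀ n, ∀ q ∈ Vs RR S ξ,
    ∃ q' ∈ Vs RR S ξ, q' ≤ q ∧ ∃ m, ∀ R ∈ F, bs q' ξ ⊆ R n m

theorem exists_listS {RR : I → Set (Pr I)} {S0 : Set I} {ξ : I} {w : Om I}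
    (ih : ∀ r r' : Rep I, Adm RR r → Adm RR r' → supp r ⊆ S0 → supp r' ⊆ S0 →
      w ∈ bs r ξ → w ∈ bs r' ξ →
      ∃ q ∈ Vs RR S0 ξ, q ≤ res r ξ ∧ q ≤ res r' ξ ∧ w ∈ bs q ξ)
    (S : Set (Rep I)) (hS : S.Finite) : (∀ q ∈ S, q ∈ Vs RR S0 ξ ∧ w ∈ bs q ξ) →
    ∃ q ∈ Vs RR S0 ξ, w ∈ bs q ξ ∧ ∀ q' ∈ S, q ≤ q' := by
  induction S, hS using Set.Finite.induction_on with
  | empty =>
    intro _
    exact ⟨one I, one_mem_Vs RR S0 ξ, fun η _ => by simp [one], by simp⟩
  | @insert a S _ _ ih' =>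
    intro h
    obtain ⟨q, hq, hw, hle⟩ := ih' fun q hq => h q (Set.mem_insert_of_mem a hq)
    obtain ⟨ha, haw⟩ := h a (Set.mem_insert a S)
    obtain ⟨q', hq', h1, h2, h3⟩ := ih q a hq.1 ha.1 hq.2.2 ha.2.2 hw haw
    rw [res_eq_self hq.2.1] at h1
    rw [res_eq_self ha.2.1] at h2
    refine ⟨q', hq', h3, fun b hb => ?_⟩
    rcases Set.mem_insert_iff.1 hb with rfl | hb
    · exact h2
    · exact h1.trans (hle b hb)

variable [WellFoundedLT I]

theorem inter_pointS {RR : I → Set (Pr I)} {S0 : Set I} (w : Om I) (ξ : I) :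
    (∀ η < ξ, η ∈ S0 → GoodS RR S0 η) →
    ∀ r r' : Rep I, Adm RR r → Adm RR r' → supp r ⊆ S0 → supp r' ⊆ S0 →
      w ∈ bs r ξ → w ∈ bs r' ξ →
      ∃ q ∈ Vs RR S0 ξ, q ≤ res r ξ ∧ q ≤ res r' ξ ∧ w ∈ bs q ξ := by
  classical
  induction ξ using WellFoundedLT.induction with
  | ind ξ IH =>
    intro hG r r' hr hr' hs hs' hw hw'
    by_cases hS : ∃ η ∈ supp r ∪ supp r', η < ξ
    swap
    · refine ⟨one I, one_mem_Vs RR S0 ξ, ?_, ?_, fun η _ => by simp [one]⟩
      · have : res r ξ = one I := by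
          ext1 <;> funext η
          · by_cases hη : η < ξ
            · rw [res_st_lt hη]
              exact (notMem_supp fun h => hS ⟨η, Or.inl h, hη⟩).1
            · rw [res_st_ge (not_lt.1 hη)]; rfl
          · by_cases hη : η < ξ
            · rw [res_pr_lt hη]
              exact (notMem_supp fun h => hS ⟨η, Or.inl h, hη⟩).2
            · rw [res_pr_ge (not_lt.1 hη)]; rfl
        rw [this]
      · have : res r' ξ = one I := by
          ext1 <;> funext η
          · by_cases hη : η < ξ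
            · rw [res_st_lt hη]
              exact (notMem_supp fun h => hS ⟨η, Or.inr h, hη⟩).1
            · rw [res_st_ge (not_lt.1 hη)]; rfl
          · by_cases hη : η < ξ
            · rw [res_pr_lt hη]
              exact (notMem_supp fun h => hS ⟨η, Or.inr h, hη⟩).2
            · rw [res_pr_ge (not_lt.1 hη)]; rfl
        rw [this]
    · obtain ⟨η, hηS, hη, hmax⟩ := exists_max_lt (r.fin.union r'.fin) ξ hS
      have hη0 : η ∈ S0 := by
        rcases hηS with h | h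
        · exact hs h
        · exact hs' h
      have hGη := hG η hη hη0
      set N := max (r.st η).length (r'.st η).length with hN
      set t : List ℕ := (List.range N).map (w η) with ht
      have htl : t.length = N := by simp [ht]
      have htg : ∀ i < N, t.getD i 0 = w η i := by
        intro i hi
        rw [ht, List.getD_eq_getElem _ _ (by simpa using hi)]
        simp
      -- the auxiliary conditions
      have key : ∀ (R : Pr I) (i : ℕ), (R ∈ r.pr η ∪ r'.pr η) →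
          ∃ q ∈ Vs RR S0 η, (w ∈ R i (w η i) → w ∈ bs q η ∧ bs q η ⊆ R i (w η i)) := by
        intro R i hR
        by_cases hwR : w ∈ R i (w η i)
        · have hRR : R ∈ RR η := by
            rcases Finset.mem_union.1 hR with h | h
            · exact hr η R h
            · exact hr' η R h
          obtain ⟨q, hq, h1, h2⟩ := hGη.opn R hRR i (w η i) w hwR
          exact ⟨q, hq, fun _ => ⟨h1, h2⟩⟩
        · exact ⟨one I, one_mem_Vs RR S0 η, fun h => absurd h hwR⟩
      choose! qf hqf1 hqf2 using key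
      set S : Set (Rep I) := {res r η, res r' η} ∪
        (fun x : Pr I × ℕ => qf x.1 x.2) '' {x | x.1 ∈ r.pr η ∪ r'.pr η ∧ x.2 < N ∧
          w ∈ x.1 x.2 (w η x.2)} with hSdef
      have hSfin : S.Finite := by
        refine Set.Finite.union (by simp) (Set.Finite.image _ ?_)
        refine (((r.pr η ∪ r'.pr η).finite_toSet).prod (Set.finite_lt_nat N)).subset ?_
        rintro ⟨R, i⟩ ⟨h1, h2, _⟩
        exact ⟨h1, h2⟩
      obtain ⟨q, hq, hwq, hle⟩ := exists_listS (RR := RR) (ξ := η) (w := w)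
        (fun a b ha hb ha' hb' h1 h2 => IH η hη (fun ζ hζ hζ' => hG ζ (hζ.trans hη) hζ')
          a b ha hb ha' hb' h1 h2) S hSfin (by
          rintro a ((rfl | rfl) | ⟨⟨R, i⟩, ⟨h1, h2, h3⟩, rfl⟩)
          · exact ⟨res_mem_Vs hr hs η, by rw [bs_res le_rfl]; exact bs_anti r hη.le hw⟩
          · exact ⟨res_mem_Vs hr' hs' η, by rw [bs_res le_rfl]; exact bs_anti r' hη.le hw'⟩
          · exact ⟨hqf1 R i h1, (hqf2 R i h1 h3).1⟩)
      have hq1 : q ≤ res r η := hle _ (Or.inl (Or.inl rfl))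
      have hq2 : q ≤ res r' η := hle _ (Or.inl (Or.inr rfl))
      let z : Rep I :=
        { st := fun ζ => if ζ < η then q.st ζ else if ζ = η then t else []
          pr := fun ζ => if ζ < η then q.pr ζ else if ζ = η then r.pr η ∪ r'.pr η else ∅
          fin := by
            refine (q.fin.union (Set.finite_singleton η)).subset fun ζ hζ => ?_
            by_cases h1 : ζ < η
            · left; simpa [h1] using hζ
            · by_cases h2 : ζ = η
              · right; exact h2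
              · simp [h1, h2] at hζ }
      have hz1 : ∀ {ζ}, ζ < η → z.st ζ = q.st ζ := fun h => if_pos h
      have hz2 : ∀ {ζ}, ζ < η → z.pr ζ = q.pr ζ := fun h => if_pos h
      have hz3 : z.st η = t := by simp [z]
      have hz4 : z.pr η = r.pr η ∪ r'.pr η := by simp [z]
      have hz5 : ∀ {ζ}, η < ζ → z.st ζ = [] := fun h => by simp [z, h.not_gt, h.ne']
      have hz6 : ∀ {ζ}, η < ζ → z.pr ζ = ∅ := fun h => by simp [z, h.not_gt, h.ne']
      have hbz : bs z η = bs q η := bs_congr fun ζ hζ => ⟨hz1 hζ, hz2 hζ⟩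
      have hgen : ∀ a : Rep I, (∀ R ∈ a.pr η, R ∈ r.pr η ∪ r'.pr η) → (a.st η).length ≤ N →
          w ∈ bs a ξ → q ≤ res a η → (∀ ζ, η < ζ → ζ < ξ → ζ ∉ supp a) → z ≤ res a ξ := by
        intro a ha1 ha2 ha3 ha4 ha5 ζ
        rcases lt_trichotomy ζ η with h | rfl | h
        · rw [res_st_lt (h.trans hη), res_pr_lt (h.trans hη), hz1 h, hz2 h]
          have := ha4 ζ
          rw [res_st_lt h, res_pr_lt h] at this
          rwa [bs_congr (r := z) (r' := q) fun ζ' hζ' => ⟨hz1 (hζ'.trans h), hz2 (hζ'.trans h)⟩]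
        · rw [res_st_lt hη, res_pr_lt hη, hz3, hz4, hbz]
          refine ⟨?_, ha1, fun R hR i hi hi' => ?_⟩
          · rw [List.prefix_iff_eq_take]
            apply List.ext_getElem
            · simp [htl, ha2]
            · intro i h1 h2
              have h3 := (ha3 ζ hη).1 i h1
              rw [List.getD_eq_getElem _ _ h1] at h3
              rw [← h3, List.getElem_take]
              simp [ht]
          · rw [htl] at hi'
            rw [htg i hi']
            have h1 : w ∈ R i (w ζ i) := (ha3 ζ hη).2 R hR i hi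
            have h2 : q ≤ qf R i := hle _ (Or.inr ⟨⟨R, i⟩, ⟨ha1 R hR, hi', h1⟩, rfl⟩)
            exact (bs_le h2 ζ).trans (hqf2 R i (ha1 R hR) h1).2
        · rw [hz5 h, hz6 h]
          by_cases h' : ζ < ξ
          · obtain ⟨h1, h2⟩ := notMem_supp (ha5 ζ h h')
            rw [res_st_lt h', res_pr_lt h', h1, h2]
            exact ⟨List.prefix_refl _, Finset.Subset.refl _,
              fun R hR => absurd hR (Finset.notMem_empty R)⟩
          · rw [res_st_ge (not_lt.1 h'), res_pr_ge (not_lt.1 h')]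
            exact ⟨List.prefix_refl _, Finset.Subset.refl _,
              fun R hR => absurd hR (Finset.notMem_empty R)⟩
      refine ⟨z, ⟨fun ζ R hR => ?_, fun ζ hζ => ⟨hz5 (hη.trans_le hζ), hz6 (hη.trans_le hζ)⟩,
        fun ζ hζ => ?_⟩, ?_, ?_, ?_⟩
      · rcases lt_trichotomy ζ η with h | rfl | h
        · rw [hz2 h] at hR; exact hq.1 ζ R hR
        · rw [hz4] at hR
          rcases Finset.mem_union.1 hR with h | h
          · exact hr _ R h
          · exact hr' _ R h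
        · rw [hz6 h] at hR; exact absurd hR (Finset.notMem_empty R)
      · rcases lt_trichotomy ζ η with h | rfl | h
        · refine hq.2.2 ?_
          rcases hζ with h1 | h1
          · rw [hz1 h] at h1; exact Or.inl h1
          · rw [hz2 h] at h1; exact Or.inr h1
        · exact hη0
        · rcases hζ with h1 | h1
          · exact absurd (hz5 h) h1
          · exact absurd (hz6 h) h1
      · exact hgen r (fun R hR => Finset.mem_union_left _ hR) (le_max_left _ _) hw hq1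
          fun ζ h1 h2 h3 => absurd (hmax ζ (Or.inl h3) h2) (not_le.2 h1)
      · exact hgen r' (fun R hR => Finset.mem_union_right _ hR) (le_max_right _ _) hw' hq2
          fun ζ h1 h2 h3 => absurd (hmax ζ (Or.inr h3) h2) (not_le.2 h1)
      · intro ζ hζ
        rcases lt_trichotomy ζ η with h | rfl | h
        · rw [hz1 h, hz2 h]; exact hwq ζ h
        · rw [hz3, hz4, htl]
          refine ⟨fun i hi => (htg i hi).symm, fun R hR n hn => ?_⟩
          rcases Finset.mem_union.1 hR with h | h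
          · exact (hw ζ hζ).2 R h n ((le_max_left _ _).trans hn)
          · exact (hw' ζ hζ).2 R h n ((le_max_right _ _).trans hn)
        · rw [hz5 h, hz6 h]; simp

/-- two conditions of a row are compatible in the row as soon as some point obeys both -/
theorem compat_of_pointS {RR : I → Set (Pr I)} {S0 : Set I} {τ : I}
    (hG : ∀ η < τ, η ∈ S0 → GoodS RR S0 η) {r r' : Rep I}
    (hr : r ∈ Vs RR S0 τ) (hr' : r' ∈ Vs RR S0 τ) {w : Om I} (hw : w ∈ bs r τ)
    (hw' : w ∈ bs r' τ) : ∃ q ∈ Vs RR S0 τ, q ≤ r ∧ q ≤ r' := by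
  obtain ⟨q, h1, h2, h3, _⟩ := inter_pointS w τ hG r r' hr.1 hr'.1 hr.2.2 hr'.2.2 hw hw'
  rw [res_eq_self hr.2.1] at h2
  rw [res_eq_self hr'.2.1] at h3
  exact ⟨q, h1, h2, h3⟩

theorem supp_push (r : Rep I) (η : I) (m : ℕ) : supp (push r η m) ⊆ insert η (supp r) := by
  intro ζ hζ
  by_cases h : ζ = η
  · exact Or.inl h
  · right
    rcases hζ with h1 | h1
    · rw [push_st_ne r m h] at h1; exact Or.inl h1
    · exact Or.inr h1

theorem push_mem_Vs {RR : I → Set (Pr I)} {S0 : Set I} {r : Rep I} {τ η : I}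
    (hr : r ∈ Vs RR S0 τ) (hη : η < τ) (hη0 : η ∈ S0)
    (m : ℕ) : push r η m ∈ Vs RR S0 τ :=
  ⟨hr.1, fun ζ hζ => ⟨by rw [push_st_ne r m (hη.trans_le hζ).ne']; exact (hr.2.1 ζ hζ).1,
    (hr.2.1 ζ hζ).2⟩, (supp_push r η m).trans (Set.insert_subset hη0 hr.2.2)⟩

theorem exists_longerS {RR : I → Set (Pr I)} {S0 : Set I} {r : Rep I} {τ η : I}
    (hG : ∀ η < τ, η ∈ S0 → GoodS RR S0 η)
    (hr : r ∈ Vs RR S0 τ) (hη : η < τ) (hη0 : η ∈ S0) :
    ∃ r' ∈ Vs RR S0 τ, r' ≤ r ∧ (r'.st η).length = (r.st η).length + 1 := by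
  obtain ⟨q, hq, hle, m, hm⟩ := (hG η hη hη0).amal (r.pr η) (hr.1 η) (r.st η).length (res r η)
    (res_mem_Vs' hr η)
  refine ⟨push (glue q r η) η m, push_mem_Vs (glue_mem_Vs hq hr hη.le) hη hη0 m, ?_, ?_⟩
  · refine le_trans (push_le fun R hR => ?_) (glue_le hle)
    rw [glue_pr_ge le_rfl] at hR
    rw [glue_st_ge le_rfl, bs_glue le_rfl]
    exact hm R hR
  · rw [push_st_self, glue_st_ge le_rfl]
    simp

theorem exists_longS {RR : I → Set (Pr I)} {S0 : Set I} {r : Rep I} {τ η : I}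
    (hG : ∀ η < τ, η ∈ S0 → GoodS RR S0 η)
    (hr : r ∈ Vs RR S0 τ) (hη : η < τ) (hη0 : η ∈ S0) (N : ℕ) :
    ∃ r' ∈ Vs RR S0 τ, r' ≤ r ∧ N ≤ (r'.st η).length := by
  induction N with
  | zero => exact ⟨r, hr, le_rfl, Nat.zero_le _⟩
  | succ N ih =>
    obtain ⟨r', h1, h2, h3⟩ := ih
    obtain ⟨r'', h4, h5, h6⟩ := exists_longerS hG h1 hη hη0
    exact ⟨r'', h4, h5.trans h2, by omega⟩

theorem mem_supp_lt {RR : I → Set (Pr I)} {S0 : Set I} {r : Rep I} {τ η : I}
    (hr : r ∈ Vs RR S0 τ) (hη : η ∈ supp r) : η < τ := by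
  by_contra h
  obtain ⟨h1, h2⟩ := hr.2.1 η (not_lt.1 h)
  rcases hη with h | h
  · exact h h1
  · exact h h2

theorem exists_long_allS {RR : I → Set (Pr I)} {S0 : Set I} {r : Rep I} {τ : I}
    (hG : ∀ η < τ, η ∈ S0 → GoodS RR S0 η)
    (hr : r ∈ Vs RR S0 τ) (N : ℕ) :
    ∃ r' ∈ Vs RR S0 τ, r' ≤ r ∧ ∀ η ∈ supp r, N ≤ (r'.st η).length := by
  have key : ∀ S : Set I, S.Finite → (∀ η ∈ S, η < τ ∧ η ∈ S0) →
      ∃ r' ∈ Vs RR S0 τ, r' ≤ r ∧ ∀ η ∈ S, N ≤ (r'.st η).length := by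
    intro S hS
    induction S, hS using Set.Finite.induction_on with
    | empty => intro _; exact ⟨r, hr, le_rfl, by simp⟩
    | @insert a S _ _ ih =>
      intro h
      obtain ⟨r', h1, h2, h3⟩ := ih fun η hη => h η (Set.mem_insert_of_mem a hη)
      obtain ⟨r'', h4, h5, h6⟩ := exists_longS hG h1 (h a (Set.mem_insert a S)).1
        (h a (Set.mem_insert a S)).2 N
      refine ⟨r'', h4, h5.trans h2, fun η hη => ?_⟩
      rcases Set.mem_insert_iff.1 hη with rfl | hη
      · exact h6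
      · exact (h3 η hη).trans (length_mono h5 η)
  exact key (supp r) r.fin fun η hη => ⟨mem_supp_lt hr hη, hr.2.2 hη⟩

theorem bs_nonemptyS {RR : I → Set (Pr I)} {S0 : Set I} {r : Rep I} {τ : I}
    (hG : ∀ η < τ, η ∈ S0 → GoodS RR S0 η)
    (hr : r ∈ Vs RR S0 τ) : ∃ w : Om I, ∀ ξ, w ∈ bs r ξ := by
  choose! f hf1 hf2 hf3 using fun (r : Rep I) (N : ℕ) (h : r ∈ Vs RR S0 τ) =>
    exists_long_allS hG h N
  let s : ℕ → Rep I := fun n => Nat.rec r (fun n q => f q n) n
  have hs : ∀ n, s n ∈ Vs RR S0 τ := by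
    intro n
    induction n with
    | zero => exact hr
    | succ n ih => exact hf1 (s n) n ih
  obtain ⟨w, hw⟩ := exists_limit s (fun n => hf2 (s n) n (hs n)) fun n => hf3 (s n) n (hs n)
  exact ⟨w, fun ξ => hw ξ 0⟩

end Pool.Agent.TH778.MX
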