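import Mathlib
import Pool.Agent.Helper669.Forcing

/-!
# Statements about dominating and unbounded families in the extension
-/

namespace Pool.Agent.TH778.MX

open Pool.Agent.Helper669.Forcing

universe u v w

section

variable {P : Type u} [Preorder P]

/-- The named function `x` is eventually at most the named function `y`. -/
def EvLe (x y : ℕ → ℕ → Set P) : Set P :=
  fex fun m : ℕ => fall fun n : ℕ => fall fun a : ℕ => fall fun b : ℕ =>
    fimp (fand (fground (m ≤ n)) (fand (meets (x n a)) (meets (y n b)))) (fground (a ≤ b))

/-- In the extension there are functions indexed by `Y` such that no function eventually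
dominates all of them: the bounding number is at most `|Y|`. -/
def UnboundedFam (P : Type u) [Preorder P] (Y : Type v) : Set P :=
  fex fun E : Y → ℕ → ℕ → Set P => fand (fall fun y => IsFun (E y))
    (fall fun x : ℕ → ℕ → Set P => fimp (IsFun x) (fex fun y => fnot (EvLe (E y) x)))

/-- In the extension there are functions indexed by `Y` such that every function is eventually
dominated by one of them: the dominating number is at most `|Y|`. -/
def DominatingFam (P : Type u) [Preorder P] (Y : Type v) : Set P :=
  fex fun E : Y → ℕ → ℕ → Set P => fand (fall fun y => IsFun (E y))
    (fall fun x : ℕ → ℕ → Set P => fimp (IsFun x) (fex fun y => EvLe x (E y)))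

/-- In the extension, for all functions `f y`, `y` in `Y`, there are an injection `R` from `X` to
`Y` and a function `g` which eventually dominates all `f (R x)`, `x` in `X`. -/
def BoundedSub (P : Type u) [Preorder P] (X : Type v) (Y : Type w) : Set P :=
  fall fun f : Y → ℕ → ℕ → Set P => fimp (fall fun y => IsFun (f y))
    (fex fun R : X → Y → Set P => fand (IsFun R) (fand (IsInj R)
      (fex fun g : ℕ → ℕ → Set P => fand (IsFun g)
        (fall fun x => fall fun y => fimp (meets (R x y)) (EvLe (f y) g)))))

theorem down_EvLe (x y : ℕ → ℕ → Set P) : Down (EvLe x y) := down_fex _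

end

end Pool.Agent.TH778.MX
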