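import Mathlib
import Pool.Agent.Helper669.Iter

/-!
# Names of ultrafilters which are positive with respect to given predicates
-/

namespace Pool.Agent.TH778.MX

open Pool.Agent.Helper669.Iter

set_option linter.unusedSectionVars false

universe u

variable {I : Type u} [LinearOrder I]

/-- predicates of conditions and sets of natural numbers -/
abbrev Pd (I : Type u) := Rep I → Set ℕ → Prop

/-- names of subsets of `ℕ`: sequences of unions of basic sets -/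
def Nm (B : Set (Rep I)) (ξ : I) : Set (ℕ → Set (Om I)) :=
  {X | ∀ k, ∀ w ∈ X k, ∃ q ∈ B, w ∈ bs q ξ ∧ bs q ξ ⊆ X k}

structure MonP (W : Pd I) : Prop where
  left : ∀ {q q' : Rep I} {t : Set ℕ}, q' ≤ q → W q t → W q' t
  right : ∀ {q : Rep I} {t t' : Set ℕ}, t ⊆ t' → W q t → W q t'
  fin : ∀ {q : Rep I} {t : Set ℕ}, W q t → ∃ m, W q {x | x < m ∧ x ∈ t}

/-- the numbers forced by `q` to lie in all members of `F` -/
def fset (ξ : I) (F : Finset (ℕ → Set (Om I))) (q : Rep I) : Set ℕ :=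
  {x | ∀ X ∈ F, bs q ξ ⊆ X x}

theorem fset_mono {ξ : I} {F : Finset (ℕ → Set (Om I))} {q q' : Rep I} (h : q' ≤ q) :
    fset ξ F q ⊆ fset ξ F q' := fun _ hx X hX => (bs_le h ξ).trans (hx X hX)

theorem fset_anti {ξ : I} {F F' : Finset (ℕ → Set (Om I))} {q : Rep I} (h : F ⊆ F') :
    fset ξ F' q ⊆ fset ξ F q := fun _ hx X hX => hx X (h hX)

def Pos (B : Set (Rep I)) (ξ : I) (W : Set (Pd I)) (U : Set (ℕ → Set (Om I))) : Prop :=
  ∀ F : Finset (ℕ → Set (Om I)), (∀ X ∈ F, X ∈ U) → ∀ (n : ℕ) (L : Fin n → Pd I),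
    (∀ i, L i ∈ W) → ∀ q ∈ B, ∃ q' ∈ B, q' ≤ q ∧ ∃ m, ∀ h : ℕ → Fin n, ∃ i,
      L i q' {x | x < m ∧ h x = i ∧ x ∈ fset ξ F q'}

theorem Pos.fintype {B : Set (Rep I)} {ξ : I} {W : Set (Pd I)} {U : Set (ℕ → Set (Om I))}
    (hP : Pos B ξ W U) (F : Finset (ℕ → Set (Om I))) (hF : ∀ X ∈ F, X ∈ U) {ι : Type}
    [Finite ι] (L : ι → Pd I) (hL : ∀ i, L i ∈ W) (q : Rep I) (hq : q ∈ B) :
    ∃ q' ∈ B, q' ≤ q ∧ ∃ m, ∀ h : ℕ → ι, ∃ i,
      L i q' {x | x < m ∧ h x = i ∧ x ∈ fset ξ F q'} := by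
  obtain ⟨n, ⟨e⟩⟩ := Finite.exists_equiv_fin ι
  obtain ⟨q', hq', hle, m, hm⟩ := hP F hF n (fun i => L (e.symm i)) (fun i => hL _) q hq
  refine ⟨q', hq', hle, m, fun h => ?_⟩
  obtain ⟨i, hi⟩ := hm (fun x => e (h x))
  refine ⟨e.symm i, ?_⟩
  have : {x | x < m ∧ h x = e.symm i ∧ x ∈ fset ξ F q'} =
      {x | x < m ∧ e (h x) = i ∧ x ∈ fset ξ F q'} := by
    ext x
    simp only [Set.mem_ofPred_eq]
    rw [Equiv.eq_symm_apply]
  rw [this]
  exact hi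

/-- the existence of a maximal positive family -/
theorem exists_maxPos (B : Set (Rep I)) (ξ : I) (W : Set (Pd I)) (U0 : Set (ℕ → Set (Om I)))
    (h0 : U0 ⊆ Nm B ξ) (h1 : Pos B ξ W U0) :
    ∃ U, U0 ⊆ U ∧ U ⊆ Nm B ξ ∧ Pos B ξ W U ∧
      ∀ V, U ⊆ V → V ⊆ Nm B ξ → Pos B ξ W V → V ⊆ U := by
  classical
  obtain ⟨U, hU0, hU⟩ := zorn_subset_nonempty {U | U ⊆ Nm B ξ ∧ Pos B ξ W U} (by
      intro c hc hchain hne
      refine ⟨⋃₀ c, ⟨Set.sUnion_subset fun s hs => (hc hs).1, ?_⟩,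
        fun s hs => Set.subset_sUnion_of_mem hs⟩
      intro F hF n L hL q hq
      have hex : ∃ s ∈ c, ∀ X ∈ F, X ∈ s := by
        clear hq q
        induction F using Finset.induction_on with
        | empty =>
          obtain ⟨s, hs⟩ := hne
          exact ⟨s, hs, by simp⟩
        | insert a F _ ih =>
          obtain ⟨s, hs, h1⟩ := ih fun X hX => hF X (Finset.mem_insert_of_mem hX)
          obtain ⟨t, ht, h2⟩ := hF a (Finset.mem_insert_self a F)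
          rcases hchain.total hs ht with h | h
          · refine ⟨t, ht, fun X hX => ?_⟩
            rcases Finset.mem_insert.1 hX with rfl | hX
            · exact h2
            · exact h (h1 X hX)
          · refine ⟨s, hs, fun X hX => ?_⟩
            rcases Finset.mem_insert.1 hX with rfl | hX
            · exact h h2
            · exact h1 X hX
      obtain ⟨s, hs, h1⟩ := hex
      exact (hc hs).2 F h1 n L hL q hq) U0 ⟨h0, h1⟩
  exact ⟨U, hU0, hU.prop.1, hU.prop.2, fun V h1 h2 h3 => hU.le_of_ge ⟨h2, h3⟩ h1⟩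

/-- the data of a maximal positive family -/
structure Mxl (B : Set (Rep I)) (ξ : I) (W : Set (Pd I)) (U : Set (ℕ → Set (Om I))) : Prop where
  compat : ∀ q ∈ B, ∀ q' ∈ B, ∀ w, w ∈ bs q ξ → w ∈ bs q' ξ → ∃ s ∈ B, s ≤ q ∧ s ≤ q'
  nonempty : ∀ q ∈ B, ∃ w, w ∈ bs q ξ
  mon : ∀ V ∈ W, MonP V
  sub : U ⊆ Nm B ξ
  pos : Pos B ξ W U
  max : ∀ V, U ⊆ V → V ⊆ Nm B ξ → Pos B ξ W V → V ⊆ U

variable {B : Set (Rep I)} {ξ : I} {W : Set (Pd I)} {U : Set (ℕ → Set (Om I))}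

def NegAlt (B : Set (Rep I)) (ξ : I) (W : Set (Pd I)) (U : Set (ℕ → Set (Om I)))
    (X : ℕ → Set (Om I)) (q' : Rep I) : Prop :=
  ∃ F : Finset (ℕ → Set (Om I)), (∀ Y ∈ F, Y ∈ U) ∧ ∃ (n : ℕ) (L : Fin n → Pd I),
    (∀ i, L i ∈ W) ∧ ∀ r ∈ B, r ≤ q' → ∀ m, ∃ h : ℕ → Fin n, ∀ i,
      ¬ L i r {x | x < m ∧ h x = i ∧ x ∈ fset ξ F r ∧ bs r ξ ⊆ X x}

theorem NegAlt.mono {X : ℕ → Set (Om I)} {q q' : Rep I} (h : NegAlt B ξ W U X q) (hle : q' ≤ q) :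
    NegAlt B ξ W U X q' := by
  obtain ⟨F, hF, n, L, hL, h1⟩ := h
  exact ⟨F, hF, n, L, hL, fun r hr hrq m => h1 r hr (hrq.trans hle) m⟩

theorem Mxl.dec (hM : Mxl B ξ W U) {X : ℕ → Set (Om I)} (hX : X ∈ Nm B ξ) (q : Rep I) :
    (∃ q' ∈ B, q' ≤ q ∧ NegAlt B ξ W U X q') ∨
    ∃ X' ∈ U, ∀ r ∈ B, r ≤ q → ∀ k, bs r ξ ⊆ X' k → bs r ξ ⊆ X k := by
  classical
  set D : Set (Rep I) := {q' | q' ∈ B ∧ NegAlt B ξ W U X q'} with hD
  have hdown : ∀ a ∈ D, ∀ b ∈ B, b ≤ a → b ∈ D := fun a ha b hb hba => ⟨hb, ha.2.mono hba⟩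
  by_cases hcase : ∃ q' ∈ D, q' ≤ q
  · left
    obtain ⟨q', ⟨h1, h2⟩, hle⟩ := hcase
    exact ⟨q', h1, hle, h2⟩
  right
  set X' : ℕ → Set (Om I) := fun k => (⋃ a ∈ D, bs a ξ) ∪ X k with hX'
  have hX'Nm : X' ∈ Nm B ξ := by
    intro k w hw
    rcases hw with hw | hw
    · simp only [Set.mem_iUnion] at hw
      obtain ⟨a, ha, hwa⟩ := hw
      exact ⟨a, ha.1, hwa, fun v hv => Or.inl (Set.mem_biUnion ha hv)⟩
    · obtain ⟨a, ha, hwa, hsub⟩ := hX k w hw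
      exact ⟨a, ha, hwa, fun v hv => Or.inr (hsub hv)⟩
  have hpos : Pos B ξ W (insert X' U) := by
    intro F hF n L hL p hp
    have hF' : ∀ Y ∈ F.erase X', Y ∈ U := by
      intro Y hY
      obtain ⟨h1, h2⟩ := Finset.mem_erase.1 hY
      rcases hF Y h2 with h | h
      · exact absurd h h1
      · exact h
    by_cases hc : ∃ p' ∈ D, p' ≤ p
    · obtain ⟨p', hp', hle⟩ := hc
      obtain ⟨q', hq', hle', m, hm⟩ := hM.pos (F.erase X') hF' n L hL p' hp'.1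
      refine ⟨q', hq', hle'.trans hle, m, fun h => ?_⟩
      obtain ⟨i, hi⟩ := hm h
      refine ⟨i, (hM.mon _ (hL i)).right ?_ hi⟩
      rintro x ⟨h1, h2, h3⟩
      refine ⟨h1, h2, fun Y hY => ?_⟩
      by_cases hYX : Y = X'
      · rw [hYX]
        exact fun w hw => Or.inl (Set.mem_biUnion hp' (bs_le hle' ξ hw))
      · exact h3 Y (Finset.mem_erase.2 ⟨hYX, hY⟩)
    · have hp' : p ∉ D := fun h => hc ⟨p, h, le_rfl⟩
      have : ∃ r ∈ B, r ≤ p ∧ ∃ m, ∀ h : ℕ → Fin n, ∃ i,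
          L i r {x | x < m ∧ h x = i ∧ x ∈ fset ξ (F.erase X') r ∧ bs r ξ ⊆ X x} := by
        by_contra hcon
        push Not at hcon
        exact hp' ⟨hp, F.erase X', hF', n, L, hL, fun r hr hrp m => hcon r hr hrp m⟩
      obtain ⟨r, hr, hrp, m, hm⟩ := this
      refine ⟨r, hr, hrp, m, fun h => ?_⟩
      obtain ⟨i, hi⟩ := hm h
      refine ⟨i, (hM.mon _ (hL i)).right ?_ hi⟩
      rintro x ⟨h1, h2, h3, h4⟩
      refine ⟨h1, h2, fun Y hY => ?_⟩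
      by_cases hYX : Y = X'
      · rw [hYX]
        exact fun w hw => Or.inr (h4 hw)
      · exact h3 Y (Finset.mem_erase.2 ⟨hYX, hY⟩)
  have hmem : X' ∈ U := by
    refine hM.max (insert X' U) (Set.subset_insert _ _) ?_ hpos (Set.mem_insert _ _)
    exact Set.insert_subset hX'Nm hM.sub
  refine ⟨X', hmem, fun r hr hrq k hk w hw => ?_⟩
  rcases hk hw with h | h
  · exfalso
    simp only [Set.mem_iUnion] at h
    obtain ⟨a, ha, hwa⟩ := h
    obtain ⟨s, hs, h1, h2⟩ := hM.compat r hr a ha.1 w hw hwa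
    exact hcase ⟨s, hdown a ha s hs h2, h1.trans hrq⟩
  · exact h

theorem Mxl.part (hM : Mxl B ξ W U) {ι : Type} [Finite ι] (X : ι → ℕ → Set (Om I))
    (hX : ∀ i, X i ∈ Nm B ξ) (r0 : Rep I) (hr0 : r0 ∈ B)
    (hcov : ∀ k, ∀ r ∈ B, r ≤ r0 → ∃ r' ∈ B, r' ≤ r ∧ ∃ i, bs r' ξ ⊆ X i k) :
    ∃ r1 ∈ B, r1 ≤ r0 ∧ ∃ i, ∃ X' ∈ U, ∀ r ∈ B, r ≤ r1 → ∀ k, bs r ξ ⊆ X' k → bs r ξ ⊆ X i k := by
  classical
  by_contra hcon
  push Not at hcon
  have hι : Nonempty ι := by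
    obtain ⟨r', _, _, i, _⟩ := hcov 0 r0 hr0 le_rfl
    exact ⟨i⟩
  have hneg : ∀ i, ∀ r ∈ B, r ≤ r0 → ∃ q' ∈ B, q' ≤ r ∧ NegAlt B ξ W U (X i) q' := by
    intro i r hr hle
    rcases hM.dec (hX i) r with h | ⟨X', hX', h⟩
    · exact h
    · obtain ⟨r', hr', hle', k, h1, h2⟩ := hcon r hr hle i X' hX'
      exact absurd (h r' hr' hle' k h1) h2
  have : Fintype ι := Fintype.ofFinite ι
  have hall : ∀ s : Finset ι, ∃ r ∈ B, r ≤ r0 ∧ ∀ i ∈ s, NegAlt B ξ W U (X i) r := by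
    intro s
    induction s using Finset.induction_on with
    | empty => exact ⟨r0, hr0, le_rfl, by simp⟩
    | insert a s _ ih =>
      obtain ⟨r, hr, hle, h⟩ := ih
      obtain ⟨r', hr', hle', h'⟩ := hneg a r hr hle
      refine ⟨r', hr', hle'.trans hle, fun i hi => ?_⟩
      rcases Finset.mem_insert.1 hi with rfl | hi
      · exact h'
      · exact (h i hi).mono hle'
  obtain ⟨r, hr, hle, h⟩ := hall Finset.univ
  have h' := fun i => h i (Finset.mem_univ i)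
  choose F hF n L hL hneg' using h'
  obtain ⟨q', hq', hq'r, m, hm⟩ := hM.pos.fintype (Finset.univ.biUnion F) (by
    intro Y hY
    obtain ⟨i, _, hi⟩ := Finset.mem_biUnion.1 hY
    exact hF i Y hi) (ι := Σ i, Fin (n i)) (fun z => L z.1 z.2) (fun z => hL z.1 z.2) r hr
  have hdec : ∀ m, ∃ r' ∈ B, r' ≤ q' ∧ ∃ c : ℕ → ι, ∀ x < m, bs r' ξ ⊆ X (c x) x := by
    intro m
    induction m with
    | zero => exact ⟨q', hq', le_rfl, fun _ => hι.some, fun x hx => absurd hx (Nat.not_lt_zero x)⟩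
    | succ m ih =>
      obtain ⟨r1, hr1, hle1, c, hc⟩ := ih
      obtain ⟨r2, hr2, hle2, i, hi⟩ := hcov m r1 hr1 (hle1.trans (hq'r.trans hle))
      refine ⟨r2, hr2, hle2.trans hle1, Function.update c m i, fun x hx => ?_⟩
      rcases Nat.lt_succ_iff_lt_or_eq.1 hx with hx' | rfl
      · rw [Function.update_of_ne hx'.ne]
        exact (bs_le hle2 ξ).trans (hc x hx')
      · rw [Function.update_self]
        exact hi
  obtain ⟨r', hr', hle', c, hc⟩ := hdec m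
  have h2 := fun i => hneg' i r' hr' (hle'.trans hq'r) m
  choose h hh using h2
  obtain ⟨⟨i, l⟩, hil⟩ := hm (fun x => ⟨c x, h (c x) x⟩)
  refine hh i l ((hM.mon _ (hL i l)).right ?_ ((hM.mon _ (hL i l)).left hle' hil))
  rintro x ⟨h1, h2, h3⟩
  have h4 : c x = i := congrArg Sigma.fst h2
  subst h4
  have h5 : h (c x) x = l := by
    have := (Sigma.mk.inj_iff.1 h2).2
    exact eq_of_heq this
  refine ⟨h1, h5, fun Y hY => ?_, hc x h1⟩
  exact (bs_le hle' ξ).trans (h3 Y (Finset.mem_biUnion.2 ⟨c x, Finset.mem_univ _, hY⟩))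

end Pool.Agent.TH778.MX
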