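import Mathlib
import Pool.Agent.TH778.MX.Pos

/-!
# Ultrafilters of positive sets are positive for finitely many predicates at once
-/

namespace Pool.Agent.TH778.MX

open Pool.Agent.Helper669.Iter

set_option linter.unusedSectionVars false

universe u

variable {I : Type u} [LinearOrder I] {B : Set (Rep I)} {ξ : I} {W : Set (Pd I)}
  {U : Set (ℕ → Set (Om I))} {n : ℕ}

/-- the forced part of the piece `i` of the partial partition `h` -/
def piece (ξ : I) (F : Finset (ℕ → Set (Om I))) (h : List (Fin n)) (i : Fin n) (r : Rep I) :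
    Set ℕ := {x | h[x]? = some i ∧ x ∈ fset ξ F r}

def Node (B : Set (Rep I)) (ξ : I) (F : Finset (ℕ → Set (Om I))) (Q : Fin n → Pd I)
    (r : Rep I) (h : List (Fin n)) : Prop :=
  ∀ r' ∈ B, r' ≤ r → ∀ i, ¬ Q i r' (piece ξ F h i r')

def Inf (B : Set (Rep I)) (ξ : I) (F : Finset (ℕ → Set (Om I))) (Q : Fin n → Pd I)
    (r : Rep I) (h : List (Fin n)) : Prop :=
  ∀ r' ∈ B, r' ≤ r → ∀ m, ∃ r'' ∈ B, r'' ≤ r' ∧ ∃ h', h <+: h' ∧ m ≤ h'.length ∧
    Node B ξ F Q r'' h'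

variable {F : Finset (ℕ → Set (Om I))} {Q : Fin n → Pd I}

theorem Inf.mono {r r' : Rep I} {h h' : List (Fin n)} (hI : Inf B ξ F Q r h) (hr : r' ≤ r)
    (hh : h' <+: h) : Inf B ξ F Q r' h' := by
  intro s hs hsr m
  obtain ⟨s', h1, h2, h3, h4, h5, h6⟩ := hI s hs (hsr.trans hr) m
  exact ⟨s', h1, h2, h3, hh.trans h4, h5, h6⟩

theorem exists_succ {r : Rep I} {h : List (Fin n)} (hr : r ∈ B) (hI : Inf B ξ F Q r h) :
    ∃ r' ∈ B, r' ≤ r ∧ ∃ i, Inf B ξ F Q r' (h ++ [i]) := by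
  classical
  by_contra hcon
  push Not at hcon
  have hneg : ∀ i : Fin n, ∀ s ∈ B, s ≤ r → ∃ s' ∈ B, s' ≤ s ∧ ∃ m, ∀ s'' ∈ B, s'' ≤ s' →
      ∀ h', h ++ [i] <+: h' → m ≤ h'.length → ¬ Node B ξ F Q s'' h' := by
    intro i s hs hsr
    have h1 := hcon s hs hsr i
    unfold Inf at h1
    push Not at h1
    obtain ⟨s', hs', hle, m, h2⟩ := h1
    exact ⟨s', hs', hle, m, fun s'' hs'' hle' h' hh hm => h2 s'' hs'' hle' h' hh hm⟩
  have hall : ∀ T : Finset (Fin n), ∃ s ∈ B, s ≤ r ∧ ∃ M, ∀ i ∈ T, ∀ s'' ∈ B, s'' ≤ s →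
      ∀ h', h ++ [i] <+: h' → M ≤ h'.length → ¬ Node B ξ F Q s'' h' := by
    intro T
    induction T using Finset.induction_on with
    | empty => exact ⟨r, hr, le_rfl, 0, by simp⟩
    | insert a T _ ih =>
      obtain ⟨s, hs, hle, M, h1⟩ := ih
      obtain ⟨s', hs', hle', m, h2⟩ := hneg a s hs hle
      refine ⟨s', hs', hle'.trans hle, max M m, fun i hi s'' hs'' hle'' h' hh hm => ?_⟩
      rcases Finset.mem_insert.1 hi with rfl | hi
      · exact h2 s'' hs'' hle'' h' hh ((le_max_right _ _).trans hm)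
      · exact h1 i hi s'' hs'' (hle''.trans hle') h' hh ((le_max_left _ _).trans hm)
  obtain ⟨s, hs, hle, M, h1⟩ := hall Finset.univ
  obtain ⟨s', hs', hle', h', hh, hm, hN⟩ := hI s hs hle (max M (h.length + 1))
  obtain ⟨t, rfl⟩ := hh
  have hlen : h.length + 1 ≤ (h ++ t).length := (le_max_right _ _).trans hm
  cases t with
  | nil => simp at hlen
  | cons i t =>
    refine h1 i (Finset.mem_univ i) s' hs' hle' (h ++ i :: t) ⟨t, by simp⟩
      ((le_max_left _ _).trans hm) hN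

/-- the conditions forcing `h` to be on the leftmost branch -/
def Ob (B : Set (Rep I)) (ξ : I) (F : Finset (ℕ → Set (Om I))) (Q : Fin n → Pd I)
    (h : List (Fin n)) : Set (Rep I) :=
  {r | r ∈ B ∧ Inf B ξ F Q r h ∧ ∀ (h₁ : List (Fin n)) (i i' : Fin n), h₁ ++ [i] <+: h → i' < i →
    ∀ r' ∈ B, r' ≤ r → ¬ Inf B ξ F Q r' (h₁ ++ [i'])}

theorem Ob.mono {h : List (Fin n)} {r r' : Rep I} (hr : r ∈ Ob B ξ F Q h) (hr' : r' ∈ B)
    (hle : r' ≤ r) : r' ∈ Ob B ξ F Q h :=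
  ⟨hr', hr.2.1.mono hle (List.prefix_refl _), fun h₁ i i' h1 h2 s hs hsr =>
    hr.2.2 h₁ i i' h1 h2 s hs (hsr.trans hle)⟩

theorem Ob.succ {h : List (Fin n)} {r : Rep I} (hr : r ∈ Ob B ξ F Q h) :
    ∃ r' ∈ B, r' ≤ r ∧ ∃ i, r' ∈ Ob B ξ F Q (h ++ [i]) := by
  classical
  have hex : ∃ k : ℕ, ∃ hk : k < n, ∃ r' ∈ B, r' ≤ r ∧ Inf B ξ F Q r' (h ++ [⟨k, hk⟩]) := by
    obtain ⟨r', h1, h2, i, h3⟩ := exists_succ hr.1 hr.2.1
    exact ⟨i.1, i.2, r', h1, h2, h3⟩
  obtain ⟨hk, r', h1, h2, h3⟩ := Nat.find_spec hex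
  refine ⟨r', h1, h2, ⟨Nat.find hex, hk⟩, h1, h3, ?_⟩
  intro h₁ i i' hp hlt s hs hsr
  obtain ⟨t, ht⟩ := hp
  rcases List.eq_nil_or_concat t with rfl | ⟨t', j, rfl⟩
  · rw [List.append_nil] at ht
    have h4 := List.append_inj' ht rfl
    obtain ⟨rfl, h5⟩ := h4
    have h6 : i = ⟨Nat.find hex, hk⟩ := by simpa using h5
    subst h6
    intro hI
    exact Nat.find_min hex (m := i'.1) hlt ⟨i'.2, s, hs, hsr.trans h2, hI⟩
  · have h4 : h₁ ++ [i] ++ t' = h := by
      rw [List.concat_eq_append, ← List.append_assoc] at ht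
      exact (List.append_inj' ht rfl).1
    exact hr.2.2 h₁ i i' ⟨t', h4⟩ hlt s hs (hsr.trans h2)

theorem prefix_getElem {h : List (Fin n)} {x : ℕ} (hx : x < h.length) :
    h.take x ++ [h[x]] <+: h := by
  rw [List.take_concat_get' h x hx]
  exact List.take_prefix _ _

theorem Ob.agree {h h' : List (Fin n)} {r : Rep I} (hr : r ∈ Ob B ξ F Q h)
    (hr' : r ∈ Ob B ξ F Q h') (m : ℕ) (h1 : m ≤ h.length) (h2 : m ≤ h'.length) :
    h.take m = h'.take m := by
  induction m with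
  | zero => simp
  | succ m ih =>
    have ih' := ih (by omega) (by omega)
    have hm : m < h.length := by omega
    have hm' : m < h'.length := by omega
    rw [← List.take_concat_get' h m hm, ← List.take_concat_get' h' m hm', ih']
    rcases lt_trichotomy h[m] h'[m] with hlt | heq | hgt
    · exfalso
      refine hr'.2.2 (h'.take m) h'[m] h[m] (prefix_getElem hm') hlt r hr.1 le_rfl ?_
      refine hr.2.1.mono le_rfl ?_
      rw [← ih']
      exact prefix_getElem hm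
    · rw [heq]
    · exfalso
      refine hr.2.2 (h.take m) h[m] h'[m] (prefix_getElem hm) hgt r hr.1 le_rfl ?_
      refine hr'.2.1.mono le_rfl ?_
      rw [ih']
      exact prefix_getElem hm'

theorem Mxl.konig (hM : Mxl B ξ W U) (hQ : ∀ i, MonP (Q i))
    (hpos : ∀ i, ∀ G : Finset (ℕ → Set (Om I)), (∀ X ∈ G, X ∈ U) → ∀ r ∈ B,
      ∃ r' ∈ B, r' ≤ r ∧ Q i r' (fset ξ G r'))
    (hF : ∀ X ∈ F, X ∈ U) (r0 : Rep I) (hr0 : r0 ∈ B) :
    ∃ r ∈ B, r ≤ r0 ∧ ∃ m, ∀ h : ℕ → Fin n, ∃ i,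
      Q i r {x | x < m ∧ h x = i ∧ x ∈ fset ξ F r} := by
  classical
  by_contra hcon
  push Not at hcon
  -- the empty partition
  have hlist : ∀ (s : Rep I), s ∈ B → ∀ T : Finset (List (Fin n)), ∃ s' ∈ B, s' ≤ s ∧
      ∀ h ∈ T, Node B ξ F Q s' h ∨ ∃ i, Q i s' (piece ξ F h i s') := by
    intro s hs T
    induction T using Finset.induction_on with
    | empty => exact ⟨s, hs, le_rfl, by simp⟩
    | insert a T _ ih =>
      obtain ⟨s', hs', hle, h1⟩ := ih
      have hpers : ∀ s'' ∈ B, s'' ≤ s' → ∀ h ∈ T, Node B ξ F Q s'' h ∨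
          ∃ i, Q i s'' (piece ξ F h i s'') := by
        intro s'' _ hle' h hh
        rcases h1 h hh with h2 | ⟨i, h2⟩
        · exact Or.inl fun r' hr' hr's => h2 r' hr' (hr's.trans hle')
        · refine Or.inr ⟨i, (hQ i).right ?_ ((hQ i).left hle' h2)⟩
          exact fun x hx => ⟨hx.1, fset_mono hle' hx.2⟩
      by_cases hN : Node B ξ F Q s' a
      · refine ⟨s', hs', hle, fun h hh => ?_⟩
        rcases Finset.mem_insert.1 hh with rfl | hh
        · exact Or.inl hN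
        · exact h1 h hh
      · unfold Node at hN
        push Not at hN
        obtain ⟨s'', hs'', hle', i, hi⟩ := hN
        refine ⟨s'', hs'', hle'.trans hle, fun h hh => ?_⟩
        rcases Finset.mem_insert.1 hh with rfl | hh
        · exact Or.inr ⟨i, hi⟩
        · exact hpers s'' hs'' hle' h hh
  have hI0 : Inf B ξ F Q r0 ([] : List (Fin n)) := by
    intro s hs hsr m
    obtain ⟨s', hs', hle, h1⟩ := hlist s hs
      ((Finset.univ : Finset (Fin m → Fin n)).image List.ofFn)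
    obtain ⟨h, hh⟩ := hcon s' hs' (hle.trans hsr) m
    have hmem : List.ofFn (fun x : Fin m => h x) ∈
        (Finset.univ : Finset (Fin m → Fin n)).image List.ofFn :=
      Finset.mem_image_of_mem _ (Finset.mem_univ _)
    refine ⟨s', hs', hle, List.ofFn (fun x : Fin m => h x), List.nil_prefix, by simp, ?_⟩
    rcases h1 _ hmem with h2 | ⟨i, h2⟩
    · exact h2
    · exfalso
      refine hh i ((hQ i).right ?_ h2)
      rintro x ⟨h3, h4⟩
      rw [List.getElem?_eq_some_iff] at h3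
      obtain ⟨h5, h6⟩ := h3
      rw [List.length_ofFn] at h5
      rw [List.getElem_ofFn] at h6
      exact ⟨h5, h6, h4⟩
  have hO0 : ∀ r ∈ B, r ≤ r0 → r ∈ Ob B ξ F Q ([] : List (Fin n)) := by
    intro r hr hle
    refine ⟨hr, hI0.mono hle (List.prefix_refl _), fun h₁ i i' hp => ?_⟩
    have := hp.length_le
    simp at this
  have hlong : ∀ m, ∀ r ∈ B, r ≤ r0 → ∃ r' ∈ B, r' ≤ r ∧ ∃ h : List (Fin n),
      h.length = m ∧ r' ∈ Ob B ξ F Q h := by
    intro m
    induction m with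
    | zero => intro r hr hle; exact ⟨r, hr, le_rfl, [], rfl, hO0 r hr hle⟩
    | succ m ih =>
      intro r hr hle
      obtain ⟨r', hr', hle', h, hh, hO⟩ := ih r hr hle
      obtain ⟨r'', hr'', hle'', i, hi⟩ := Ob.succ hO
      exact ⟨r'', hr'', hle''.trans hle', h ++ [i], by simp [hh], hi⟩
  let X : Fin n → ℕ → Set (Om I) := fun i k =>
    ⋃ r ∈ {r | ∃ h : List (Fin n), r ∈ Ob B ξ F Q h ∧ h[k]? = some i}, bs r ξ
  have hX : ∀ i, X i ∈ Nm B ξ := by
    intro i k w hw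
    simp only [X, Set.mem_iUnion] at hw
    obtain ⟨r, hr, hwr⟩ := hw
    obtain ⟨h, hO, _⟩ := id hr
    exact ⟨r, hO.1, hwr, fun v hv => Set.mem_biUnion hr hv⟩
  obtain ⟨r1, hr1, hle1, i, X', hX', h1⟩ := hM.part X hX r0 hr0 (by
    intro k r hr hle
    obtain ⟨r', hr', hle', h, hh, hO⟩ := hlong (k + 1) r hr hle
    have hk : k < h.length := by omega
    refine ⟨r', hr', hle', h[k], fun v hv => ?_⟩
    exact Set.mem_biUnion (show r' ∈ {r | ∃ h' : List (Fin n), r ∈ Ob B ξ F Q h' ∧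
      h'[k]? = some h[k]} from ⟨h, hO, List.getElem?_eq_getElem hk⟩) hv)
  obtain ⟨r2, hr2, hle2, h2⟩ := hpos i (insert X' F) (fun Y hY => by
    rcases Finset.mem_insert.1 hY with rfl | hY
    · exact hX'
    · exact hF Y hY) r1 hr1
  obtain ⟨m, hm⟩ := (hQ i).fin h2
  obtain ⟨r3, hr3, hle3, h, hh, hO⟩ := hlong m r2 hr2 (hle2.trans hle1)
  obtain ⟨r4, hr4, hle4, h', hp, _, hN⟩ := hO.2.1 r3 hr3 le_rfl m
  refine hN r4 hr4 le_rfl i ((hQ i).right ?_ ((hQ i).left (hle4.trans hle3) hm))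
  rintro x ⟨hx1, hx2⟩
  have hsub : bs r2 ξ ⊆ X i x := h1 r2 hr2 hle2 x (hx2 X' (Finset.mem_insert_self _ _))
  obtain ⟨w, hw⟩ := hM.nonempty r4 hr4
  have hw2 : w ∈ bs r2 ξ := bs_le (hle4.trans hle3) ξ hw
  have hw3 := hsub hw2
  simp only [X, Set.mem_iUnion] at hw3
  obtain ⟨r', ⟨h'', hO', hi'⟩, hwr'⟩ := hw3
  obtain ⟨s, hs, hs1, hs2⟩ := hM.compat r4 hr4 r' hO'.1 w hw hwr'
  have hx3 : x < h''.length := by
    by_contra hcc
    rw [List.getElem?_eq_none (not_lt.1 hcc)] at hi'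
    exact absurd hi' (by simp)
  have hx4 : x < h.length := by omega
  have hag := Ob.agree (Ob.mono hO hs (hs1.trans hle4)) (Ob.mono hO' hs hs2) (x + 1) (by omega)
    (by omega)
  have hx5 : h[x]? = h''[x]? := by
    have e1 : (h.take (x + 1))[x]? = h[x]? := by
      rw [List.getElem?_take]; simp
    have e2 : (h''.take (x + 1))[x]? = h''[x]? := by
      rw [List.getElem?_take]; simp
    rw [← e1, ← e2, hag]
  refine ⟨?_, ?_⟩
  · obtain ⟨t, rfl⟩ := hp
    rw [List.getElem?_append_left hx4, hx5, hi']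
  · exact fun Y hY => (bs_le (hle4.trans hle3) ξ).trans (hx2 Y (Finset.mem_insert_of_mem hY))

end Pool.Agent.TH778.MX
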