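import Mathlib
import Pool.Agent.TH778.MX.Konig
import Pool.Agent.TH778.MX.Base

/-!
# The successor step of the matrix: extending ultrafilters between rows
-/

namespace Pool.Agent.TH778.MX

open Pool.Agent.Helper669.Iter

set_option linter.unusedSectionVars false

universe u

variable {I : Type u} [LinearOrder I]

/-- the promise that the first components lie in the set named by `X` -/
def pm (X : ℕ → Set (Om I)) : Pr I := fun _ m => X (Nat.unpair m).1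

/-- conditions trivial beyond `ξ`, with part below `ξ` in `B` and promises at `ξ` from `A` -/
def VP (B : Set (Rep I)) (A : Set (Pr I)) (ξ : I) : Set (Rep I) :=
  {r | res r ξ ∈ B ∧ (∀ R ∈ r.pr ξ, R ∈ A) ∧ ∀ η, ξ < η → r.st η = [] ∧ r.pr η = ∅}

/-- `E` is a name of a sequence of natural numbers from `k` on: `E n j` is the set of conditions
forcing the value at `n` to be at most `j` -/
def Dn (V : Set (Rep I)) (k : ℕ) (E : ℕ → ℕ → Set (Rep I)) : Prop :=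
  (∀ n j, E n j ⊆ V) ∧ (∀ n j j', j ≤ j' → E n j ⊆ E n j') ∧
  ∀ n, k ≤ n → ∀ p ∈ V, ∃ j, ∃ r ∈ E n j, r ≤ p

def Ext (ξ : I) (q : Rep I) (u : List ℕ) (r : Rep I) : Prop :=
  q ≤ res r ξ ∧ r.st ξ <+: u ∧ ∀ R ∈ r.pr ξ, ∀ l, (r.st ξ).length ≤ l → l < u.length →
    bs q ξ ⊆ R l (u.getD l 0)

def core (ξ : I) (u : List ℕ) (E : Set (Rep I)) : Pd I := fun q t =>
  ∃ s : List ℕ, (∀ x ∈ s, (Nat.unpair x).1 ∈ t) ∧ ∃ r ∈ E, Ext ξ q (u ++ s) r

def ub (ξ c : I) (u : List ℕ) (k : ℕ) (E : ℕ → ℕ → Set (Rep I)) : Pd I := fun q t =>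
  ∃ n, k ≤ n ∧ ∃ j, core ξ u (E n j) q t ∧ n < (q.st c).length ∧ j ≤ (q.st c).getD n 0

def triv (I : Type u) [LinearOrder I] (N : ℕ) : Pd I := fun _ t => ∃ k ∈ t, N ≤ k

theorem Ext.mono {ξ : I} {q q' : Rep I} {u : List ℕ} {r : Rep I} (h : Ext ξ q u r)
    (hle : q' ≤ q) : Ext ξ q' u r :=
  ⟨hle.trans h.1, h.2.1, fun R hR l h1 h2 => (bs_le hle ξ).trans (h.2.2 R hR l h1 h2)⟩

theorem monP_core (ξ : I) (u : List ℕ) (E : Set (Rep I)) : MonP (core ξ u E) where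
  left := by
    rintro q q' t hle ⟨s, h1, r, hr, h2⟩
    exact ⟨s, h1, r, hr, h2.mono hle⟩
  right := by
    rintro q t t' hsub ⟨s, h1, r, hr, h2⟩
    exact ⟨s, fun x hx => hsub (h1 x hx), r, hr, h2⟩
  fin := by
    rintro q t ⟨s, h1, r, hr, h2⟩
    have hb : ∃ m, ∀ x ∈ s, (Nat.unpair x).1 < m := by
      clear h1 h2
      induction s with
      | nil => exact ⟨0, by simp⟩
      | cons a s ih =>
        obtain ⟨m, hm⟩ := ih
        refine ⟨max m ((Nat.unpair a).1 + 1), fun x hx => ?_⟩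
        rcases List.mem_cons.1 hx with rfl | hx
        · omega
        · exact (hm x hx).trans_le (le_max_left _ _)
    obtain ⟨m, hm⟩ := hb
    exact ⟨m, s, fun x hx => ⟨hm x hx, h1 x hx⟩, r, hr, h2⟩

theorem stc_mono {q q' : Rep I} {c : I} {n j : ℕ} (hle : q' ≤ q) (h : n < (q.st c).length)
    (h' : j ≤ (q.st c).getD n 0) : n < (q'.st c).length ∧ j ≤ (q'.st c).getD n 0 := by
  obtain ⟨h1, _, _⟩ := hle c
  exact ⟨h.trans_le h1.length_le, by rwa [← getD_prefix h1 h]⟩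

theorem monP_ub (ξ c : I) (u : List ℕ) (k : ℕ) (E : ℕ → ℕ → Set (Rep I)) :
    MonP (ub ξ c u k E) where
  left := by
    rintro q q' t hle ⟨n, hn, j, h1, h2, h3⟩
    exact ⟨n, hn, j, (monP_core ξ u _).left hle h1, stc_mono hle h2 h3⟩
  right := by
    rintro q t t' hsub ⟨n, hn, j, h1, h2, h3⟩
    exact ⟨n, hn, j, (monP_core ξ u _).right hsub h1, h2, h3⟩
  fin := by
    rintro q t ⟨n, hn, j, h1, h2, h3⟩
    obtain ⟨m, hm⟩ := (monP_core ξ u _).fin h1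
    exact ⟨m, n, hn, j, hm, h2, h3⟩

theorem monP_triv (N : ℕ) : MonP (triv I N) where
  left := by
    rintro q q' t hle ⟨k, h1, h2⟩
    exact ⟨k, h1, h2⟩
  right := by
    rintro q t t' hsub ⟨k, h1, h2⟩
    exact ⟨k, hsub h1, h2⟩
  fin := by
    rintro q t ⟨k, h1, h2⟩
    exact ⟨k + 1, k, ⟨Nat.lt_succ_self k, h1⟩, h2⟩

/-- `r` below `ξ`, and the stem `u` with promises `A` at `ξ` -/
noncomputable def mk (ξ : I) (r : Rep I) (u : List ℕ) (A : Finset (Pr I)) : Rep I where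
  st η := if η < ξ then r.st η else if η = ξ then u else []
  pr η := if η < ξ then r.pr η else if η = ξ then A else ∅
  fin := by
    refine (r.fin.union (Set.finite_singleton ξ)).subset fun ζ hζ => ?_
    by_cases h1 : ζ < ξ
    · left; simpa [h1] using hζ
    · by_cases h2 : ζ = ξ
      · right; exact h2
      · simp [h1, h2] at hζ

section mk

variable {ξ : I} {r : Rep I} {u : List ℕ} {A : Finset (Pr I)}

theorem mk_st_lt {η : I} (h : η < ξ) : (mk ξ r u A).st η = r.st η := if_pos h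
theorem mk_pr_lt {η : I} (h : η < ξ) : (mk ξ r u A).pr η = r.pr η := if_pos h
theorem mk_st_self : (mk ξ r u A).st ξ = u := by simp [mk]
theorem mk_pr_self : (mk ξ r u A).pr ξ = A := by simp [mk]
theorem mk_st_gt {η : I} (h : ξ < η) : (mk ξ r u A).st η = [] := by simp [mk, h.not_gt, h.ne']
theorem mk_pr_gt {η : I} (h : ξ < η) : (mk ξ r u A).pr η = ∅ := by simp [mk, h.not_gt, h.ne']

theorem bs_mk {η : I} (h : η ≤ ξ) : bs (mk ξ r u A) η = bs r η :=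
  bs_congr fun _ hζ => ⟨mk_st_lt (hζ.trans_le h), mk_pr_lt (hζ.trans_le h)⟩

theorem res_mk (h : Below r ξ) : res (mk ξ r u A) ξ = r := by
  ext1
  · funext η
    by_cases hη : η < ξ
    · rw [res_st_lt hη, mk_st_lt hη]
    · rw [res_st_ge (not_lt.1 hη), (h η (not_lt.1 hη)).1]
  · funext η
    by_cases hη : η < ξ
    · rw [res_pr_lt hη, mk_pr_lt hη]
    · rw [res_pr_ge (not_lt.1 hη), (h η (not_lt.1 hη)).2]

/-- `mk ξ r u A` extends a condition trivial beyond `ξ` -/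
theorem mk_le {q : Rep I} (h1 : r ≤ res q ξ) (h2 : q.st ξ <+: u) (h3 : q.pr ξ ⊆ A)
    (h4 : ∀ R ∈ q.pr ξ, ∀ l, (q.st ξ).length ≤ l → l < u.length → bs r ξ ⊆ R l (u.getD l 0))
    (h5 : ∀ η, ξ < η → q.st η = [] ∧ q.pr η = ∅) : mk ξ r u A ≤ q := by
  intro η
  rcases lt_trichotomy η ξ with h | rfl | h
  · have := h1 η
    rw [res_st_lt h, res_pr_lt h] at this
    rw [mk_st_lt h, mk_pr_lt h, bs_mk h.le]
    exact this
  · rw [mk_st_self, mk_pr_self, bs_mk le_rfl]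
    exact ⟨h2, h3, h4⟩
  · obtain ⟨h6, h7⟩ := h5 η h
    rw [h6, h7]
    exact ⟨List.nil_prefix, Finset.empty_subset _, fun R hR => absurd hR (Finset.notMem_empty R)⟩

end mk

/-- `c` is unbounded over names in `V`, in `V'` -/
def UBd (c : I) (V V' : Set (Rep I)) : Prop :=
  ∀ k E, Dn V k E → ∀ p ∈ V', ∃ p' ∈ V', p' ≤ p ∧ ∃ n, k ≤ n ∧ ∃ j, ∃ r ∈ E n j, p' ≤ r ∧
    n < (p'.st c).length ∧ j ≤ (p'.st c).getD n 0

/-- dense sets of `V` are predense in `V'` -/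
theorem UBd.predense {c : I} {V V' : Set (Rep I)} (h : UBd c V V') (D : Set (Rep I))
    (hD : D ⊆ V) (hd : ∀ p ∈ V, ∃ r ∈ D, r ≤ p) (p : Rep I) (hp : p ∈ V') :
    ∃ p' ∈ V', p' ≤ p ∧ ∃ r ∈ D, p' ≤ r := by
  obtain ⟨p', h1, h2, _, _, _, r, h3, h4, _⟩ := h 0 (fun _ _ => D)
    ⟨fun _ _ => hD, fun _ _ _ _ => le_rfl, fun _ _ p hp => ⟨0, hd p hp⟩⟩ p hp
  exact ⟨p', h1, h2, r, h3, h4⟩

variable {K : Type u} [LinearOrder K]

/-- the predicates for the row `γ` -/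
def WW (co : K → I) (ξ : I) (Bf : K → Set (Rep I)) (γ : K)
    (U : ∀ α, α < γ → Set (ℕ → Set (Om I))) : Set (Pd I) :=
  {W | (∃ N, W = triv I N) ∨ ∃ α, ∃ h : α < γ, ∃ u k E,
    Dn (VP (Bf α) (pm '' U α h) ξ) k E ∧ W = ub ξ (co α) u k E}

theorem monP_WW {co : K → I} {ξ : I} {Bf : K → Set (Rep I)} {γ : K}
    {U : ∀ α, α < γ → Set (ℕ → Set (Om I))} {W : Pd I} (h : W ∈ WW co ξ Bf γ U) : MonP W := by
  rcases h with ⟨N, rfl⟩ | ⟨α, _, u, k, E, _, rfl⟩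
  · exact monP_triv N
  · exact monP_ub _ _ _ _ _

theorem pos_core {ξ : I} {B : Set (Rep I)} {U : Set (ℕ → Set (Om I))}
    (hB : ∀ r ∈ B, Below r ξ) {E : ℕ → Set (Rep I)} (hE : ∀ j, E j ⊆ VP B (pm '' U) ξ)
    (hd : ∀ p ∈ VP B (pm '' U) ξ, ∃ j, ∃ r ∈ E j, r ≤ p) (u : List ℕ)
    (G : Finset (ℕ → Set (Om I))) (hG : ∀ X ∈ G, X ∈ U) (r : Rep I) (hr : r ∈ B) :
    ∃ r' ∈ B, r' ≤ r ∧ ∃ j, core ξ u (E j) r' (fset ξ G r') := by
  classical
  have hc : mk ξ r u (G.image pm) ∈ VP B (pm '' U) ξ := by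
    refine ⟨by rw [res_mk (hB r hr)]; exact hr, fun R hR => ?_, fun η hη =>
      ⟨mk_st_gt hη, mk_pr_gt hη⟩⟩
    rw [mk_pr_self] at hR
    obtain ⟨X, hX, rfl⟩ := Finset.mem_image.1 hR
    exact ⟨X, hG X hX, rfl⟩
  obtain ⟨j, r', hr', hle⟩ := hd _ hc
  have hr'V := hE j hr'
  have hle2 : res r' ξ ≤ r := by
    have := res_mono hle ξ
    rwa [res_mk (hB r hr)] at this
  obtain ⟨h1, h2, h3⟩ := hle ξ
  rw [mk_st_self] at h1 h3
  rw [mk_pr_self] at h2 h3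
  obtain ⟨s, hs⟩ := h1
  refine ⟨res r' ξ, hr'V.1, hle2, j, s, fun x hx => ?_, r', hr', le_rfl, by rw [hs], ?_⟩
  · intro X hX
    rw [bs_res le_rfl]
    obtain ⟨l, hl, hlx⟩ := List.getElem_of_mem hx
    have h4 := h3 (pm X) (Finset.mem_image_of_mem pm hX) (u.length + l) (by omega) (by
      rw [← hs, List.length_append]; omega)
    have h5 : (r'.st ξ).getD (u.length + l) 0 = x := by
      rw [← hs, List.getD_append_right _ _ _ _ (by omega)]
      rw [Nat.add_sub_cancel_left, List.getD_eq_getElem _ _ hl, hlx]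
    rw [h5] at h4
    exact h4
  · intro R _ l hl hl'
    rw [hs] at hl'
    exact absurd hl' (not_lt.2 hl)

/-- the ultrafilters of the lower rows generate a positive filter -/
theorem fip_main {co : K → I} {ξ : I} {Bf : K → Set (Rep I)} (γ : K)
    (U : K → Set (ℕ → Set (Om I)))
    (hU : ∀ α < γ, Mxl (Bf α) ξ (WW co ξ Bf α (fun β _ => U β)) (U α))
    (hUmono : ∀ α β, α ≤ β → β < γ → U α ⊆ U β)
    (hbelow : ∀ α, ∀ r ∈ Bf α, Below r ξ)
    (hUB : ∀ α < γ, UBd (co α) (Bf α) (Bf γ)) :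
    Pos (Bf γ) ξ (WW co ξ Bf γ (fun β _ => U β)) {X | ∃ α < γ, X ∈ U α} := by
  classical
  intro F hF n L hL q hq
  by_cases hne : ∃ α0, α0 < γ
  swap
  · -- the least row
    have hF0 : ∀ X, X ∉ F := fun X hX => by
      obtain ⟨α, hα, _⟩ := hF X hX
      exact hne ⟨α, hα⟩
    have hL0 : ∀ i, ∃ N, L i = triv I N := by
      intro i
      rcases hL i with h | ⟨α, hα, _⟩
      · exact h
      · exact absurd ⟨α, hα⟩ hne
    choose N hN using hL0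
    refine ⟨q, hq, le_rfl, Finset.univ.sup N + 1, fun h => ?_⟩
    refine ⟨h (Finset.univ.sup N), ?_⟩
    rw [hN]
    exact ⟨Finset.univ.sup N, ⟨Nat.lt_succ_self _, rfl, fun X hX => absurd hX (hF0 X)⟩,
      Finset.le_sup (Finset.mem_univ _)⟩
  obtain ⟨α0, hα0⟩ := hne
  -- a row above everything used
  obtain ⟨α, hα, hFα, hLα⟩ : ∃ α < γ, (∀ X ∈ F, X ∈ U α) ∧
      ∀ i, (∃ N, L i = triv I N) ∨ ∃ β ≤ α, ∃ u k E,
        Dn (VP (Bf β) (pm '' U β) ξ) k E ∧ L i = ub ξ (co β) u k E := by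
    have h1 : ∀ X : F, ∃ β : Set.Iio γ, X.1 ∈ U β := fun X => by
      obtain ⟨β, hβ, h⟩ := hF X.1 X.2
      exact ⟨⟨β, hβ⟩, h⟩
    have h2 : ∀ i, ∃ β : Set.Iio γ, (∃ N, L i = triv I N) ∨ ∃ u k E,
        Dn (VP (Bf β) (pm '' U β) ξ) k E ∧ L i = ub ξ (co β) u k E := fun i => by
      rcases hL i with h | ⟨β, hβ, h⟩
      · exact ⟨⟨α0, hα0⟩, Or.inl h⟩
      · exact ⟨⟨β, hβ⟩, Or.inr h⟩
    choose a ha using h1
    choose b hb using h2
    have : Nonempty (Set.Iio γ) := ⟨⟨α0, hα0⟩⟩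
    obtain ⟨m1, hm1⟩ := Finite.exists_le a
    obtain ⟨m2, hm2⟩ := Finite.exists_le b
    refine ⟨max m1 m2, max_lt m1.2 m2.2, fun X hX => ?_, fun i => ?_⟩
    · exact hUmono _ _ ((hm1 ⟨X, hX⟩).trans (le_max_left _ _)) (max_lt m1.2 m2.2) (ha ⟨X, hX⟩)
    · rcases hb i with h | h
      · exact Or.inl h
      · exact Or.inr ⟨b i, (hm2 i).trans (le_max_right _ _), h⟩
  have hMα := hU α hα
  have hcls : ∀ i, ∃ (k : ℕ) (Qf : ℕ → ℕ → Pd I), (∀ n' j, MonP (Qf n' j)) ∧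
      (∀ n' j j', j ≤ j' → ∀ q t, Qf n' j q t → Qf n' j' q t) ∧
      (∀ n', k ≤ n' → ∀ G : Finset (ℕ → Set (Om I)), (∀ X ∈ G, X ∈ U α) → ∀ r ∈ Bf α,
        ∃ r' ∈ Bf α, r' ≤ r ∧ ∃ j, Qf n' j r' (fset ξ G r')) ∧
      ∀ n', k ≤ n' → ∀ j q t, Qf n' j q t → n' < (q.st (co α)).length →
        j ≤ (q.st (co α)).getD n' 0 → L i q t := by
    intro i
    have hA : L i ∈ WW co ξ Bf α (fun β _ => U β) → ∃ (k : ℕ) (Qf : ℕ → ℕ → Pd I),
        (∀ n' j, MonP (Qf n' j)) ∧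
        (∀ n' j j', j ≤ j' → ∀ q t, Qf n' j q t → Qf n' j' q t) ∧
        (∀ n', k ≤ n' → ∀ G : Finset (ℕ → Set (Om I)), (∀ X ∈ G, X ∈ U α) → ∀ r ∈ Bf α,
          ∃ r' ∈ Bf α, r' ≤ r ∧ ∃ j, Qf n' j r' (fset ξ G r')) ∧
        ∀ n', k ≤ n' → ∀ j q t, Qf n' j q t → n' < (q.st (co α)).length →
          j ≤ (q.st (co α)).getD n' 0 → L i q t := by
      intro hmem
      refine ⟨0, fun _ _ => L i, fun _ _ => monP_WW hmem, fun _ _ _ _ _ _ h => h, ?_,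
        fun _ _ _ _ _ h _ _ => h⟩
      intro n' _ G hG r hr
      obtain ⟨r', hr', hle, m, hm⟩ := hMα.pos G hG 1 (fun _ => L i) (fun _ => hmem) r hr
      obtain ⟨i', hi'⟩ := hm (fun _ => 0)
      exact ⟨r', hr', hle, 0, (monP_WW hmem).right (fun x hx => hx.2.2) hi'⟩
    rcases hLα i with h | ⟨β, hβ, u, k, E, hE, hLi⟩
    · exact hA (Or.inl h)
    · rcases hβ.lt_or_eq with hlt | rfl
      · exact hA (Or.inr ⟨β, hlt, u, k, E, hE, hLi⟩)
      · refine ⟨k, fun n' j => core ξ u (E n' j), fun _ _ => monP_core _ _ _, ?_, ?_, ?_⟩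
        · rintro n' j j' hj q t ⟨s, h1, r, hr, h2⟩
          exact ⟨s, h1, r, hE.2.1 n' j j' hj hr, h2⟩
        · intro n' hn' G hG r hr
          exact pos_core (hbelow β) (hE.1 n') (hE.2.2 n' hn') u G hG r hr
        · intro n' hn' j q t h1 h2 h3
          rw [hLi]
          exact ⟨n', hn', j, h1, h2, h3⟩
  choose k Qf hQ1 hQ2 hQ3 hQ4 using hcls
  -- the name of a bound
  obtain ⟨p', hp', hle, n', hn', j, r, ⟨_, m, hm⟩, hp'r, h1, h2⟩ := hUB α hα (Finset.univ.sup k)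
    (fun n' j => {r | r ∈ Bf α ∧ ∃ m, ∀ h : ℕ → Fin n, ∃ i,
      Qf i n' j r {x | x < m ∧ h x = i ∧ x ∈ fset ξ F r}}) (by
    refine ⟨fun _ _ _ h => h.1, ?_, ?_⟩
    · rintro n' j j' hj r ⟨hr, m, hm⟩
      refine ⟨hr, m, fun h => ?_⟩
      obtain ⟨i, hi⟩ := hm h
      exact ⟨i, hQ2 i n' j j' hj _ _ hi⟩
    · intro n' hn' p hp
      have hk : ∀ i, k i ≤ n' := fun i => (Finset.le_sup (Finset.mem_univ i)).trans hn'
      obtain ⟨r, hr, hle, m, hm⟩ := hMα.konig (Q := fun i q t => ∃ j, Qf i n' j q t) (F := F)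
        (fun i =>
          { left := fun hle h => by
              obtain ⟨j, hj⟩ := h
              exact ⟨j, (hQ1 i n' j).left hle hj⟩
            right := fun hsub h => by
              obtain ⟨j, hj⟩ := h
              exact ⟨j, (hQ1 i n' j).right hsub hj⟩
            fin := fun h => by
              obtain ⟨j, hj⟩ := h
              obtain ⟨m, hm⟩ := (hQ1 i n' j).fin hj
              exact ⟨m, j, hm⟩ })
        (fun i G hG r hr => hQ3 i n' (hk i) G hG r hr) hFα p hp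
      -- make the bound uniform
      rcases Nat.eq_zero_or_pos n with rfl | hn0
      · exact ⟨0, r, ⟨hr, 0, fun h => (h 0).elim0⟩, hle⟩
      · have hext : ∀ g : Fin m → Fin n, ∃ j, ∃ i, Qf i n' j r
            {x | x < m ∧ (fun y => if hy : y < m then g ⟨y, hy⟩ else ⟨0, hn0⟩) x = i ∧
              x ∈ fset ξ F r} := by
          intro g
          obtain ⟨i, j, hj⟩ := hm (fun y => if hy : y < m then g ⟨y, hy⟩ else ⟨0, hn0⟩)
          exact ⟨j, i, hj⟩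
        choose jj hjj using hext
        refine ⟨Finset.univ.sup jj, r, ⟨hr, m, fun h => ?_⟩, hle⟩
        obtain ⟨i, hi⟩ := hjj (fun x => h x)
        have hsup : jj (fun x => h x) ≤ Finset.univ.sup jj :=
          Finset.le_sup (f := jj) (Finset.mem_univ (fun x : Fin m => h x))
        refine ⟨i, hQ2 i n' _ _ hsup _ _ ?_⟩
        refine (hQ1 i n' _).right ?_ hi
        rintro x ⟨h1, h2, h3⟩
        simp only [h1, dif_pos] at h2
        exact ⟨h1, h2, h3⟩) q hq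
  refine ⟨p', hp', hle, m, fun h => ?_⟩
  obtain ⟨i, hi⟩ := hm h
  have hk : k i ≤ n' := (Finset.le_sup (Finset.mem_univ i)).trans hn'
  refine ⟨i, hQ4 i n' hk j _ _ ((hQ1 i n' j).right ?_ ((hQ1 i n' j).left hp'r hi)) h1 h2⟩
  rintro x ⟨h1, h2, h3⟩
  exact ⟨h1, h2, fset_mono hp'r h3⟩

/-- the successor step for the unbounded reals -/
theorem UBd_mat {co : K → I} {ξ : I} {Bf : K → Set (Rep I)} {α γ : K} (hαγ : α < γ)
    (U : K → Set (ℕ → Set (Om I))) (hco : co α < ξ)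
    (hpos : Pos (Bf γ) ξ (WW co ξ Bf γ (fun β _ => U β)) (U γ))
    (hUmono : U α ⊆ U γ) (hbelow : ∀ r ∈ Bf γ, Below r ξ) :
    UBd (co α) (VP (Bf α) (pm '' U α) ξ) (VP (Bf γ) (pm '' U γ) ξ) := by
  classical
  intro k E hE p hp
  obtain ⟨hp1, hp2, hp3⟩ := hp
  have hch : ∀ R : Pr I, ∃ X, R ∈ p.pr ξ → X ∈ U γ ∧ pm X = R := by
    intro R
    by_cases hR : R ∈ p.pr ξ
    · obtain ⟨X, hX, hXR⟩ := hp2 R hR
      exact ⟨X, fun _ => ⟨hX, hXR⟩⟩
    · exact ⟨fun _ => ∅, fun h => absurd h hR⟩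
  choose X hX using hch
  obtain ⟨q', hq', hle, m, hm⟩ := hpos ((p.pr ξ).image X) (by
    intro Y hY
    obtain ⟨R, hR, rfl⟩ := Finset.mem_image.1 hY
    exact (hX R hR).1) 1 (fun _ => ub ξ (co α) (p.st ξ) k E)
    (fun _ => Or.inr ⟨α, hαγ, _, k, E, hE, rfl⟩) (res p ξ) hp1
  obtain ⟨_, n, hn, j, ⟨s, hs, r, hr, hExt⟩, h1, h2⟩ := hm (fun _ => 0)
  have hrV := hE.1 n j hr
  have hmkV : mk ξ q' (p.st ξ ++ s) (p.pr ξ ∪ r.pr ξ) ∈ VP (Bf γ) (pm '' U γ) ξ := by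
    refine ⟨by rw [res_mk (hbelow q' hq')]; exact hq', fun R hR => ?_,
      fun η hη => ⟨mk_st_gt hη, mk_pr_gt hη⟩⟩
    rw [mk_pr_self] at hR
    rcases Finset.mem_union.1 hR with h | h
    · exact hp2 R h
    · obtain ⟨Y, hY, hYR⟩ := hrV.2.1 R h
      exact ⟨Y, hUmono hY, hYR⟩
  refine ⟨mk ξ q' (p.st ξ ++ s) (p.pr ξ ∪ r.pr ξ), hmkV, ?_, n, hn, j, r, hr, ?_, ?_⟩
  · refine mk_le hle (List.prefix_append _ _) Finset.subset_union_left ?_ hp3
    intro R hR l hl hl'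
    obtain ⟨hXR, hXR'⟩ := hX R hR
    rw [List.getD_append_right _ _ _ _ hl]
    rw [List.length_append] at hl'
    have hl2 : l - (p.st ξ).length < s.length := by omega
    rw [List.getD_eq_getElem _ _ hl2]
    have h3 := (hs _ (List.getElem_mem hl2)).2.2 (X R) (Finset.mem_image_of_mem X hR)
    have h4 : bs q' ξ ⊆ pm (X R) l (s[l - (p.st ξ).length]) := h3
    rwa [hXR'] at h4
  · exact mk_le hExt.1 hExt.2.1 Finset.subset_union_right hExt.2.2 hrV.2.2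
  · rw [mk_st_lt hco]
    exact ⟨h1, h2⟩

end Pool.Agent.TH778.MX
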