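import Mathlib
import Pool.Agent.TH778.MX.Step

/-!
# The matrix of rows: definition by recursion
-/

namespace Pool.Agent.TH778.MX

open Pool.Agent.Helper669.Iter

set_option linter.unusedSectionVars false

universe u

/-- the kinds of coordinates: a Cohen real, a pseudo-intersection of an ultrafilter, and
a dominating real over a row -/
inductive Kd (K : Type u) : Type u
  | coh (α : K)
  | mat
  | hec (β : K)

variable {I K : Type u} [LinearOrder I] [WellFoundedLT I] [LinearOrder K] [WellFoundedLT K]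

def inRow (γ : K) : Kd K → Prop
  | .coh α => α < γ
  | .mat => True
  | .hec β => β ≤ γ

/-- the coordinates of the row `γ` -/
def DD (kd : I → Kd K) (γ : K) : Set I := {η | inRow γ (kd η)}

theorem DD_mono (kd : I → Kd K) {α γ : K} (h : α ≤ γ) : DD kd α ⊆ DD kd γ := by
  intro η hη
  simp only [DD, Set.mem_ofPred_eq] at hη ⊢
  cases hk : kd η with
  | coh a => rw [hk] at hη; exact lt_of_lt_of_le hη h
  | mat => trivial
  | hec b => rw [hk] at hη; exact le_trans hη h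

/-- the promises to be above a name of the row -/
def HR (B : Set (Rep I)) (ξ : I) : Set (Pr I) :=
  {R | (∀ n m, ∀ w ∈ R n m, ∃ q ∈ B, w ∈ bs q ξ ∧ bs q ξ ⊆ R n m) ∧
    ∀ n, ∀ q ∈ B, ∃ q' ∈ B, q' ≤ q ∧ ∃ m₀, ∀ m, m₀ ≤ m → bs q' ξ ⊆ R n m}

open Classical in
/-- a maximal positive family of names -/
noncomputable def Mx (B : Set (Rep I)) (ξ : I) (W : Set (Pd I)) (U0 : Set (ℕ → Set (Om I))) :
    Set (ℕ → Set (Om I)) :=
  if h : ∃ U, U0 ⊆ U ∧ U ⊆ Nm B ξ ∧ Pos B ξ W U ∧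
    ∀ V, U ⊆ V → V ⊆ Nm B ξ → Pos B ξ W V → V ⊆ U then h.choose else ∅

noncomputable def UF (co : K → I) (ξ : I) (Bf : K → Set (Rep I)) : K → Set (ℕ → Set (Om I)) :=
  WellFoundedLT.fix (motive := fun _ : K => Set (ℕ → Set (Om I))) fun γ f =>
    Mx (Bf γ) ξ (WW co ξ Bf γ f) {X | ∃ α, ∃ h : α < γ, X ∈ f α h}

theorem UF_eq (co : K → I) (ξ : I) (Bf : K → Set (Rep I)) (γ : K) :
    UF co ξ Bf γ = Mx (Bf γ) ξ (WW co ξ Bf γ (fun β _ => UF co ξ Bf β))
      {X | ∃ α < γ, X ∈ UF co ξ Bf α} := by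
  rw [UF, WellFoundedLT.fix_eq]
  congr 1
  ext X
  simp only [exists_prop]

/-- the promises at a coordinate -/
noncomputable def StepR (co : K → I) (k : Kd K) (ξ : I) (Bf : K → Set (Rep I)) (γ : K) :
    Set (Pr I) :=
  match k with
  | .coh _ => ∅
  | .mat => pm '' UF co ξ Bf γ
  | .hec β => {R | β ≤ γ ∧ R ∈ HR (Bf β) ξ}

/-- the promises of the rows, by recursion -/
noncomputable def RW (kd : I → Kd K) (co : K → I) : I → K → Set (Pr I) :=
  WellFoundedLT.fix (motive := fun _ : I => K → Set (Pr I)) fun ξ f γ =>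
    StepR co (kd ξ) ξ (fun γ => {r | (∀ η, ∀ h : η < ξ, ∀ R ∈ r.pr η, R ∈ f η h γ) ∧
      Below r ξ ∧ supp r ⊆ DD kd γ}) γ

/-- the conditions of row `γ` below `ξ` -/
noncomputable def VV (kd : I → Kd K) (co : K → I) (γ : K) (ξ : I) : Set (Rep I) :=
  Vs (fun η => RW kd co η γ) (DD kd γ) ξ

theorem RW_eq (kd : I → Kd K) (co : K → I) (ξ : I) :
    RW kd co ξ = StepR co (kd ξ) ξ (fun γ => VV kd co γ ξ) := by
  funext γ
  rw [RW, WellFoundedLT.fix_eq]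
  congr 1
  funext γ
  ext r
  constructor
  · rintro ⟨h1, h2, h3⟩
    refine ⟨fun η R hR => ?_, h2, h3⟩
    by_cases hη : η < ξ
    · exact h1 η hη R hR
    · rw [(h2 η (not_lt.1 hη)).2] at hR
      exact absurd hR (Finset.notMem_empty R)
  · rintro ⟨h1, h2, h3⟩
    exact ⟨fun η _ R hR => h1 η R hR, h2, h3⟩

/-! ### The ultrafilters of one column -/

/-- what is known about the rows below a coordinate -/
structure HypAt (co : K → I) (ξ : I) (Bf : K → Set (Rep I)) : Prop where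
  compat : ∀ γ, ∀ q ∈ Bf γ, ∀ q' ∈ Bf γ, ∀ w, w ∈ bs q ξ → w ∈ bs q' ξ →
    ∃ s ∈ Bf γ, s ≤ q ∧ s ≤ q'
  nonempty : ∀ γ, ∀ q ∈ Bf γ, ∃ w, w ∈ bs q ξ
  below : ∀ γ, ∀ r ∈ Bf γ, Below r ξ
  mono : ∀ α γ, α ≤ γ → Bf α ⊆ Bf γ
  ub : ∀ α γ, α < γ → UBd (co α) (Bf α) (Bf γ)

theorem HypAt.uf {co : K → I} {ξ : I} {Bf : K → Set (Rep I)} (H : HypAt co ξ Bf) (γ : K) :
    Mxl (Bf γ) ξ (WW co ξ Bf γ (fun β _ => UF co ξ Bf β)) (UF co ξ Bf γ) ∧
      ∀ α < γ, UF co ξ Bf α ⊆ UF co ξ Bf γ := by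
  induction γ using WellFoundedLT.induction with
  | ind γ ih =>
    have hmono : ∀ α β, α ≤ β → β < γ → UF co ξ Bf α ⊆ UF co ξ Bf β := by
      intro α β hαβ hβ
      rcases hαβ.lt_or_eq with h | rfl
      · exact (ih β hβ).2 α h
      · exact le_rfl
    have hpos := fip_main γ (UF co ξ Bf) (fun α hα => (ih α hα).1) hmono H.below
      (fun α hα => H.ub α γ hα)
    have hsub : {X | ∃ α < γ, X ∈ UF co ξ Bf α} ⊆ Nm (Bf γ) ξ := by
      rintro X ⟨α, hα, hX⟩ k w hw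
      obtain ⟨q, hq, h1⟩ := (ih α hα).1.sub hX k w hw
      exact ⟨q, H.mono α γ hα.le hq, h1⟩
    have hex := exists_maxPos (Bf γ) ξ (WW co ξ Bf γ (fun β _ => UF co ξ Bf β))
      {X | ∃ α < γ, X ∈ UF co ξ Bf α} hsub hpos
    have heq : UF co ξ Bf γ = hex.choose := by
      rw [UF_eq, Mx, dif_pos hex]
    obtain ⟨h1, h2, h3, h4⟩ := hex.choose_spec
    rw [← heq] at h1 h2 h3 h4
    exact ⟨⟨H.compat γ, H.nonempty γ, fun V hV => monP_WW hV, h2, h3, h4⟩,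
      fun α hα X hX => h1 ⟨α, hα, hX⟩⟩

theorem HypAt.uf_mono {co : K → I} {ξ : I} {Bf : K → Set (Rep I)} (H : HypAt co ξ Bf) {α γ : K}
    (h : α ≤ γ) : UF co ξ Bf α ⊆ UF co ξ Bf γ := by
  rcases h.lt_or_eq with h | rfl
  · exact (H.uf γ).2 α h
  · exact le_rfl

end Pool.Agent.TH778.MX
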