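import Mathlib
import Pool.Agent.TH778.MX.Rows

/-!
# The matrix of rows: the main induction
-/

namespace Pool.Agent.TH778.MX

open Pool.Agent.Helper669.Iter

set_option linter.unusedSectionVars false

universe u

variable {I K : Type u} [LinearOrder I] [WellFoundedLT I] [LinearOrder K] [WellFoundedLT K]

/-- the Cohen coordinates form an initial segment, one for every element of `K` -/
structure Setup (kd : I → Kd K) (co : K → I) : Prop where
  kco : ∀ α, kd (co α) = .coh α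
  inj : ∀ η α, kd η = .coh α → η = co α
  lt : ∀ η, (∀ α, kd η ≠ .coh α) → ∀ α, co α < η

variable {kd : I → Kd K} {co : K → I}

theorem VV_mono_right {γ : K} {ξ ζ : I} (h : ξ ≤ ζ) : VV kd co γ ξ ⊆ VV kd co γ ζ :=
  Vs_mono (fun _ _ => le_rfl) le_rfl h

/-- the unboundedness below `ξ` -/
def UBat (kd : I → Kd K) (co : K → I) (ξ : I) : Prop :=
  ∀ α γ, α < γ → UBd (co α) (VV kd co α ξ) (VV kd co γ ξ)

/-- the induction statement at one coordinate -/
structure MI (kd : I → Kd K) (co : K → I) (ξ : I) : Prop where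
  mono : ∀ α γ, α ≤ γ → RW kd co ξ α ⊆ RW kd co ξ γ
  good : ∀ γ, ξ ∈ DD kd γ → GoodS (fun η => RW kd co η γ) (DD kd γ) ξ
  out : ∀ γ, ξ ∉ DD kd γ → RW kd co ξ γ = ∅
  ub : (∀ α, kd ξ ≠ .coh α) → ∀ ζ, ξ ⋖ ζ → UBat kd co ζ

theorem RW_coh {ξ : I} {α : K} (h : kd ξ = .coh α) (γ : K) : RW kd co ξ γ = ∅ := by
  rw [RW_eq, h]; rfl

theorem RW_hec {ξ : I} {β : K} (h : kd ξ = .hec β) (γ : K) :
    RW kd co ξ γ = {R | β ≤ γ ∧ R ∈ HR (VV kd co β ξ) ξ} := by
  rw [RW_eq, h]; rfl

theorem RW_mat {ξ : I} (h : kd ξ = .mat) (γ : K) :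
    RW kd co ξ γ = pm '' UF co ξ (fun γ => VV kd co γ ξ) γ := by
  rw [RW_eq, h]; rfl

theorem VV_mono_left {ξ : I} (h : ∀ η < ξ, MI kd co η) {α γ : K} (hαγ : α ≤ γ) :
    VV kd co α ξ ⊆ VV kd co γ ξ :=
  Vs_mono (fun η hη => (h η hη).mono α γ hαγ) (DD_mono kd hαγ) le_rfl

theorem goodS_of {ξ : I} (h : ∀ η < ξ, MI kd co η) (γ : K) :
    ∀ η < ξ, η ∈ DD kd γ → GoodS (fun η => RW kd co η γ) (DD kd γ) η :=
  fun η hη hη' => (h η hη).good γ hη'

theorem pr_empty_of_coh {ξ : I} (hall : ∀ η < ξ, ∃ α, kd η = .coh α) {γ : K} {r : Rep I}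
    (hr : r ∈ VV kd co γ ξ) (η : I) : r.pr η = ∅ := by
  by_cases hη : η < ξ
  · obtain ⟨α, hα⟩ := hall η hη
    rw [Finset.eq_empty_iff_forall_notMem]
    intro R hR
    have h1 : R ∈ RW kd co η γ := hr.1 η R hR
    rw [RW_coh hα] at h1
    exact h1
  · exact (hr.2.1 η (not_lt.1 hη)).2

/-- the base case: only Cohen coordinates -/
theorem UBat_base (hS : Setup kd co) {ξ : I} (hco : ∀ α, co α < ξ)
    (hall : ∀ η < ξ, ∃ α, kd η = .coh α) : UBat kd co ξ := by
  classical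
  intro α γ hαγ k E hE p hp
  set c := co α with hc
  set n := max k (p.st c).length with hn
  have hcα : c ∉ DD kd α := by
    show ¬ inRow α (kd c)
    rw [hc, hS.kco]
    exact lt_irrefl α
  have hcγ : c ∈ DD kd γ := by
    show inRow γ (kd c)
    rw [hc, hS.kco]
    exact hαγ
  let pα : Rep I :=
    { st := fun η => if η ∈ DD kd α then p.st η else []
      pr := fun _ => ∅
      fin := by
        refine p.fin.subset fun η hη => ?_
        by_cases h : η ∈ DD kd α
        · left; simpa [h] using hη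
        · simp [h] at hη }
  have hpα : pα ∈ VV kd co α ξ := by
    refine ⟨fun η R hR => absurd hR (Finset.notMem_empty _), fun η hη => ⟨?_, rfl⟩, fun η hη => ?_⟩
    · show (if η ∈ DD kd α then p.st η else []) = []
      rw [(hp.2.1 η hη).1]
      simp
    · by_contra h
      rcases hη with h1 | h1
      · exact h1 (if_neg h)
      · exact h1 rfl
  obtain ⟨j, r, hr, hle⟩ := hE.2.2 n (le_max_left _ _) pα hpα
  have hrV := hE.1 n j hr
  have hrpr := pr_empty_of_coh hall hrV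
  have hppr := pr_empty_of_coh hall hp
  let u : List ℕ := p.st c ++ (List.replicate (n - (p.st c).length) 0 ++ [j])
  have hul : u.length = n + 1 := by
    simp only [u, List.length_append, List.length_replicate, List.length_singleton]
    have : (p.st c).length ≤ n := le_max_right _ _
    omega
  have hug : u.getD n 0 = j := by
    have h1 : (p.st c).length ≤ n := le_max_right _ _
    simp only [u]
    rw [List.getD_append_right _ _ _ _ h1, List.getD_append_right _ _ _ _ (by simp)]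
    simp
  let p' : Rep I :=
    { st := fun η => if η ∈ DD kd α then r.st η else if η = c then u else p.st η
      pr := fun _ => ∅
      fin := by
        refine ((r.fin.union p.fin).union (Set.finite_singleton c)).subset fun η hη => ?_
        by_cases h : η ∈ DD kd α
        · left; left; left; simpa [h] using hη
        · by_cases h2 : η = c
          · right; exact h2
          · left; right; left; simpa [h, h2] using hη }
  have hp'c : p'.st c = u := by
    show (if c ∈ DD kd α then r.st c else if c = c then u else p.st c) = u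
    rw [if_neg hcα, if_pos rfl]
  have hp'1 : ∀ η ∈ DD kd α, p'.st η = r.st η := fun η hη => if_pos hη
  have hp'2 : ∀ η, η ∉ DD kd α → η ≠ c → p'.st η = p.st η := fun η h1 h2 => by
    show (if η ∈ DD kd α then r.st η else if η = c then u else p.st η) = p.st η
    rw [if_neg h1, if_neg h2]
  have hp'V : p' ∈ VV kd co γ ξ := by
    refine ⟨fun η R hR => absurd hR (Finset.notMem_empty _), fun η hη => ⟨?_, rfl⟩, fun η hη => ?_⟩
    · by_cases h : η ∈ DD kd α
      · rw [hp'1 η h]; exact (hrV.2.1 η hη).1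
      · have h2 : η ≠ c := by
          intro h2
          rw [h2] at hη
          exact absurd (hco α) (not_lt.2 hη)
        rw [hp'2 η h h2]; exact (hp.2.1 η hη).1
    · by_cases h : η ∈ DD kd α
      · exact DD_mono kd hαγ.le h
      · by_cases h2 : η = c
        · rw [h2]; exact hcγ
        · refine hp.2.2 (Or.inl ?_)
          rcases hη with h1 | h1
          · rw [hp'2 η h h2] at h1; exact h1
          · exact absurd rfl h1
  refine ⟨p', hp'V, fun η => ?_, n, le_max_left _ _, j, r, hr, fun η => ?_, ?_, ?_⟩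
  · rw [hppr η]
    refine ⟨?_, Finset.empty_subset _, fun R hR => absurd hR (Finset.notMem_empty R)⟩
    by_cases h : η ∈ DD kd α
    · rw [hp'1 η h]
      have := (hle η).1
      have h3 : pα.st η = p.st η := if_pos h
      rwa [h3] at this
    · by_cases h2 : η = c
      · rw [h2, hp'c]; exact List.prefix_append _ _
      · rw [hp'2 η h h2]
  · rw [hrpr η]
    refine ⟨?_, Finset.empty_subset _, fun R hR => absurd hR (Finset.notMem_empty R)⟩
    by_cases h : η ∈ DD kd α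
    · rw [hp'1 η h]
    · have : η ∉ supp r := fun h' => h (hrV.2.2 h')
      rw [(notMem_supp this).1]
      exact List.nil_prefix
  · rw [hp'c, hul]; exact Nat.lt_succ_self n
  · rw [hp'c, hug]

/-- the unboundedness below `ξ` from the one at smaller coordinates -/
theorem UBat_of (hS : Setup kd co) {ξ : I} (hco : ∀ α, co α < ξ) (h : ∀ η < ξ, MI kd co η) :
    UBat kd co ξ := by
  classical
  by_cases hall : ∀ η < ξ, ∃ α, kd η = .coh α
  · exact UBat_base hS hco hall
  push Not at hall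
  obtain ⟨ζ0, hζ0, hζ0'⟩ := hall
  intro α γ hαγ k E hE p hp
  obtain ⟨η, hηS, hη, hmax⟩ := exists_max_lt (p.fin.union (Set.finite_singleton ζ0)) ξ
    ⟨ζ0, Or.inr rfl, hζ0⟩
  have hζ0η : ζ0 ≤ η := hmax ζ0 (Or.inr rfl) hζ0
  have hηc : ∀ a, kd η ≠ .coh a := by
    intro a ha
    have h1 := hS.inj η a ha
    have h2 := hS.lt ζ0 hζ0' a
    rw [← h1] at h2
    exact absurd hζ0η (not_le.2 h2)
  obtain ⟨ζ, hζ⟩ := exists_covBy_of_wellFoundedLT (a := η) (fun hm => absurd (hm hη.le) (not_le.2 hη))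
  have hζξ : ζ ≤ ξ := by
    by_contra hcon
    exact hζ.2 hη (not_le.1 hcon)
  have hpζ : p ∈ VV kd co γ ζ := by
    refine ⟨hp.1, fun x hx => ?_, hp.2.2⟩
    have hxs : x ∉ supp p := by
      intro hxs
      have h1 : x < ξ := mem_supp_lt hp hxs
      exact absurd (hmax x (Or.inl hxs) h1) (not_le.2 (hζ.1.trans_le hx))
    exact notMem_supp hxs
  obtain ⟨p', hp', hle, n, hn, j, r', ⟨hr'V, r, hr, hr'r⟩, hp'r', h1, h2⟩ :=
    (h η hη).ub hηc ζ hζ α γ hαγ k
    (fun n j => {r' | r' ∈ VV kd co α ζ ∧ ∃ r ∈ E n j, r' ≤ res r ζ}) (by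
    refine ⟨fun _ _ _ h => h.1, ?_, ?_⟩
    · rintro n j j' hj r' ⟨hr', r, hr, hle⟩
      exact ⟨hr', r, hE.2.1 n j j' hj hr, hle⟩
    · intro n hn q hq
      obtain ⟨j, r, hr, hle⟩ := hE.2.2 n hn q (VV_mono_right hζξ hq)
      have hrV := hE.1 n j hr
      exact ⟨j, res r ζ, ⟨res_mem_Vs' hrV ζ, r, hr, le_rfl⟩, res_le hle hq.2.1⟩) p hpζ
  have hrV := hE.1 n j hr
  have hcζ : co α < ζ := (hS.lt ζ0 hζ0' α).trans_le (hζ0η.trans hζ.1.le)
  refine ⟨glue p' r ζ, glue_mem_Vs hp' (Vs_mono (fun η hη => (h η hη).mono α γ hαγ.le)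
    (DD_mono kd hαγ.le) le_rfl hrV) hζξ, (glue_le_left hp'.2.1).trans hle, n, hn, j, r, hr,
    glue_le (hp'r'.trans hr'r), ?_⟩
  rw [glue_st_lt hcζ]
  exact ⟨h1, h2⟩

theorem hypAt_of (hS : Setup kd co) {ξ : I} (hco : ∀ α, co α < ξ) (h : ∀ η < ξ, MI kd co η) :
    HypAt co ξ (fun γ => VV kd co γ ξ) where
  compat γ q hq q' hq' w hw hw' := compat_of_pointS (goodS_of h γ) hq hq' hw hw'
  nonempty γ q hq := by
    obtain ⟨w, hw⟩ := bs_nonemptyS (goodS_of h γ) hq
    exact ⟨w, hw ξ⟩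
  below γ r hr := hr.2.1
  mono α γ hαγ := VV_mono_left h hαγ
  ub := UBat_of hS hco h

/-- the conditions below the successor of a coordinate -/
theorem VV_succ_mat {ξ ζ : I} (hk : kd ξ = .mat) (hζ : ξ ⋖ ζ) (γ : K) :
    VV kd co γ ζ = VP (VV kd co γ ξ) (pm '' UF co ξ (fun γ => VV kd co γ ξ) γ) ξ := by
  ext r
  constructor
  · intro hr
    refine ⟨res_mem_Vs' hr ξ, fun R hR => ?_, fun η hη => ?_⟩
    · rw [← RW_mat hk]
      exact hr.1 ξ R hR
    · exact hr.2.1 η (not_lt.1 fun h => hζ.2 hη h)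
  · rintro ⟨h1, h2, h3⟩
    refine ⟨fun η R hR => ?_, fun η hη => h3 η (hζ.1.trans_le hη), fun η hη => ?_⟩
    · rcases lt_trichotomy η ξ with hlt | rfl | hgt
      · have := h1.1 η R
        rw [res_pr_lt hlt] at this
        exact this hR
      · show R ∈ RW kd co η γ
        rw [RW_mat hk]
        exact h2 R hR
      · rw [(h3 η hgt).2] at hR
        exact absurd hR (Finset.notMem_empty R)
    · rcases lt_trichotomy η ξ with hlt | rfl | hgt
      · refine h1.2.2 ?_
        rcases hη with h4 | h4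
        · left; rwa [res_st_lt hlt]
        · right; rwa [res_pr_lt hlt]
      · show inRow γ (kd η)
        rw [hk]; trivial
      · obtain ⟨h5, h6⟩ := h3 η hgt
        rcases hη with h4 | h4
        · exact absurd h5 h4
        · exact absurd h6 h4

theorem UBat_succ_mat (hS : Setup kd co) {ξ ζ : I} (h : ∀ η < ξ, MI kd co η)
    (hk : kd ξ = .mat) (hζ : ξ ⋖ ζ) : UBat kd co ζ := by
  have hnc : ∀ a, kd ξ ≠ .coh a := fun a ha => by rw [hk] at ha; exact absurd ha (by simp)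
  have H := hypAt_of hS (hS.lt ξ hnc) h
  intro α γ hαγ
  rw [VV_succ_mat hk hζ, VV_succ_mat hk hζ]
  exact UBd_mat hαγ (UF co ξ (fun γ => VV kd co γ ξ)) (hS.lt ξ hnc α) (H.uf γ).1.pos
    (H.uf_mono hαγ.le) (H.below γ)

theorem UBat_succ_hec (hS : Setup kd co) {ξ ζ : I} (h : ∀ η < ξ, MI kd co η) {β : K}
    (hk : kd ξ = .hec β) (hζ : ξ ⋖ ζ) : UBat kd co ζ := by
  classical
  have hnc : ∀ a, kd ξ ≠ .coh a := fun a ha => by rw [hk] at ha; exact absurd ha (by simp)
  have hub := UBat_of hS (hS.lt ξ hnc) h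
  have hRmono : ∀ {α γ : K}, α ≤ γ → ∀ η < ζ, RW kd co η α ⊆ RW kd co η γ := by
    intro α γ hαγ η hη
    rcases lt_trichotomy η ξ with hlt | rfl | hgt
    · exact (h η hlt).mono α γ hαγ
    · rw [RW_hec hk, RW_hec hk]
      exact fun R hR => ⟨hR.1.trans hαγ, hR.2⟩
    · exact absurd hη (hζ.2 hgt)
  intro α γ hαγ k E hE p hp
  have hpξ : ∀ η, ξ < η → p.st η = [] ∧ p.pr η = ∅ := fun η hη =>
    hp.2.1 η (not_lt.1 fun h' => hζ.2 hη h')
  have hcξ := hS.lt ξ hnc α
  by_cases hαβ : α < β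
  · -- the coordinate does not belong to the row `α`
    have hV : VV kd co α ζ ⊆ VV kd co α ξ := by
      intro r hr
      refine ⟨hr.1, fun η hη => ?_, hr.2.2⟩
      rcases hη.lt_or_eq with hlt | rfl
      · exact hr.2.1 η (not_lt.1 fun h' => hζ.2 hlt h')
      · have h1 : ξ ∉ supp r := by
          intro h1
          have h2 : inRow α (kd ξ) := hr.2.2 h1
          rw [hk] at h2
          exact absurd hαβ (not_lt.2 h2)
        exact notMem_supp h1
    obtain ⟨p', hp', hle, n, hn, j, r, hr, hp'r, h1, h2⟩ := hub α γ hαγ k E (by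
      refine ⟨fun n j => (hE.1 n j).trans hV, hE.2.1, fun n hn q hq => ?_⟩
      exact hE.2.2 n hn q (VV_mono_right hζ.1.le hq)) (res p ξ) (res_mem_Vs' hp ξ)
    refine ⟨glue p' p ξ, glue_mem_Vs hp' hp hζ.1.le, glue_le hle, n, hn, j, r, hr,
      (glue_le_left hp'.2.1).trans hp'r, ?_⟩
    rw [glue_st_lt hcξ]
    exact ⟨h1, h2⟩
  · have hβα : β ≤ α := not_lt.1 hαβ
    have hReq : RW kd co ξ γ ⊆ RW kd co ξ α := by
      rw [RW_hec hk, RW_hec hk]
      exact fun R hR => ⟨hβα, hR.2⟩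
    have hξα : ξ ∈ DD kd α := by
      show inRow α (kd ξ)
      rw [hk]; exact hβα
    have hmkV : ∀ q ∈ VV kd co α ξ, mk ξ q (p.st ξ) (p.pr ξ) ∈ VV kd co α ζ := by
      intro q hq
      refine ⟨fun η R hR => ?_, fun η hη => ⟨mk_st_gt (hζ.1.trans_le hη),
        mk_pr_gt (hζ.1.trans_le hη)⟩, fun η hη => ?_⟩
      · rcases lt_trichotomy η ξ with hlt | rfl | hgt
        · rw [mk_pr_lt hlt] at hR; exact hq.1 η R hR
        · rw [mk_pr_self] at hR; exact hReq (hp.1 η R hR)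
        · rw [mk_pr_gt hgt] at hR; exact absurd hR (Finset.notMem_empty R)
      · rcases lt_trichotomy η ξ with hlt | rfl | hgt
        · refine hq.2.2 ?_
          rcases hη with h4 | h4
          · left; rwa [mk_st_lt hlt] at h4
          · right; rwa [mk_pr_lt hlt] at h4
        · exact hξα
        · rcases hη with h4 | h4
          · exact absurd (mk_st_gt hgt) h4
          · exact absurd (mk_pr_gt hgt) h4
    obtain ⟨p', hp', hle, n, hn, j, q, ⟨hqV, r, hr, hq1, hq2, hq3, hq4⟩, hp'q, h1, h2⟩ :=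
      hub α γ hαγ k (fun n j => {q | q ∈ VV kd co α ξ ∧ ∃ r ∈ E n j, q ≤ res r ξ ∧
        p.st ξ <+: r.st ξ ∧ p.pr ξ ⊆ r.pr ξ ∧ ∀ R ∈ p.pr ξ, ∀ l, (p.st ξ).length ≤ l →
          l < (r.st ξ).length → bs q ξ ⊆ R l ((r.st ξ).getD l 0)}) (by
      refine ⟨fun _ _ _ h => h.1, ?_, ?_⟩
      · rintro n j j' hj q ⟨hq, r, hr, hh⟩
        exact ⟨hq, r, hE.2.1 n j j' hj hr, hh⟩
      · intro n hn q hq
        obtain ⟨j, r, hr, hle⟩ := hE.2.2 n hn _ (hmkV q hq)
        have hrV := hE.1 n j hr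
        have h3 := hle ξ
        rw [mk_st_self, mk_pr_self] at h3
        refine ⟨j, res r ξ, ⟨res_mem_Vs' hrV ξ, r, hr, le_rfl, h3.1, h3.2.1, ?_⟩, ?_⟩
        · intro R hR l hl hl'
          rw [bs_res le_rfl]
          exact h3.2.2 R hR l hl hl'
        · have := res_mono hle ξ
          rwa [res_mk hq.2.1] at this) (res p ξ) (res_mem_Vs' hp ξ)
    have hrV := hE.1 n j hr
    have hrV' : r ∈ VV kd co γ ζ := Vs_mono (hRmono hαγ.le) (DD_mono kd hαγ.le) le_rfl hrV
    refine ⟨glue p' r ξ, glue_mem_Vs hp' hrV' hζ.1.le, ?_, n, hn, j, r, hr,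
      glue_le (hp'q.trans hq1), ?_⟩
    · intro η
      rcases lt_trichotomy η ξ with hlt | rfl | hgt
      · have := hle η
        rw [res_st_lt hlt, res_pr_lt hlt] at this
        rw [glue_st_lt hlt, glue_pr_lt hlt, bs_glue hlt.le]
        exact this
      · rw [glue_st_ge le_rfl, glue_pr_ge le_rfl, bs_glue le_rfl]
        exact ⟨hq2, hq3, fun R hR l hl hl' => (bs_le hp'q η).trans (hq4 R hR l hl hl')⟩
      · obtain ⟨h3, h4⟩ := hpξ η hgt
        rw [h3, h4]
        exact ⟨List.nil_prefix, Finset.empty_subset _,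
          fun R hR => absurd hR (Finset.notMem_empty R)⟩
    · rw [glue_st_lt hcξ]
      exact ⟨h1, h2⟩

theorem amal_hec {ξ : I} {V : Set (Rep I)} {V' : Set (Rep I)}
    (hpre : ∀ D ⊆ V, (∀ p ∈ V, ∃ r ∈ D, r ≤ p) → ∀ p ∈ V', ∃ p' ∈ V', p' ≤ p ∧ ∃ r ∈ D, p' ≤ r)
    (F : Finset (Pr I)) (hF : ∀ R ∈ F, R ∈ HR V ξ) (n : ℕ) (q : Rep I) (hq : q ∈ V') :
    ∃ q' ∈ V', q' ≤ q ∧ ∃ m₀, ∀ m, m₀ ≤ m → ∀ R ∈ F, bs q' ξ ⊆ R n m := by
  classical
  induction F using Finset.induction_on with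
  | empty => exact ⟨q, hq, le_rfl, 0, by simp⟩
  | insert a F _ ih =>
    obtain ⟨q1, hq1, hle1, m1, hm1⟩ := ih fun R hR => hF R (Finset.mem_insert_of_mem hR)
    have ha := hF a (Finset.mem_insert_self a F)
    obtain ⟨q2, hq2, hle2, r, ⟨_, m2, hm2⟩, hq2r⟩ := hpre
      {q' | q' ∈ V ∧ ∃ m₀, ∀ m, m₀ ≤ m → bs q' ξ ⊆ a n m} (fun _ h => h.1) (by
        intro p hp
        obtain ⟨q', hq', hle, h⟩ := ha.2 n p hp
        exact ⟨q', ⟨hq', h⟩, hle⟩) q1 hq1
    refine ⟨q2, hq2, hle2.trans hle1, max m1 m2, fun m hm R hR => ?_⟩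
    rcases Finset.mem_insert.1 hR with rfl | hR
    · exact (bs_le hq2r ξ).trans (hm2 m ((le_max_right _ _).trans hm))
    · exact (bs_le hle2 ξ).trans (hm1 m ((le_max_left _ _).trans hm) R hR)

/-- amalgamation for a column of matrix type -/
theorem amal_mat {ξ : I} {B : Set (Rep I)} {U : Set (ℕ → Set (Om I))} {W : Set (Pd I)}
    (hM : Mxl B ξ W U) (htriv : ∀ N, triv I N ∈ W)
    (F : Finset (Pr I)) (hF : ∀ R ∈ F, R ∈ pm '' U) (N : ℕ) (q : Rep I) (hq : q ∈ B) :
    ∃ q' ∈ B, q' ≤ q ∧ ∃ k, N ≤ k ∧ ∀ R ∈ F, ∀ n i, bs q' ξ ⊆ R n (Nat.pair k i) := by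
  classical
  have hch : ∀ R : Pr I, ∃ X, R ∈ F → X ∈ U ∧ pm X = R := by
    intro R
    by_cases hR : R ∈ F
    · obtain ⟨X, hX, hXR⟩ := hF R hR
      exact ⟨X, fun _ => ⟨hX, hXR⟩⟩
    · exact ⟨fun _ => ∅, fun h => absurd h hR⟩
  choose X hX using hch
  obtain ⟨q', hq', hle, m, hm⟩ := hM.pos (F.image X) (by
    intro Y hY
    obtain ⟨R, hR, rfl⟩ := Finset.mem_image.1 hY
    exact (hX R hR).1) 1 (fun _ => triv I N) (fun _ => htriv N) q hq
  obtain ⟨_, k, ⟨_, _, hk⟩, hkN⟩ := hm (fun _ => 0)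
  refine ⟨q', hq', hle, k, hkN, fun R hR n i => ?_⟩
  have h1 := hk (X R) (Finset.mem_image_of_mem X hR)
  rw [← (hX R hR).2]
  simpa [pm] using h1

theorem MI_all (hS : Setup kd co) (ξ : I) : MI kd co ξ := by
  induction ξ using WellFoundedLT.induction with
  | ind ξ h =>
    cases hk : kd ξ with
    | coh a =>
      refine ⟨fun α γ _ => ?_, fun γ _ => ⟨fun R hR => ?_, fun F hF n q hq => ?_⟩,
        fun γ _ => RW_coh hk γ, fun hnc => absurd hk (hnc a)⟩
      · rw [RW_coh hk, RW_coh hk]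
      · rw [RW_coh hk] at hR; exact absurd hR (Set.notMem_empty R)
      · refine ⟨q, hq, le_rfl, 0, fun R hR => ?_⟩
        have := hF R hR
        rw [RW_coh hk] at this
        exact absurd this (Set.notMem_empty R)
    | mat =>
      have hnc : ∀ a, kd ξ ≠ .coh a := fun a ha => by rw [hk] at ha; exact absurd ha (by simp)
      have H := hypAt_of hS (hS.lt ξ hnc) h
      refine ⟨fun α γ hαγ => ?_, fun γ _ => ⟨fun R hR n m w hw => ?_, fun F hF n q hq => ?_⟩,
        fun γ hγ => absurd (show inRow γ (kd ξ) by rw [hk]; trivial) hγ,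
        fun _ ζ hζ => UBat_succ_mat hS h hk hζ⟩
      · rw [RW_mat hk, RW_mat hk]
        exact Set.image_mono (H.uf_mono hαγ)
      · rw [RW_mat hk] at hR
        obtain ⟨X, hX, rfl⟩ := hR
        exact (H.uf γ).1.sub hX _ w hw
      · obtain ⟨q', hq', hle, k, _, h1⟩ := amal_mat (H.uf γ).1 (fun N => Or.inl ⟨N, rfl⟩) F (by
          intro R hR
          rw [← RW_mat hk]
          exact hF R hR) 0 q hq
        exact ⟨q', hq', hle, Nat.pair k 0, fun R hR => h1 R hR n 0⟩
    | hec β =>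
      have hnc : ∀ a, kd ξ ≠ .coh a := fun a ha => by rw [hk] at ha; exact absurd ha (by simp)
      have hub := UBat_of hS (hS.lt ξ hnc) h
      refine ⟨fun α γ hαγ => ?_, fun γ hγ => ⟨fun R hR n m w hw => ?_, fun F hF n q hq => ?_⟩,
        fun γ hγ => ?_, fun _ ζ hζ => UBat_succ_hec hS h hk hζ⟩
      · rw [RW_hec hk, RW_hec hk]
        exact fun R hR => ⟨hR.1.trans hαγ, hR.2⟩
      · rw [RW_hec hk] at hR
        obtain ⟨q, hq, h1⟩ := hR.2.1 n m w hw
        exact ⟨q, VV_mono_left h hR.1 hq, h1⟩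
      · have hβγ : β ≤ γ := by
          have h1 : inRow γ (kd ξ) := hγ
          rw [hk] at h1; exact h1
        have hpre : ∀ D ⊆ VV kd co β ξ, (∀ p ∈ VV kd co β ξ, ∃ r ∈ D, r ≤ p) →
            ∀ p ∈ VV kd co γ ξ, ∃ p' ∈ VV kd co γ ξ, p' ≤ p ∧ ∃ r ∈ D, p' ≤ r := by
          intro D hD hd p hp
          rcases hβγ.lt_or_eq with hlt | rfl
          · exact (hub β γ hlt).predense D hD hd p hp
          · obtain ⟨r, hr, hle⟩ := hd p hp
            exact ⟨r, hD hr, hle, r, hr, le_rfl⟩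
        obtain ⟨q', hq', hle, m, hm⟩ := amal_hec hpre F (fun R hR => by
          have := hF R hR
          rw [RW_hec hk] at this
          exact this.2) n q hq
        exact ⟨q', hq', hle, m, fun R hR => hm m le_rfl R hR⟩
      · rw [RW_hec hk]
        ext R
        simp only [Set.mem_ofPred_eq, Set.mem_empty_iff_false, iff_false, not_and]
        intro h1
        exact absurd (show inRow γ (kd ξ) by rw [hk]; exact h1) hγ

end Pool.Agent.TH778.MX
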