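import Mathlib
import Pool.Agent.TH778.MX.Ind
import Pool.Agent.Helper669.GBase
import Pool.Agent.Helper669.Forcing
import Pool.Agent.Helper669.Forcing2

/-!
# The poset: the union of the rows
-/

namespace Pool.Agent.TH778.MX

open Cardinal Pool.Agent.Helper669.Iter Pool.Agent.Helper669.Forcing Pool.Agent.Helper669.GBase
  Pool.Agent.Helper669.Forcing2

set_option linter.unusedSectionVars false

universe u

variable {J K : Type u} [LinearOrder J] [WellFoundedLT J] [LinearOrder K] [WellFoundedLT K]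

/-- all promises -/
def RS (kd : WithTop J → Kd K) (co : K → WithTop J) (η : WithTop J) : Set (Pr (WithTop J)) :=
  {R | ∃ γ, R ∈ RW kd co η γ}

variable {kd : WithTop J → Kd K} {co : K → WithTop J}

theorem VV_sub_Vd {γ : K} {ξ : WithTop J} : VV kd co γ ξ ⊆ Vd (RS kd co) ξ :=
  fun _ h => ⟨fun η R hR => ⟨γ, h.1 η R hR⟩, h.2.1⟩

theorem exists_inRow [NoMaxOrder K] [Nonempty K] (k : Kd K) : ∃ γ : K, inRow γ k := by
  cases k with
  | coh α => exact exists_gt α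
  | mat => exact ⟨Classical.arbitrary K, trivial⟩
  | hec β => exact ⟨β, le_rfl⟩

theorem inRow_mono {k : Kd K} {α γ : K} (h : α ≤ γ) (h' : inRow α k) : inRow γ k := by
  cases k with
  | coh a => exact lt_of_lt_of_le h' h
  | mat => trivial
  | hec b => exact le_trans h' h

theorem exists_row [NoMaxOrder K] [Nonempty K] (hS : Setup kd co) {ξ : WithTop J}
    {q : Rep (WithTop J)} (hq : q ∈ Vd (RS kd co) ξ) : ∃ γ0, ∀ γ, γ0 ≤ γ → q ∈ VV kd co γ ξ := by
  classical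
  have h1 : ∀ η, ∃ γ, inRow γ (kd η) := fun η => exists_inRow _
  choose a ha using h1
  have h2 : ∀ z : WithTop J × Pr (WithTop J), ∃ γ, z.2 ∈ q.pr z.1 → z.2 ∈ RW kd co z.1 γ := by
    intro z
    by_cases hz : z.2 ∈ q.pr z.1
    · obtain ⟨γ, hγ⟩ := hq.1 z.1 z.2 hz
      exact ⟨γ, fun _ => hγ⟩
    · exact ⟨Classical.arbitrary K, fun h => absurd h hz⟩
  choose b hb using h2
  have hfin : {z : WithTop J × Pr (WithTop J) | z.2 ∈ q.pr z.1}.Finite := by
    have : {z : WithTop J × Pr (WithTop J) | z.2 ∈ q.pr z.1} ⊆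
        ⋃ η ∈ supp q, (fun R => (η, R)) '' (q.pr η : Set (Pr (WithTop J))) := by
      rintro ⟨η, R⟩ hz
      have hz' : R ∈ q.pr η := hz
      simp only [Set.mem_iUnion]
      refine ⟨η, ?_, R, hz', rfl⟩
      right
      intro h
      rw [h] at hz'
      exact absurd hz' (Finset.notMem_empty R)
    exact (q.fin.biUnion fun η _ => (Finset.finite_toSet _).image _).subset this
  obtain ⟨γ1, hγ1⟩ := (q.fin.image a).bddAbove
  obtain ⟨γ2, hγ2⟩ := (hfin.image b).bddAbove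
  refine ⟨max γ1 γ2, fun γ hγ => ⟨fun η R hR => ?_, hq.2, fun η hη => ?_⟩⟩
  · exact (MI_all hS η).mono _ _ (((hγ2 (Set.mem_image_of_mem b (show (η, R) ∈
      {z : WithTop J × Pr (WithTop J) | z.2 ∈ q.pr z.1} from hR))).trans
      (le_max_right _ _)).trans hγ) (hb (η, R) hR)
  · exact inRow_mono (((hγ1 (Set.mem_image_of_mem a hη)).trans (le_max_left _ _)).trans hγ) (ha η)

theorem good_RS [NoMaxOrder K] [Nonempty K] (hS : Setup kd co) (ξ : WithTop J) :
    Good (RS kd co) ξ where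
  opn := by
    rintro R ⟨γ, hR⟩ n m w hw
    have hγ : ξ ∈ DD kd γ := by
      by_contra h
      rw [(MI_all hS ξ).out γ h] at hR
      exact absurd hR (Set.notMem_empty R)
    obtain ⟨q, hq, h1⟩ := ((MI_all hS ξ).good γ hγ).opn R hR n m w hw
    exact ⟨q, VV_sub_Vd hq, h1⟩
  amal := by
    classical
    intro F hF n q hq
    rcases F.eq_empty_or_nonempty with rfl | hne
    · exact ⟨q, hq, le_rfl, 0, by simp⟩
    obtain ⟨γ0, hγ0⟩ := exists_row hS hq
    have h1 : ∀ R : F, ∃ γ, R.1 ∈ RW kd co ξ γ := fun R => hF R.1 R.2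
    choose a ha using h1
    obtain ⟨γ1, hγ1⟩ := Finite.exists_le a
    obtain ⟨R0, hR0⟩ := hne
    have hFγ : ∀ R ∈ F, R ∈ RW kd co ξ (max γ0 γ1) := fun R hR =>
      (MI_all hS ξ).mono _ _ ((hγ1 ⟨R, hR⟩).trans (le_max_right _ _)) (ha ⟨R, hR⟩)
    have hγ : ξ ∈ DD kd (max γ0 γ1) := by
      by_contra h
      have := hFγ R0 hR0
      rw [(MI_all hS ξ).out _ h] at this
      exact absurd this (Set.notMem_empty R0)
    obtain ⟨q', hq', hle, m, hm⟩ := ((MI_all hS ξ).good _ hγ).amal F hFγ n q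
      (hγ0 _ (le_max_left _ _))
    exact ⟨q', VV_sub_Vd hq', hle, m, hm⟩

/-- the poset -/
abbrev PX (kd : WithTop J → Kd K) (co : K → WithTop J) : Type u := Cd (RS kd co)

/-- a member of a row as a condition -/
def toP {γ : K} {ξ : WithTop J} (r : Rep (WithTop J)) (h : r ∈ VV kd co γ ξ) : PX kd co :=
  ⟨r, (VV_sub_Vd h).1, (VV_sub_Vd h).2.mono le_top⟩

theorem goodS_all (hS : Setup kd co) (γ : K) (ξ : WithTop J) :
    ∀ η < ξ, η ∈ DD kd γ → GoodS (fun η => RW kd co η γ) (DD kd γ) η :=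
  goodS_of (fun η _ => MI_all hS η) γ

/-- two members of a row below `ξ` compatible in the poset are compatible in the row -/
theorem row_compat [NoMaxOrder K] [Nonempty K] (hS : Setup kd co) {γ : K} {ξ : WithTop J}
    {r r' : PX kd co} (hr : r.1 ∈ VV kd co γ ξ)
    (hr' : r'.1 ∈ VV kd co γ ξ) (h : Compat r r') :
    ∃ s : PX kd co, s.1 ∈ VV kd co γ ξ ∧ s ≤ r ∧ s ≤ r' := by
  obtain ⟨s, h1, h2⟩ := h
  obtain ⟨w, hw⟩ := bs_nonempty (good_RS hS) s.2
  obtain ⟨q, hq, h3, h4⟩ := compat_of_pointS (goodS_all hS γ ξ) hr hr'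
    (bs_mono h1 ξ (hw ξ)) (bs_mono h2 ξ (hw ξ))
  exact ⟨toP q hq, hq, h3, h4⟩

/-- a condition and a condition below `ξ` with a common point are compatible -/
theorem compat_point [NoMaxOrder K] [Nonempty K] (hS : Setup kd co) {ξ : WithTop J}
    {p a : PX kd co} (ha : Below a.1 ξ) {w : Om (WithTop J)} (hw : w ∈ bs p.1 ξ)
    (hw' : w ∈ bs a.1 ξ) : ∃ s : PX kd co, s ≤ a ∧ s ≤ p := by
  have h2 : bs (resP p ξ).1 ξ = bs p.1 ξ := bs_res le_rfl
  obtain ⟨q, hq, hq1, hq2⟩ := compat_of_point (good_RS hS) (resP_mem p ξ)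
    ⟨a.2.1, ha⟩ (by rw [h2]; exact hw) hw'
  obtain ⟨s, hs1, hs2, _⟩ := compat_res (p := p) ha ⟨⟨q, hq.1, hq.2.mono le_top⟩, hq2, hq1⟩
  exact ⟨s, hs1, hs2⟩

/-! ### Names decided in a row -/

/-- the name `N` is decided by conditions of row `γ` below `ξ` -/
def Dec (kd : WithTop J → Kd K) (co : K → WithTop J) (γ : K) (ξ : WithTop J)
    (N : Set (PX kd co)) : Prop :=
  ∃ A : Set (PX kd co), A.Countable ∧ (∀ a ∈ A, a.1 ∈ VV kd co γ ξ) ∧
    (∀ a ∈ A, a ∈ meets N ∨ a ∈ fnot (meets N)) ∧ ∀ p, ∃ a ∈ A, Compat a p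

theorem Dec.mono (hS : Setup kd co) {γ γ' : K} {ξ ξ' : WithTop J} {N : Set (PX kd co)}
    (h : Dec kd co γ ξ N) (h1 : γ ≤ γ') (h2 : ξ ≤ ξ') : Dec kd co γ' ξ' N := by
  obtain ⟨A, hA0, hA1, hA2, hA3⟩ := h
  refine ⟨A, hA0, fun a ha => ?_, hA2, hA3⟩
  exact VV_mono_right h2 (VV_mono_left (fun η _ => MI_all hS η) h1 (hA1 a ha))

/-- below a condition of the row, a decided name which is met by some extension is met by an
extension in the row -/
theorem Dec.hit [NoMaxOrder K] [Nonempty K] (hS : Setup kd co) {γ : K} {ξ : WithTop J}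
    {N : Set (PX kd co)} (h : Dec kd co γ ξ N) {r : PX kd co} (hr : r.1 ∈ VV kd co γ ξ)
    (hm : ¬ r ∈ fnot (meets N)) : ∃ r' : PX kd co, r'.1 ∈ VV kd co γ ξ ∧ r' ≤ r ∧ r' ∈ meets N := by
  obtain ⟨A, _, hA1, hA2, hA3⟩ := h
  simp only [fnot, Set.mem_ofPred_eq, not_forall, not_not] at hm
  obtain ⟨s, hs, hsN⟩ := hm
  obtain ⟨a, ha, t, hta, hts⟩ := hA3 s
  have haN : a ∈ meets N := by
    rcases hA2 a ha with h1 | h1
    · exact h1
    · exact absurd (down_meets _ _ hsN t hts) (h1 t hta)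
  obtain ⟨r', h1, h2, h3⟩ := row_compat hS (hA1 a ha) hr ⟨t, hta, hts.trans hs⟩
  exact ⟨r', h1, h3, down_meets _ _ haN r' h2⟩

theorem exists_decA [NoMaxOrder K] [Nonempty K] (hS : Setup kd co)
    (hK : ∀ S : Set K, S.Countable → ∃ γ, ∀ s ∈ S, s ≤ γ) (N : Set (PX kd co)) :
    ∃ γ, Dec kd co γ ⊤ N := by
  obtain ⟨A, h1, h2, h3, _⟩ := exists_antichain
    {q : PX kd co | q ∈ meets N ∨ q ∈ fnot (meets N)} (fun q => by
      by_cases hq : q ∈ fnot (meets N)
      · exact ⟨q, le_rfl, Or.inr hq⟩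
      · simp only [fnot, Set.mem_ofPred_eq, not_forall, not_not] at hq
        obtain ⟨q', hq', h⟩ := hq
        exact ⟨q', hq', Or.inl h⟩)
  choose g hg using fun a : PX kd co => exists_row hS a.2
  obtain ⟨γ, hγ⟩ := hK (g '' A) (h2.image g)
  exact ⟨γ, A, h2, fun a ha => hg a γ (hγ _ (Set.mem_image_of_mem g ha)), h1, h3⟩

/-- a name of a real is decided in some row -/
theorem exists_rowDec [NoMaxOrder K] [Nonempty K] (hS : Setup kd co)
    (hK : ∀ S : Set K, S.Countable → ∃ γ, ∀ s ∈ S, s ≤ γ) {T : Type} [Countable T]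
    (x : T → Set (PX kd co)) : ∃ γ, ∀ t, Dec kd co γ ⊤ (x t) := by
  choose g hg using fun t => exists_decA hS hK (x t)
  obtain ⟨γ, hγ⟩ := hK (Set.range g) (Set.countable_range _)
  exact ⟨γ, fun t => (hg t).mono hS (hγ _ (Set.mem_range_self t)) le_rfl⟩

theorem mem_VV_of_below {γ : K} {ξ ζ : WithTop J} {r : Rep (WithTop J)}
    (h : r ∈ VV kd co γ ζ) (h' : Below r ξ) : r ∈ VV kd co γ ξ := ⟨h.1, h', h.2.2⟩

/-- names of reals, indexed by a small set, are decided below one coordinate -/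
theorem exists_col {κ : Cardinal.{u}} (hκ : ℵ₀ ≤ κ)
    (hcof : ∀ S : Set J, #S ≤ κ → ∃ b, ∀ s ∈ S, s < b) {Y : Type u} (hY : #Y ≤ κ)
    {T : Type} [Countable T] (E : Y → T → Set (PX kd co)) (g : Y → K)
    (hg : ∀ y t, Dec kd co (g y) ⊤ (E y t)) :
    ∃ b : J, ∀ y t, Dec kd co (g y) (b : WithTop J) (E y t) := by
  choose A hA1 hA2 hA3 hA4 using hg
  obtain ⟨b, hb⟩ := exists_below hκ hcof (A := ⋃ y, ⋃ t, A y t) (by
    refine (mk_iUnion_le_sum_mk).trans ?_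
    refine (Cardinal.sum_le_sum _ (fun _ => ℵ₀) fun y => ?_).trans ?_
    · exact Cardinal.le_aleph0_iff_set_countable.2 (Set.countable_iUnion fun k => hA1 y k)
    · rw [Cardinal.sum_const']
      exact (mul_le_mul' hY hκ).trans (mul_eq_self hκ).le)
  refine ⟨b, fun y t => ⟨A y t, hA1 y t, fun a ha => ?_, hA3 y t, hA4 y t⟩⟩
  exact mem_VV_of_below (hA2 y t a ha) (hb a (Set.mem_iUnion.2 ⟨y, Set.mem_iUnion.2 ⟨t, ha⟩⟩))

end Pool.Agent.TH778.MX
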