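import Mathlib
import Pool.Agent.TH778.MX.Tot
import Pool.Agent.TH778.MX.Stmt
import Pool.Agent.Helper669.MMain

/-!
# The extension: unbounded, dominating and bounded families
-/

namespace Pool.Agent.TH778.MX

open Cardinal Pool.Agent.Helper669.Iter Pool.Agent.Helper669.Forcing Pool.Agent.Helper669.GBase
  Pool.Agent.Helper669.Forcing2 Pool.Agent.Helper669.MMain

set_option linter.unusedSectionVars false

universe u

variable {J K : Type u} [LinearOrder J] [WellFoundedLT J] [LinearOrder K] [WellFoundedLT K]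
  {kd : WithTop J → Kd K} {co : K → WithTop J}

/-- the name of the generic function at `η` -/
def Sn (kd : WithTop J → Kd K) (co : K → WithTop J) (η : WithTop J) (n j : ℕ) :
    Set (PX kd co) :=
  {p | n < (p.1.st η).length ∧ (p.1.st η).getD n 0 = j}

theorem down_Sn (η : WithTop J) (n j : ℕ) : Down (Sn kd co η n j) := by
  rintro p ⟨h1, h2⟩ q hq
  obtain ⟨h3, h4⟩ := st_mono hq η h1
  exact ⟨h3, by rw [h4]; exact h2⟩

theorem Sn_unique {η : WithTop J} {n j j' : ℕ} {q : PX kd co} (h : q ∈ meets (Sn kd co η n j))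
    (h' : q ∈ meets (Sn kd co η n j')) : j = j' := by
  obtain ⟨r, hr, h1⟩ := exists_of_meets (down_Sn η n j) h
  obtain ⟨r', hr', h2⟩ := exists_of_meets (down_Sn η n j') (down_meets _ _ h' r hr)
  have h3 := down_Sn η n j r h1 r' hr'
  rw [← h3.2, ← h2.2]

variable [NoMaxOrder K] [Nonempty K]

theorem exists_longP (hS : Setup kd co) {η : WithTop J} (hη : η < ⊤) (q : PX kd co) (N : ℕ) :
    ∃ r : PX kd co, r ≤ q ∧ N ≤ (r.1.st η).length := by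
  obtain ⟨r', h1, h2, h3⟩ := exists_long (good_RS hS) q.2 hη N
  exact ⟨⟨r', h1⟩, h2, h3⟩

theorem isFun_Sn (hS : Setup kd co) {η : WithTop J} (hη : η < ⊤) (p : PX kd co) :
    p ∈ IsFun (Sn kd co η) := by
  constructor
  · intro n
    refine mem_fex.2 fun q _ => ?_
    obtain ⟨r, hr, h⟩ := exists_longP hS hη q (n + 1)
    exact ⟨r, hr, (r.1.st η).getD n 0, meets_of_mem ⟨h, rfl⟩⟩
  · intro n j j'
    exact mem_fimp.2 fun q _ h => ⟨q, le_rfl, Sn_unique h.1 h.2⟩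

/-- the conditions of a row forcing a value less than `m`, or no value at all -/
def Bd (γ : K) (ξ : WithTop J) (g : ℕ → ℕ → Set (PX kd co)) (n m : ℕ) : Set (Rep (WithTop J)) :=
  {r | ∃ h : r ∈ VV kd co γ ξ, (∃ i < m, toP r h ∈ meets (g n i)) ∨
    ∀ i, toP r h ∈ fnot (meets (g n i))}

theorem Bd_sub {γ : K} {ξ : WithTop J} {g : ℕ → ℕ → Set (PX kd co)} {n m : ℕ} :
    Bd γ ξ g n m ⊆ VV kd co γ ξ := fun _ h => h.choose

theorem Bd_mono {γ : K} {ξ : WithTop J} {g : ℕ → ℕ → Set (PX kd co)} {n m m' : ℕ} (h : m ≤ m') :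
    Bd γ ξ g n m ⊆ Bd γ ξ g n m' := by
  rintro r ⟨hr, h1⟩
  refine ⟨hr, ?_⟩
  rcases h1 with ⟨i, hi, h2⟩ | h2
  · exact Or.inl ⟨i, lt_of_lt_of_le hi h, h2⟩
  · exact Or.inr h2

theorem Bd_dense (hS : Setup kd co) {γ : K} {ξ : WithTop J} {g : ℕ → ℕ → Set (PX kd co)}
    (hg : ∀ n i, Dec kd co γ ξ (g n i)) (n : ℕ) (q : Rep (WithTop J)) (hq : q ∈ VV kd co γ ξ) :
    ∃ m, ∃ r ∈ Bd γ ξ g n m, r ≤ q := by
  by_cases hall : ∀ i, toP q hq ∈ fnot (meets (g n i))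
  · exact ⟨0, q, ⟨hq, Or.inr hall⟩, le_rfl⟩
  · push Not at hall
    obtain ⟨i, hi⟩ := hall
    obtain ⟨r', h1, h2, h3⟩ := (hg n i).hit hS (r := toP q hq) hq hi
    exact ⟨i + 1, r'.1, ⟨h1, Or.inl ⟨i, Nat.lt_succ_self i, h3⟩⟩, h2⟩

theorem co_lt_top (hS : Setup kd co) (htop : ∀ α, kd ⊤ ≠ .coh α) (α : K) : co α < ⊤ :=
  hS.lt ⊤ htop α

/-- the Cohen reals form an unbounded family -/
theorem unboundedFam (hS : Setup kd co) (htop : ∀ α, kd ⊤ ≠ .coh α)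
    (hK : ∀ S : Set K, S.Countable → ∃ γ, ∀ s ∈ S, s ≤ γ) (p : PX kd co) :
    p ∈ UnboundedFam (PX kd co) K := by
  refine mem_fex_of_mem (fun α => Sn kd co (co α))
    (down_fand (down_fall fun _ => down_IsFun _) (down_fall fun _ => down_fimp _ _))
    ⟨fun α => isFun_Sn hS (co_lt_top hS htop α) p, fun x => ?_⟩
  refine mem_fimp.2 fun q _ hq => ⟨q, le_rfl, ?_⟩
  obtain ⟨α, hα⟩ := exists_rowDec hS hK (T := ℕ × ℕ) (fun t => x t.1 t.2)
  refine mem_fex_of_mem α (down_fnot _) ?_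
  intro q1 hq1 hev
  obtain ⟨r, hr, m, hm⟩ := mem_fex.1 hev q1 le_rfl
  obtain ⟨γ0, hγ0⟩ := exists_row hS r.2
  obtain ⟨γ1, hγ1⟩ := exists_gt (max γ0 α)
  have hrγ := hγ0 γ1 ((le_max_left _ _).trans hγ1.le)
  have hub := UBat_of hS (hS.lt ⊤ htop) (fun η _ => MI_all hS η) α γ1
    ((le_max_right _ _).trans_lt hγ1)
  obtain ⟨p', hp', hle, n, hn, j, r0, ⟨hr0, hr0'⟩, hp'r0, h1, h2⟩ := hub m
    (fun n j => Bd α ⊤ x n j) ⟨fun _ _ => Bd_sub, fun _ _ _ h => Bd_mono h,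
      fun n _ q hq => Bd_dense hS (fun n i => hα (n, i)) n q hq⟩ r.1 hrγ
  have hp'P : toP p' hp' ≤ r := hle
  have hp'r0P : toP p' hp' ≤ toP r0 hr0 := hp'r0
  rcases hr0' with ⟨i, hij, hi⟩ | hno
  · have h3 : toP p' hp' ∈ meets (Sn kd co (co α) n ((p'.st (co α)).getD n 0)) :=
      meets_of_mem ⟨h1, rfl⟩
    obtain ⟨_, _, h4⟩ := mem_fimp.1 (hm n ((p'.st (co α)).getD n 0) i) (toP p' hp') hp'P
      ⟨hn, h3, down_meets _ _ hi _ hp'r0P⟩
    have h5 : (p'.st (co α)).getD n 0 ≤ i := h4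
    omega
  · obtain ⟨s, hs, i, hi⟩ := mem_fex.1 (hq.1 n) (toP p' hp') (hp'P.trans (hr.trans hq1))
    exact hno i s (hs.trans hp'r0P) hi

/-! ### Dominating reals over a row -/

/-- the promise to be above the function named by `g` -/
def Hp (γ : K) (ξ : WithTop J) (g : ℕ → ℕ → Set (PX kd co)) : Pr (WithTop J) := fun n m =>
  ⋃ r ∈ Bd γ ξ g n (m + 1), bs r ξ

theorem Hp_mem (hS : Setup kd co) {β : K} {ξ : WithTop J} (hk : kd ξ = .hec β)
    {g : ℕ → ℕ → Set (PX kd co)} (hg : ∀ n i, Dec kd co β ξ (g n i)) :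
    Hp β ξ g ∈ RS kd co ξ := by
  refine ⟨β, ?_⟩
  rw [RW_hec hk]
  refine ⟨le_rfl, fun n m w hw => ?_, fun n q hq => ?_⟩
  · simp only [Hp, Set.mem_iUnion] at hw
    obtain ⟨r, hr, hwr⟩ := hw
    exact ⟨r, Bd_sub hr, hwr, fun v hv => Set.mem_biUnion hr hv⟩
  · obtain ⟨m, r, hr, hle⟩ := Bd_dense hS hg n q hq
    refine ⟨r, Bd_sub hr, hle, m, fun m' hm' v hv => ?_⟩
    exact Set.mem_biUnion (Bd_mono (hm'.trans (Nat.le_succ m')) hr) hv

theorem evLe_hec (hS : Setup kd co) {β : K} {ξ : WithTop J} (hξ : ξ < ⊤) (hk : kd ξ = .hec β)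
    {g : ℕ → ℕ → Set (PX kd co)} (hg : ∀ n i, Dec kd co β ξ (g n i)) {q : PX kd co}
    (hq : q ∈ IsFun g) : q ∈ EvLe g (Sn kd co ξ) := by
  classical
  refine mem_fex.2 fun q1 hq1 => ?_
  let p' : PX kd co := ⟨addG q1.1 ξ {Hp β ξ g}, addG_mem q1.2 hξ fun R hR => by
    rw [Finset.mem_singleton] at hR
    rw [hR]
    exact Hp_mem hS hk hg⟩
  have hp' : p' ≤ q1 := addG_le q1.1 ξ _
  have hst : p'.1.st ξ = q1.1.st ξ := rfl
  refine ⟨p', hp', (q1.1.st ξ).length, fun n a b => mem_fimp.2 ?_⟩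
  rintro r hr ⟨hn, ha, hb⟩
  obtain ⟨r1, hr1, h1, h2⟩ := exists_of_meets (down_Sn ξ n b) hb
  have h3 := ((hr1.trans hr) ξ).2.2 (Hp β ξ g) (addG_pr (Finset.mem_singleton_self _)) n
    (by rw [hst]; exact hn) h1
  rw [h2] at h3
  obtain ⟨w, hw⟩ := bs_nonempty (good_RS hS) r1.2
  have h4 := h3 (hw ξ)
  simp only [Hp, Set.mem_iUnion] at h4
  obtain ⟨r0, ⟨hr0, hr0'⟩, hwr0⟩ := h4
  obtain ⟨s, hs1, hs2⟩ := compat_point hS (p := r1) (a := toP r0 hr0) hr0.2.1 (hw ξ) hwr0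
  have hsr : s ≤ r := hs2.trans hr1
  have hsq : s ≤ q := hsr.trans (hr.trans (hp'.trans hq1))
  refine ⟨s, hsr, ?_⟩
  have has := down_meets _ _ ha s hsr
  rcases hr0' with ⟨i, hij, hi⟩ | hno
  · have h5 := IsFun.unique (down_IsFun g q hq s hsq) (down_meets _ _ hi s hs1) has
    show a ≤ b
    omega
  · exact absurd has (hno a s hs1)

theorem dominatingFam (hS : Setup kd co)
    (hK : ∀ S : Set K, S.Countable → ∃ γ, ∀ s ∈ S, s ≤ γ) {κ : Cardinal.{u}} (hκ : ℵ₀ ≤ κ)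
    (hcof : ∀ S : Set J, #S ≤ κ → ∃ b, ∀ s ∈ S, s < b)
    (hhec : ∀ (β : K) (b : J), ∃ ξ : J, b ≤ ξ ∧ kd (ξ : WithTop J) = .hec β)
    {Y : Type u} (f : Y → K × J) (hf : Function.Surjective f) (p : PX kd co) :
    p ∈ DominatingFam (PX kd co) Y := by
  choose x hx1 hx2 using hhec
  refine mem_fex_of_mem (fun y => Sn kd co ((x (f y).1 (f y).2 : J) : WithTop J))
    (down_fand (down_fall fun _ => down_IsFun _) (down_fall fun _ => down_fimp _ _))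
    ⟨fun y => isFun_Sn hS (WithTop.coe_lt_top _) p, fun g => ?_⟩
  refine mem_fimp.2 fun q _ hq => ⟨q, le_rfl, ?_⟩
  obtain ⟨β, hβ⟩ := exists_rowDec hS hK (T := ℕ × ℕ) (fun t => g t.1 t.2)
  obtain ⟨b, hb⟩ := exists_col hκ hcof (Y := PUnit.{u + 1}) (by
    rw [mk_punit]; exact Cardinal.one_le_aleph0.trans hκ) (fun _ (t : ℕ × ℕ) => g t.1 t.2)
    (fun _ => β) (fun _ t => hβ t)
  obtain ⟨y, hy⟩ := hf (β, b)
  refine mem_fex_of_mem y (down_EvLe _ _) ?_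
  show q ∈ EvLe g (Sn kd co ((x (f y).1 (f y).2 : J) : WithTop J))
  rw [hy]
  exact evLe_hec hS (WithTop.coe_lt_top _) (hx2 β b) (fun n i => (hb PUnit.unit (n, i)).mono hS
    le_rfl (WithTop.coe_le_coe.2 (hx1 β b))) hq

theorem boundedSub (hS : Setup kd co)
    (hK : ∀ S : Set K, S.Countable → ∃ γ, ∀ s ∈ S, s ≤ γ) {κ : Cardinal.{u}} (hκ : ℵ₀ ≤ κ)
    (hcof : ∀ S : Set J, #S ≤ κ → ∃ b, ∀ s ∈ S, s < b)
    (hhec : ∀ (β : K) (b : J), ∃ ξ : J, b ≤ ξ ∧ kd (ξ : WithTop J) = .hec β)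
    {X Y : Type u} (hX : #X ≤ κ) (hXY : ∀ g : Y → K, ∃ β, ∃ e : X → Y, Function.Injective e ∧
      ∀ x, g (e x) = β) (p : PX kd co) :
    p ∈ BoundedSub (PX kd co) X Y := by
  intro f
  refine mem_fimp.2 fun q _ hq => ⟨q, le_rfl, ?_⟩
  choose g hg using fun y => exists_rowDec hS hK (T := ℕ × ℕ) (fun t => f y t.1 t.2)
  obtain ⟨β, e, he, heβ⟩ := hXY g
  obtain ⟨b, hb⟩ := exists_col hκ hcof hX (fun x (t : ℕ × ℕ) => f (e x) t.1 t.2)
    (fun _ => β) (fun x t => by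
      have := hg (e x) t
      rwa [heβ x] at this)
  obtain ⟨ξ, hbξ, hk⟩ := hhec β b
  refine mem_fex_of_mem (fun x y => {_p | e x = y}) (down_fand (down_IsFun _) (down_fand
    (down_IsInj _) (down_fex _))) ⟨⟨fun x => ?_, fun x y y' => ?_⟩, fun x x' y => ?_, ?_⟩
  · exact mem_fex_of_mem (e x) (down_meets _) (meets_of_mem rfl)
  · refine mem_fimp.2 fun r _ h => ⟨r, le_rfl, ?_⟩
    obtain ⟨h1, h2⟩ := h
    obtain ⟨_, _, _, h1, _⟩ := h1 r le_rfl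
    obtain ⟨_, _, _, h2, _⟩ := h2 r le_rfl
    have h3 : e x = y := h1
    have h4 : e x = y' := h2
    show y = y'
    rw [← h3, ← h4]
  · refine mem_fimp.2 fun r _ h => ⟨r, le_rfl, ?_⟩
    obtain ⟨h1, h2⟩ := h
    obtain ⟨_, _, _, h1, _⟩ := h1 r le_rfl
    obtain ⟨_, _, _, h2, _⟩ := h2 r le_rfl
    have h3 : e x = y := h1
    have h4 : e x' = y := h2
    exact he (h3.trans h4.symm)
  · refine mem_fex_of_mem (Sn kd co (ξ : WithTop J)) (down_fand (down_IsFun _)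
      (down_fall fun _ => down_fall fun _ => down_fimp _ _))
      ⟨isFun_Sn hS (WithTop.coe_lt_top _) q, fun x y => ?_⟩
    refine mem_fimp.2 fun r hr h => ⟨r, le_rfl, ?_⟩
    obtain ⟨_, _, _, h1, _⟩ := h r le_rfl
    have h3 : e x = y := h1
    subst h3
    exact evLe_hec hS (WithTop.coe_lt_top _) hk (fun n i => (hb x (n, i)).mono hS le_rfl
      (WithTop.coe_le_coe.2 hbξ)) (down_IsFun _ q (hq (e x)) r hr)

end Pool.Agent.TH778.MX
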