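import Mathlib
import Pool.Agent.TH778.MX.Forc

/-!
# The extension: splitting and reaping numbers, cardinals
-/

namespace Pool.Agent.TH778.MX

open Cardinal Pool.Agent.Helper669.Iter Pool.Agent.Helper669.Forcing Pool.Agent.Helper669.GBase
  Pool.Agent.Helper669.Forcing2 Pool.Agent.Helper669.MMain

set_option linter.unusedSectionVars false

universe u

variable {J K : Type u} [LinearOrder J] [WellFoundedLT J] [LinearOrder K] [WellFoundedLT K]
  {kd : WithTop J → Kd K} {co : K → WithTop J} [NoMaxOrder K] [Nonempty K]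

theorem mxl_at (hS : Setup kd co) {ξ : WithTop J} (hk : kd ξ = .mat) (γ : K) :
    Mxl (VV kd co γ ξ) ξ (WW co ξ (fun γ => VV kd co γ ξ) γ
      (fun β _ => UF co ξ (fun γ => VV kd co γ ξ) β)) (UF co ξ (fun γ => VV kd co γ ξ) γ) := by
  have hnc : ∀ a, kd ξ ≠ .coh a := fun a ha => by rw [hk] at ha; exact absurd ha (by simp)
  exact ((hypAt_of hS (hS.lt ξ hnc) (fun η _ => MI_all hS η)).uf γ).1

/-! ### Extending conditions at a matrix coordinate -/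

theorem push_pairX (hS : Setup kd co) {η : WithTop J} (hη : η < ⊤) (hk : kd η = .mat)
    (r : PX kd co) (N i : ℕ) :
    ∃ k ≥ N, ∃ r' ≤ r, r'.1.st η = r.1.st η ++ [Nat.pair k i] := by
  obtain ⟨γ0, hγ0⟩ := exists_row hS r.2
  have hr := hγ0 γ0 le_rfl
  obtain ⟨q, hq, hle, k, hkN, h⟩ := amal_mat (mxl_at hS hk γ0) (fun N => Or.inl ⟨N, rfl⟩)
    (r.1.pr η) (fun R hR => by
      rw [← RW_mat hk]
      exact hr.1 η R hR) N (res r.1 η) (res_mem_Vs' hr η)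
  refine ⟨k, hkN, ⟨push (glue q r.1 η) η (Nat.pair k i),
    push_mem (glue_mem (VV_sub_Vd hq) r.2 hη.le) hη _⟩, ?_, ?_⟩
  · show push (glue q r.1 η) η (Nat.pair k i) ≤ r.1
    refine le_trans (push_le fun R hR => ?_) (glue_le hle)
    rw [glue_pr_ge le_rfl] at hR
    rw [glue_st_ge le_rfl, bs_glue le_rfl]
    exact h R hR _ i
  · show (push (glue q r.1 η) η (Nat.pair k i)).st η = _
    rw [push_st_self, glue_st_ge le_rfl]

theorem push_toX (hS : Setup kd co) {ξ : WithTop J} (hξ : ξ < ⊤) (hk : kd ξ = .mat) (k i : ℕ) :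
    ∀ d : ℕ, ∀ r : PX kd co, (r.1.st ξ).length + d = k →
    ∃ r' ≤ r, k < (r'.1.st ξ).length ∧ (Nat.unpair ((r'.1.st ξ).getD k 0)).2 = i := by
  intro d
  induction d with
  | zero =>
    intro r hr
    obtain ⟨m, _, r', h1, h2⟩ := push_pairX hS hξ hk r 0 i
    rw [Nat.add_zero] at hr
    refine ⟨r', h1, by rw [h2]; simp; omega, ?_⟩
    rw [h2, List.getD_append_right _ _ _ _ hr.le, hr]
    simp
  | succ d ih =>
    intro r hr
    obtain ⟨m, _, r', h1, h2⟩ := push_pairX hS hξ hk r 0 i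
    obtain ⟨r'', h3, h4, h5⟩ := ih r' (by rw [h2]; simp; omega)
    exact ⟨r'', h3.trans h1, h4, h5⟩

/-! ### The generic sets -/

/-- the name of the generic pseudo-intersection added at coordinate `ξ` -/
def MmX (ξ : WithTop J) (k : ℕ) : Set (PX kd co) :=
  {p | ∃ n < (p.1.st ξ).length, (Nat.unpair ((p.1.st ξ).getD n 0)).1 = k}

/-- the name of the Cohen set added at coordinate `ξ` -/
def ChX (ξ : WithTop J) (k : ℕ) : Set (PX kd co) :=
  {p | k < (p.1.st ξ).length ∧ (Nat.unpair ((p.1.st ξ).getD k 0)).2 = 1}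

theorem down_MmX (ξ : WithTop J) (k : ℕ) : Down (MmX (kd := kd) (co := co) ξ k) := by
  rintro p ⟨n, h1, h2⟩ q hq
  obtain ⟨h3, h4⟩ := st_mono hq ξ h1
  exact ⟨n, h3, by rw [h4]; exact h2⟩

theorem down_ChX (ξ : WithTop J) (k : ℕ) : Down (ChX (kd := kd) (co := co) ξ k) := by
  rintro p ⟨h1, h2⟩ q hq
  obtain ⟨h3, h4⟩ := st_mono hq ξ h1
  exact ⟨h3, by rw [h4]; exact h2⟩

theorem not_ChX {ξ : WithTop J} {k i : ℕ} (hi : i ≠ 1) {p : PX kd co}
    (h1 : k < (p.1.st ξ).length) (h2 : (Nat.unpair ((p.1.st ξ).getD k 0)).2 = i) :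
    p ∈ fnot (meets (ChX (kd := kd) (co := co) ξ k)) := by
  intro q hq hm
  obtain ⟨r, hr, h3⟩ := exists_of_meets (down_ChX ξ k) hm
  obtain ⟨h4, h5⟩ := st_mono (hr.trans hq) ξ h1
  apply hi
  rw [← h2, ← h5]
  exact h3.2

theorem infSet_MmX (hS : Setup kd co) {ξ : WithTop J} (hξ : ξ < ⊤) (hk : kd ξ = .mat)
    (p : PX kd co) : p ∈ InfSet (MmX (kd := kd) (co := co) ξ) := by
  refine fun N => mem_fex.2 fun q _ => ?_
  obtain ⟨k, hk, r, hr, hst⟩ := push_pairX hS hξ hk q N 0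
  refine ⟨r, hr, k, hk, meets_of_mem ⟨(q.1.st ξ).length, ?_, ?_⟩⟩
  · rw [hst]; simp
  · rw [hst, List.getD_append_right _ _ _ _ le_rfl]; simp

/-! ### The generic set is not split by earlier sets -/

theorem unsplitX (hS : Setup kd co) {ξ : WithTop J} (hξ : ξ < ⊤) (hk : kd ξ = .mat)
    {x : ℕ → Set (PX kd co)} {β : K} (hx : ∀ k, Dec kd co β ξ (x k)) (p : PX kd co) :
    ∃ p' ≤ p, ∃ N : ℕ, (∀ k ≥ N, ∀ r ≤ p', r ∈ meets (MmX (kd := kd) (co := co) ξ k) →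
        r ∉ fnot (meets (x k))) ∨
      (∀ k ≥ N, ∀ r ≤ p', r ∈ meets (MmX (kd := kd) (co := co) ξ k) → r ∉ meets (x k)) := by
  classical
  obtain ⟨γ0, hγ0⟩ := exists_row hS p.2
  set γ := max γ0 β with hγdef
  have hpγ := hγ0 γ (le_max_left _ _)
  have hx' : ∀ k, Dec kd co γ ξ (x k) := fun k => (hx k).mono hS (le_max_right _ _) le_rfl
  choose A _ hA1 hA2 hA3 using hx'
  have hM := mxl_at hS hk γ
  let X : Bool → ℕ → Set (Om (WithTop J)) := fun i k =>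
    ⋃ a ∈ {a | a ∈ A k ∧ (if i then a ∈ meets (x k) else a ∈ fnot (meets (x k)))}, bs a.1 ξ
  have hX : ∀ i, X i ∈ Nm (VV kd co γ ξ) ξ := by
    intro i k w hw
    simp only [X, Set.mem_iUnion] at hw
    obtain ⟨a, ha, hwa⟩ := hw
    exact ⟨a.1, hA1 k a ha.1, hwa, fun v hv => Set.mem_biUnion ha hv⟩
  obtain ⟨N₀, hN₀⟩ := exists_stem_bound (p.1.st ξ)
  obtain ⟨r1, hr1, hle1, i, X', hX', h1⟩ := hM.part X hX (res p.1 ξ) (res_mem_Vs' hpγ ξ) (by
    intro k r hr _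
    obtain ⟨a, ha, hcomp⟩ := hA3 k (toP r hr)
    obtain ⟨s, hs, hs1, hs2⟩ := row_compat hS (hA1 k a ha) (r' := toP r hr) hr hcomp
    rcases hA2 k a ha with h | h
    · refine ⟨s.1, hs, hs2, true, fun v hv => ?_⟩
      exact Set.mem_biUnion (show a ∈ {a | a ∈ A k ∧ (if true then a ∈ meets (x k) else
        a ∈ fnot (meets (x k)))} from ⟨ha, h⟩) (bs_mono hs1 ξ hv)
    · refine ⟨s.1, hs, hs2, false, fun v hv => ?_⟩
      exact Set.mem_biUnion (show a ∈ {a | a ∈ A k ∧ (if false then a ∈ meets (x k) else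
        a ∈ fnot (meets (x k)))} from ⟨ha, h⟩) (bs_mono hs1 ξ hv))
  let g : PX kd co := glueP (toP r1 hr1) p ξ
  have hgp : g ≤ p := glueP_le (q := toP r1 hr1) (p := p) hle1
  have hgr1 : g ≤ toP r1 hr1 := glueP_le_left (q := toP r1 hr1) (p := p) hr1.2.1
  let p' : PX kd co := ⟨addG g.1 ξ {pm X'}, addG_mem g.2 hξ fun R hR => by
    rw [Finset.mem_singleton] at hR
    rw [hR]
    refine ⟨γ, ?_⟩
    rw [RW_mat hk]
    exact ⟨X', hX', rfl⟩⟩
  have hp'g : p' ≤ g := addG_le g.1 ξ _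
  have hst : p'.1.st ξ = p.1.st ξ := by
    show (glue r1 p.1 ξ).st ξ = _
    exact glue_st_ge le_rfl
  -- the main point
  have key : ∀ k ≥ N₀, ∀ r ≤ p', r ∈ meets (MmX (kd := kd) (co := co) ξ k) →
      ∃ s ≤ r, ∃ a, (if i then a ∈ meets (x k) else a ∈ fnot (meets (x k))) ∧ s ≤ a := by
    intro k hk r hr hm
    obtain ⟨r2, hr2, n, hn, hnk⟩ := exists_of_meets (down_MmX ξ k) hm
    have hr2p' : r2 ≤ p' := hr2.trans hr
    have hnlen : (p'.1.st ξ).length ≤ n := by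
      by_contra hcon
      obtain ⟨_, h2⟩ := st_mono hr2p' ξ (not_le.1 hcon)
      rw [h2, hst] at hnk
      have := hN₀ n (by rw [← hst]; exact not_le.1 hcon)
      rw [hnk] at this
      exact absurd hk (not_le.2 this)
    have h2 := (hr2p' ξ).2.2 (pm X') (addG_pr (Finset.mem_singleton_self _)) n hnlen hn
    have h2' : bs r2.1 ξ ⊆ X' (Nat.unpair ((r2.1.st ξ).getD n 0)).1 := h2
    rw [hnk] at h2'
    obtain ⟨w, hw⟩ := bs_nonempty (good_RS hS) r2.2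
    obtain ⟨q0, hq0, hwq0, hq0X⟩ := hM.sub hX' k w (h2' (hw ξ))
    have hwr1 : w ∈ bs r1 ξ := bs_mono (hr2p'.trans (hp'g.trans hgr1)) ξ (hw ξ)
    obtain ⟨s, hs, hs1, hs2, hws⟩ := inter_pointS w ξ (goodS_all hS γ ξ) q0 r1 hq0.1 hr1.1
      hq0.2.2 hr1.2.2 hwq0 hwr1
    rw [res_eq_self hq0.2.1] at hs1
    rw [res_eq_self hr1.2.1] at hs2
    have h3 := h1 s hs hs2 k ((bs_mono hs1 ξ).trans hq0X)
    have h4 := h3 hws
    simp only [X, Set.mem_iUnion] at h4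
    obtain ⟨a, ⟨haA, ha⟩, hwa⟩ := h4
    obtain ⟨t, ht1, ht2⟩ := compat_point hS (p := r2) (a := a) (hA1 k a haA).2.1 (hw ξ) hwa
    exact ⟨t, ht2.trans hr2, a, ha, ht1⟩
  refine ⟨p', hp'g.trans hgp, N₀, ?_⟩
  cases i with
  | true =>
    left
    intro k hk r hr hm hf
    obtain ⟨s, hs, a, ha, hsa⟩ := key k hk r hr hm
    exact hf s hs (down_meets _ _ ha s hsa)
  | false =>
    right
    intro k hk r hr hm hf
    obtain ⟨s, hs, a, ha, hsa⟩ := key k hk r hr hm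
    exact ha s hsa (down_meets _ _ hf s hs)

theorem ltSplittingX (hS : Setup kd co)
    (hK : ∀ S : Set K, S.Countable → ∃ γ, ∀ s ∈ S, s ≤ γ) {κ : Cardinal.{u}} (hκ : ℵ₀ ≤ κ)
    (hcof : ∀ S : Set J, #S ≤ κ → ∃ b, ∀ s ∈ S, s < b)
    (hmat : ∀ b : J, ∃ ξ : J, b ≤ ξ ∧ kd (ξ : WithTop J) = .mat)
    {Y : Type u} (hY : #Y ≤ κ) (p : PX kd co) :
    p ∈ LtSplitting (PX kd co) Y := by
  intro E
  choose g hg using fun y => exists_rowDec hS hK (E y)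
  obtain ⟨b, hb⟩ := exists_col hκ hcof hY E g hg
  obtain ⟨ξ, hbξ, hk⟩ := hmat b
  have hξ : (ξ : WithTop J) < ⊤ := WithTop.coe_lt_top ξ
  refine mem_fex_of_mem (MmX (ξ : WithTop J)) (down_fand (down_InfSet _)
    (down_fall fun _ => down_fnot _)) ⟨infSet_MmX hS hξ hk p, fun y q _ hq => ?_⟩
  obtain ⟨p', hp', N, h | h⟩ := unsplitX hS hξ hk (fun k => (hb y k).mono hS le_rfl
    (WithTop.coe_le_coe.2 hbξ)) q
  · obtain ⟨r, hr, k, hk, h1, h2⟩ := mem_fex.1 (hq.2 N) p' hp'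
    exact h k hk r hr h1 h2
  · obtain ⟨r, hr, k, hk, h1, h2⟩ := mem_fex.1 (hq.1 N) p' hp'
    exact h k hk r hr h1 h2

/-! ### The Cohen set splits earlier sets -/

theorem cohen_hitsX (hS : Setup kd co) {ξ : WithTop J} (hξ : ξ < ⊤) (hk : kd ξ = .mat)
    {x : ℕ → Set (PX kd co)} {β : K} (hx : ∀ k, Dec kd co β ξ (x k)) {p : PX kd co}
    (hp : p ∈ InfSet x) (N i : ℕ) : ∃ k ≥ N, ∃ t ≤ p, t ∈ meets (x k) ∧
      k < (t.1.st ξ).length ∧ (Nat.unpair ((t.1.st ξ).getD k 0)).2 = i := by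
  obtain ⟨r, hr, k, hk', hrx⟩ := mem_fex.1 (hp (max N (p.1.st ξ).length)) p le_rfl
  have hk'' : max N (p.1.st ξ).length ≤ k := hk'
  obtain ⟨A, _, hA1, hA2, hA3⟩ := hx k
  obtain ⟨a, ha, s, hsa, hsr⟩ := hA3 r
  have hax : a ∈ meets (x k) := by
    rcases hA2 a ha with h1 | h1
    · exact h1
    · exact absurd (down_meets _ _ hrx s hsr) (h1 s hsa)
  obtain ⟨t, ht1, ht2, ht3⟩ := compat_res (p := p) (hA1 a ha).2.1
    ⟨s, hsa, (hsr.trans hr).trans (le_resP p ξ)⟩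
  have hlen : (t.1.st ξ).length ≤ k := by
    rw [(ht3 _ le_rfl).1]
    exact (le_max_right _ _).trans hk''
  obtain ⟨t', ht', h1, h2⟩ := push_toX hS hξ hk k i (k - (t.1.st ξ).length) t (by omega)
  exact ⟨k, (le_max_left _ _).trans hk'', t', ht'.trans ht2,
    down_meets _ _ hax t' (ht'.trans ht1), h1, h2⟩

theorem ltReapingX (hS : Setup kd co)
    (hK : ∀ S : Set K, S.Countable → ∃ γ, ∀ s ∈ S, s ≤ γ) {κ : Cardinal.{u}} (hκ : ℵ₀ ≤ κ)
    (hcof : ∀ S : Set J, #S ≤ κ → ∃ b, ∀ s ∈ S, s < b)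
    (hmat : ∀ b : J, ∃ ξ : J, b ≤ ξ ∧ kd (ξ : WithTop J) = .mat)
    {Y : Type u} (hY : #Y ≤ κ) (p : PX kd co) :
    p ∈ LtReaping (PX kd co) Y := by
  intro E
  choose g hg using fun y => exists_rowDec hS hK (E y)
  obtain ⟨b, hb⟩ := exists_col hκ hcof hY E g hg
  obtain ⟨ξ, hbξ, hkξ⟩ := hmat b
  have hξ : (ξ : WithTop J) < ⊤ := WithTop.coe_lt_top ξ
  have hb' := fun y k => (hb y k).mono hS le_rfl (WithTop.coe_le_coe.2 hbξ)
  refine mem_fimp.2 fun q _ hq => ⟨q, le_rfl, ?_⟩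
  refine mem_fex_of_mem (ChX (ξ : WithTop J)) (down_fall fun _ => down_FSplits _ _)
    fun y => ⟨fun N => ?_, fun N => ?_⟩
  · refine mem_fex.2 fun r hr => ?_
    obtain ⟨k, hk, t, ht, h1, h2, h3⟩ :=
      cohen_hitsX hS hξ hkξ (hb' y) (down_InfSet _ _ (hq y) r hr) N 1
    exact ⟨t, ht, k, hk, h1, meets_of_mem ⟨h2, h3⟩⟩
  · refine mem_fex.2 fun r hr => ?_
    obtain ⟨k, hk, t, ht, h1, h2, h3⟩ :=
      cohen_hitsX hS hξ hkξ (hb' y) (down_InfSet _ _ (hq y) r hr) N 0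
    exact ⟨t, ht, k, hk, h1, not_ChX (by norm_num) h2 h3⟩

/-! ### Cardinals -/

theorem cardinalsPreservedX (p : PX kd co) : p ∈ CardinalsPreserved.{u, u} (PX kd co) := by
  intro μ ν hμν hν q _ hq
  obtain ⟨r, _, R, hR1, hR2⟩ := mem_fex.1 hq q le_rfl
  have h1 : ∀ y : ν.out, ∃ s ≤ r, ∃ x : μ.out, s ∈ meets (R x y) := fun y =>
    mem_fex.1 (hR2 y) r le_rfl
  choose f hf x hx using h1
  obtain ⟨y, y', hne, hz, s, hs1, hs2⟩ := exists_compat_same (X := ν.out) (Z := μ.out) (by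
    rw [mk_out, mk_out]
    exact mul_lt_of_lt hν.le hμν hν) f x
  apply hne
  refine IsFun.unique (down_IsFun R r hR1 s (hs1.trans (hf y))) (down_meets _ _ (hx y) s hs1) ?_
  rw [hz]
  exact down_meets _ _ (hx y') s hs2

end Pool.Agent.TH778.MX
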