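import Mathlib
import Pool.Agent.TH778.MX.Split

/-!
# The matrix with `ω₁` rows and `ω₂` columns
-/

namespace Pool.Agent.TH778.MX

open Cardinal Pool.Agent.Helper669.Iter Pool.Agent.Helper669.Forcing Pool.Agent.Helper669.MMain

/-- the first uncountable ordinal, as a well-ordered type -/
abbrev W1 : Type := (ℵ_ 1 : Cardinal.{0}).ord.ToType

/-- the well-ordered type `ω₂` -/
abbrev W2 : Type := (ℵ_ 2 : Cardinal.{0}).ord.ToType

theorem regular2 : (ℵ_ 2 : Cardinal.{0}).IsRegular := by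
  have : (2 : Ordinal.{0}) = 1 + 1 := by norm_num
  rw [this]
  exact isRegular_aleph_add_one 1

theorem lt12 : (ℵ_ 1 : Cardinal.{0}) < ℵ_ 2 := by
  rw [Cardinal.aleph_lt_aleph]
  norm_num

theorem bounded_of_lt {κ : Cardinal.{0}} (hκ : κ.IsRegular) (V : Set κ.ord.ToType)
    (hV : #V < κ) : ∃ b, ∀ y ∈ V, y < b := by
  by_contra hcon
  push Not at hcon
  have h1 : IsCofinal V := fun b => by
    obtain ⟨s, hs, hb⟩ := hcon b
    exact ⟨s, hs, hb⟩
  have h2 := Order.cof_le h1
  rw [Ordinal.cof_toType, hκ.cof_ord] at h2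
  exact absurd h2 (not_le.2 hV)

instance : Nonempty W1 := by
  rw [← mk_ne_zero_iff, mk_ord_toType]
  exact (aleph_pos 1).ne'

instance : Nonempty W2 := by
  rw [← mk_ne_zero_iff, mk_ord_toType]
  exact (aleph_pos 2).ne'

instance : NoMaxOrder W1 where
  exists_gt a := by
    obtain ⟨b, hb⟩ := bounded_of_lt isRegular_aleph_one {a} (by
      rw [mk_singleton]; exact one_lt_aleph0.trans_le (aleph0_le_aleph 1))
    exact ⟨b, hb a rfl⟩

theorem hK1 : ∀ S : Set W1, S.Countable → ∃ γ, ∀ s ∈ S, s ≤ γ := by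
  intro S hS
  obtain ⟨b, hb⟩ := bounded_of_lt isRegular_aleph_one S (by
    exact (Cardinal.le_aleph0_iff_set_countable.2 hS).trans_lt (by
      rw [← aleph_zero, aleph_lt_aleph]; norm_num))
  exact ⟨b, fun s hs => (hb s hs).le⟩

/-- the columns: blocks indexed by `ω₂`, after a first block -/
abbrev JX : Type := Lex (WithBot W2 × WithTop W1)

open Classical in
noncomputable def kd0 (z : WithTop JX) : Kd W1 :=
  WithTop.recTopCoe (C := fun _ => Kd W1) .mat (fun z => WithTop.recTopCoe (C := fun _ => Kd W1)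
    .mat (fun β => if (ofLex z).1 = ⊥ then .coh β else .hec β) (ofLex z).2) z

noncomputable def co0 (α : W1) : WithTop JX := ((toLex (⊥, (α : WithTop W1)) : JX) : WithTop JX)

theorem kd0_top : kd0 ⊤ = .mat := rfl

theorem kd0_mat (a : WithBot W2) : kd0 ((toLex (a, (⊤ : WithTop W1)) : JX) : WithTop JX) = .mat :=
  rfl

theorem kd0_bot (β : W1) : kd0 ((toLex (⊥, (β : WithTop W1)) : JX) : WithTop JX) = .coh β := by
  show (if (⊥ : WithBot W2) = ⊥ then Kd.coh β else Kd.hec β) = _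
  rw [if_pos rfl]

theorem kd0_hec {a : WithBot W2} (ha : a ≠ ⊥) (β : W1) :
    kd0 ((toLex (a, (β : WithTop W1)) : JX) : WithTop JX) = .hec β := by
  show (if a = ⊥ then Kd.coh β else Kd.hec β) = _
  rw [if_neg ha]

theorem setup0 : Setup kd0 co0 where
  kco α := kd0_bot α
  inj η α h := by
    induction η using WithTop.recTopCoe with
    | top => rw [kd0_top] at h; exact absurd h (by simp)
    | coe z =>
      obtain ⟨⟨a, b⟩, rfl⟩ := toLex.surjective z
      induction b using WithTop.recTopCoe with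
      | top => rw [kd0_mat] at h; exact absurd h (by simp)
      | coe β =>
        by_cases ha : a = ⊥
        · subst ha
          rw [kd0_bot] at h
          have : β = α := by simpa using h
          rw [this]; rfl
        · rw [kd0_hec ha] at h; exact absurd h (by simp)
  lt η h α := by
    induction η using WithTop.recTopCoe with
    | top => exact WithTop.coe_lt_top _
    | coe z =>
      obtain ⟨⟨a, b⟩, rfl⟩ := toLex.surjective z
      refine WithTop.coe_lt_coe.2 (Prod.Lex.toLex_lt_toLex.2 ?_)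
      by_cases ha : a = ⊥
      · subst ha
        induction b using WithTop.recTopCoe with
        | top => exact Or.inr ⟨rfl, WithTop.coe_lt_top α⟩
        | coe β => exact absurd (kd0_bot β) (h β)
      · exact Or.inl (bot_lt_iff_ne_bot.2 ha)

theorem htop0 : ∀ α, kd0 ⊤ ≠ .coh α := fun α h => by
  rw [kd0_top] at h; exact absurd h (by simp)

theorem hcof0 : ∀ S : Set JX, #S ≤ ℵ_ 1 → ∃ b, ∀ s ∈ S, s < b := by
  intro S hS
  obtain ⟨l, hl⟩ := bounded_of_lt regular2
    {y : W2 | (y : WithBot W2) ∈ (fun s : JX => (ofLex s).1) '' S} (by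
      have h1 : #{y : W2 | (y : WithBot W2) ∈ (fun s : JX => (ofLex s).1) '' S} ≤
          #((fun s : JX => (ofLex s).1) '' S) := by
        refine mk_le_of_injective (f := fun y => ⟨((y.1 : W2) : WithBot W2), y.2⟩) ?_
        intro y y' h
        have := congrArg Subtype.val h
        exact Subtype.ext (WithBot.coe_injective this)
      exact (h1.trans (mk_image_le.trans hS)).trans_lt lt12)
  refine ⟨toLex ((l : WithBot W2), ⊤), fun s hs => ?_⟩
  refine Prod.Lex.lt_iff.2 (Or.inl ?_)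
  show (ofLex s).1 < (l : WithBot W2)
  induction h : (ofLex s).1 using WithBot.recBotCoe with
  | bot => exact WithBot.bot_lt_coe l
  | coe y => exact WithBot.coe_lt_coe.2 (hl y ⟨s, hs, h⟩)

theorem hmat0 : ∀ b : JX, ∃ ξ : JX, b ≤ ξ ∧ kd0 (ξ : WithTop JX) = .mat := by
  intro b
  obtain ⟨⟨a, c⟩, rfl⟩ := toLex.surjective b
  exact ⟨toLex (a, ⊤), Prod.Lex.toLex_le_toLex.2 (Or.inr ⟨rfl, le_top⟩), kd0_mat a⟩

theorem hhec0 : ∀ (β : W1) (b : JX), ∃ ξ : JX, b ≤ ξ ∧ kd0 (ξ : WithTop JX) = .hec β := by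
  intro β b
  obtain ⟨⟨a, c⟩, rfl⟩ := toLex.surjective b
  have h : ∃ l : W2, a < (l : WithBot W2) := by
    induction a using WithBot.recBotCoe with
    | bot => exact ⟨Classical.arbitrary W2, WithBot.bot_lt_coe _⟩
    | coe y =>
      obtain ⟨l, hl⟩ := bounded_of_lt regular2 {y} (by
        rw [mk_singleton]; exact one_lt_aleph0.trans_le (aleph0_le_aleph 2))
      exact ⟨l, WithBot.coe_lt_coe.2 (hl y rfl)⟩
  obtain ⟨l, hl⟩ := h
  exact ⟨toLex ((l : WithBot W2), (β : WithTop W1)), Prod.Lex.toLex_le_toLex.2 (Or.inl hl),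
    kd0_hec (WithBot.coe_ne_bot) β⟩

theorem fiber0 : ∀ g : W2 → W1, ∃ β, ∃ e : W1 → W2, Function.Injective e ∧ ∀ x, g (e x) = β := by
  intro g
  have h1 : ∃ β, ℵ_ 1 ≤ #{l // g l = β} := by
    by_contra hcon
    push Not at hcon
    have h2 : #W2 = Cardinal.sum fun β => #{l // g l = β} := by
      rw [← mk_sigma]
      exact (Equiv.sigmaFiberEquiv g).symm.cardinal_eq
    have h3 : #W2 ≤ ℵ_ 1 := by
      rw [h2]
      refine (Cardinal.sum_le_sum _ (fun _ => ℵ_ 1) fun β => (hcon β).le).trans ?_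
      rw [Cardinal.sum_const', mk_ord_toType]
      exact (mul_eq_self (aleph0_le_aleph 1)).le
    rw [mk_ord_toType] at h3
    exact absurd h3 (not_le.2 lt12)
  obtain ⟨β, hβ⟩ := h1
  have h2 : #W1 ≤ #{l // g l = β} := by rw [mk_ord_toType]; exact hβ
  obtain ⟨e⟩ := Cardinal.le_def _ _ |>.1 h2
  exact ⟨β, fun x => (e x).1, fun x y h => e.injective (Subtype.ext h), fun x => (e x).2⟩

theorem mk_JX : #JX ≤ ℵ_ 2 := by
  have h1 : #(WithBot W2) ≤ ℵ_ 2 := by
    have : #(WithBot W2) = #W2 + 1 := mk_option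
    rw [this, mk_ord_toType]
    exact (add_one_eq (aleph0_le_aleph 2)).le
  have h2 : #(WithTop W1) ≤ ℵ_ 2 := by
    have : #(WithTop W1) = #W1 + 1 := mk_option
    rw [this, mk_ord_toType]
    exact (add_one_eq (aleph0_le_aleph 1)).le.trans lt12.le
  have h3 : #JX = #(WithBot W2) * #(WithTop W1) := by
    have h4 : #JX = #(WithBot W2 × WithTop W1) := rfl
    rw [h4, mk_prod, lift_id, lift_id]
  rw [h3]
  exact (mul_le_mul' h1 h2).trans (mul_eq_self (aleph0_le_aleph 2)).le

theorem surj0 : ∃ f : W2 → W1 × JX, Function.Surjective f := by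
  have h : #(W1 × JX) ≤ #W2 := by
    rw [mk_prod, lift_id, lift_id, mk_ord_toType, mk_ord_toType]
    exact (mul_le_mul' lt12.le mk_JX).trans (mul_eq_self (aleph0_le_aleph 2)).le
  obtain ⟨e⟩ := Cardinal.le_def _ _ |>.1 h
  have : Nonempty (W1 × JX) := ⟨(Classical.arbitrary W1, toLex (⊥, ⊤))⟩
  exact ⟨Function.invFun e, Function.invFun_surjective e.injective⟩

/-- the poset of the matrix with `ω₁` rows and `ω₂` columns -/
abbrev PMat : Type := PX kd0 co0

theorem forced (p : PMat) :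
    p ∈ CardinalsPreserved.{0, 0} PMat ∧ p ∈ UnboundedFam PMat W1 ∧
    p ∈ DominatingFam PMat W2 ∧ p ∈ BoundedSub PMat W1 W2 ∧
    p ∈ LtSplitting PMat W1 ∧ p ∈ LtReaping PMat W1 := by
  obtain ⟨f, hf⟩ := surj0
  have h1 : #W1 ≤ ℵ_ 1 := by rw [mk_ord_toType]
  exact ⟨cardinalsPreservedX p, unboundedFam setup0 htop0 hK1 p,
    dominatingFam setup0 hK1 (aleph0_le_aleph 1) hcof0 hhec0 f hf p,
    boundedSub setup0 hK1 (aleph0_le_aleph 1) hcof0 hhec0 h1 fiber0 p,
    ltSplittingX setup0 hK1 (aleph0_le_aleph 1) hcof0 hmat0 h1 p,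
    ltReapingX setup0 hK1 (aleph0_le_aleph 1) hcof0 hmat0 h1 p⟩

end Pool.Agent.TH778.MX
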