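import Mathlib
import Pool.Agent.H458R6.Tri

/-!
# The semifilter trichotomy fails if the dominating number is at most the reaping number
(for the cardinal `ℵ₂`)
-/

namespace Pool.Agent.TH778.MX

open Cardinal Filter Set Pool.Agent.H458R6

/-- every nonempty family of fewer than `#Λ` infinite sets is split by one set -/
def SplitAll (μ : Cardinal.{0}) : Prop :=
  ∀ R : Set (Set ℕ), #R < μ → (∀ a ∈ R, a.Infinite) →
    ∃ s : Set ℕ, ∀ a ∈ R, (a ∩ s).Infinite ∧ (a \ s).Infinite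

abbrev Itm := Set ℕ × (Fin 3 → Set ℕ)

/-- An acceptable item `a` for the task `h` over the set `T` of former items. -/
def Ok3 (h : ℕ → ℕ) (T : Set Itm) (a : Itm) : Prop :=
  a.1ᶜ.Infinite ∧ (∀ j, (a.2 j).Infinite) ∧
  (∃ y : Set ℕ, y.Infinite ∧ a.1 = blk h y) ∧
  (∃ z : Fin 3 → Set ℕ, (∀ i j n, n ∈ z i → n ∈ z j → i = j) ∧ ∀ j, a.2 j = blk h (z j)) ∧
  (∀ t ∈ T, ∀ j, (t.2 j \ a.1).Infinite) ∧
  (∀ t ∈ insert a T, ∀ j, (a.2 j \ t.1).Infinite)

theorem exists_ok3 {μ : Cardinal.{0}} (hμ : ℵ₀ < μ) (hr : SplitAll μ) (h : ℕ → ℕ)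
    (hh : StrictMono h) (T : Set Itm) (hT : #T < μ)
    (hinf : ∀ t ∈ T, t.1ᶜ.Infinite ∧ ∀ j, (t.2 j).Infinite) : ∃ a, Ok3 h T a := by
  have hone : (1 : Cardinal.{0}) < μ := one_lt_aleph0.trans hμ
  have hcard : ∀ j : Fin 3, #(↥((fun t : Itm => quot (t.2 j) h) '' T)) < μ :=
    fun j => mk_image_le.trans_lt hT
  -- the set y
  have hR1 : #(↥(insert (quot Set.univ h) (⋃ j : Fin 3, (fun t : Itm => quot (t.2 j) h) '' T)))
      < μ := by
    refine lt_of_le_of_lt mk_insert_le (add_lt_of_lt hμ.le ?_ hone)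
    have h3 : (⋃ j : Fin 3, (fun t : Itm => quot (t.2 j) h) '' T) =
        ((fun t : Itm => quot (t.2 0) h) '' T) ∪ (((fun t : Itm => quot (t.2 1) h) '' T) ∪
          ((fun t : Itm => quot (t.2 2) h) '' T)) := by
      ext x
      simp only [mem_iUnion, mem_union, Fin.exists_fin_succ, Fin.exists_fin_zero]
      tauto
    rw [h3]
    exact (mk_union_le _ _).trans_lt (add_lt_of_lt hμ.le (hcard 0)
      ((mk_union_le _ _).trans_lt (add_lt_of_lt hμ.le (hcard 1) (hcard 2))))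
  obtain ⟨y, hy⟩ := hr _ hR1 (by
    rintro a (rfl | ha)
    · exact quot_infinite hh infinite_univ
    · obtain ⟨j, t, ht, rfl⟩ := mem_iUnion.1 ha
      exact quot_infinite hh ((hinf t ht).2 j))
  have hYc : (blk h y)ᶜ.Infinite := by
    have h1 := diff_blk hh (hy _ (mem_insert _ _)).2
    rwa [← compl_eq_univ_sdiff] at h1
  have hyinf : y.Infinite := (hy _ (mem_insert _ _)).1.mono inter_subset_right
  -- the sets z
  set R2 : Set (Set ℕ) := insert (quot (blk h y)ᶜ h) ((fun t : Itm => quot t.1ᶜ h) '' T) with hR2d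
  have hR2 : #R2 < μ := lt_of_le_of_lt mk_insert_le (add_lt_of_lt hμ.le
    (mk_image_le.trans_lt hT) hone)
  have hR2inf : ∀ a ∈ R2, a.Infinite := by
    rintro a (rfl | ⟨t, ht, rfl⟩)
    · exact quot_infinite hh hYc
    · exact quot_infinite hh (hinf t ht).1
  obtain ⟨z, hz⟩ := hr R2 hR2 hR2inf
  obtain ⟨z', hz'⟩ := hr ((fun a => a ∩ z) '' R2) (mk_image_le.trans_lt hR2) (by
    rintro _ ⟨a, ha, rfl⟩
    exact (hz a ha).1)
  let zz : Fin 3 → Set ℕ := ![zᶜ, z ∩ z', z \ z']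
  have hzz : ∀ a ∈ R2, ∀ j, (a ∩ zz j).Infinite := by
    intro a ha j
    have h1 := hz a ha
    have h2 := hz' _ (mem_image_of_mem _ ha)
    fin_cases j
    · exact h1.2
    · show (a ∩ (z ∩ z')).Infinite
      have := h2.1
      rwa [inter_assoc] at this
    · show (a ∩ (z \ z')).Infinite
      have := h2.2
      refine this.mono ?_
      rintro x ⟨⟨h3, h4⟩, h5⟩
      exact ⟨h3, h4, h5⟩
  have hzdisj : ∀ i j n, n ∈ zz i → n ∈ zz j → i = j := by
    intro i j n hi hj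
    fin_cases i <;> fin_cases j
    · rfl
    · exact absurd (show n ∈ z ∩ z' from hj).1 (show n ∈ zᶜ from hi)
    · exact absurd (show n ∈ z \ z' from hj).1 (show n ∈ zᶜ from hi)
    · exact absurd (show n ∈ z ∩ z' from hi).1 (show n ∈ zᶜ from hj)
    · rfl
    · exact absurd (show n ∈ z ∩ z' from hi).2 (show n ∈ z \ z' from hj).2
    · exact absurd (show n ∈ z \ z' from hi).1 (show n ∈ zᶜ from hj)
    · exact absurd (show n ∈ z ∩ z' from hj).2 (show n ∈ z \ z' from hi).2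
    · rfl
  have key : ∀ C : Set ℕ, quot Cᶜ h ∈ R2 → ∀ j, (blk h (zz j) \ C).Infinite := by
    intro C hC j
    have h3 := inter_blk hh (hzz _ hC j)
    refine h3.mono ?_
    rintro m ⟨hm1, hm2⟩
    exact ⟨hm2, hm1⟩
  have hY := key (blk h y) (mem_insert _ _)
  refine ⟨(blk h y, fun j => blk h (zz j)), hYc, fun j => (hY j).mono sdiff_subset,
    ⟨y, hyinf, rfl⟩, ⟨zz, hzdisj, fun j => rfl⟩, fun t ht j => ?_, ?_⟩
  · exact diff_blk hh (hy _ (mem_insert_of_mem _ (mem_iUnion.2 ⟨j, t, ht, rfl⟩))).2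
  · rintro t (rfl | ht) j
    · exact hY j
    · exact key t.1 (mem_insert_of_mem _ ⟨t, ht, rfl⟩) j

section

variable {Λ : Type} [LinearOrder Λ] [WellFoundedLT Λ] (task : Λ → ℕ → ℕ)

open Classical in
/-- the item chosen for a task at a state -/
noncomputable def pick3 (h : ℕ → ℕ) (T : Set Itm) : Itm :=
  if hex : ∃ a, Ok3 h T a then hex.choose else (∅, fun _ => ∅)

theorem pick3_ok {h : ℕ → ℕ} {T : Set Itm} (hex : ∃ a, Ok3 h T a) : Ok3 h T (pick3 h T) := by
  rw [pick3, dif_pos hex]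
  exact hex.choose_spec

/-- the items -/
noncomputable def item3 : Λ → Itm :=
  wellFounded_lt.fix fun γ ih => pick3 (task γ) {a | ∃ β, ∃ h : β < γ, ih β h = a}

theorem item3_eq (γ : Λ) : item3 task γ = pick3 (task γ) (item3 task '' Iio γ) := by
  rw [item3, WellFounded.fix_eq]
  congr 1
  ext a
  simp only [Set.mem_ofPred_eq, Set.mem_image, Set.mem_Iio, exists_prop]

theorem item3_ok {μ : Cardinal.{0}} (hμ : ℵ₀ < μ) (hr : SplitAll μ)
    (htask : ∀ γ, StrictMono (task γ))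
    (hΛ : ∀ γ : Λ, #(Iio γ) < μ) (γ : Λ) :
    Ok3 (task γ) (item3 task '' Iio γ) (item3 task γ) := by
  induction γ using WellFoundedLT.induction with
  | ind γ ih =>
    rw [item3_eq task γ]
    apply pick3_ok
    refine exists_ok3 hμ hr _ (htask γ) _ (mk_image_le.trans_lt (hΛ γ)) ?_
    rintro _ ⟨β, hβ, rfl⟩
    have h1 := ih β hβ
    exact ⟨h1.1, h1.2.1⟩

end

/-- the interval partition given by a function -/
def coarse (e : ℕ → ℕ) : ℕ → ℕ
  | 0 => 0
  | n + 1 => max (coarse e n + 1) (e (coarse e n))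

theorem coarse_strictMono (e : ℕ → ℕ) : StrictMono (coarse e) :=
  strictMono_nat_of_lt_succ fun n => by
    show coarse e n < max (coarse e n + 1) (e (coarse e n))
    exact lt_of_lt_of_le (Nat.lt_succ_self _) (le_max_left _ _)

theorem exists_coarse {h : ℕ → ℕ} (hh : StrictMono h) {e : ℕ → ℕ}
    (he : ∀ᶠ n in atTop, h (n + 1) ≤ e n) :
    ∃ N, ∀ n ≥ N, ∃ m, coarse e n ≤ h m ∧ h (m + 1) ≤ coarse e (n + 1) := by
  obtain ⟨N, hN⟩ := eventually_atTop.1 he
  refine ⟨N, fun n hn => ⟨coarse e n, ?_, ?_⟩⟩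
  · exact hh.id_le _
  · have h1 : N ≤ coarse e n := hn.trans ((coarse_strictMono e).id_le n)
    exact (hN _ h1).trans (le_max_right _ _)

/-- the trichotomy fails if there is a dominating family of size at most `μ`, and fewer than `μ`
infinite sets can always be split simultaneously -/
theorem not_trichotomy3 {μ : Cardinal.{0}} (hμ : ℵ₀ < μ) (hr : SplitAll μ)
    {Λ : Type} [LinearOrder Λ] [WellFoundedLT Λ] (hΛ : ∀ γ : Λ, #(Iio γ) < μ)
    (E : Λ → ℕ → ℕ) (hE : ∀ g : ℕ → ℕ, ∃ i, ∀ᶠ n in atTop, g n ≤ E i n) :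
    ¬ SemifilterTrichotomy := by
  intro hST
  let task : Λ → ℕ → ℕ := fun i => coarse (E i)
  have htask : ∀ γ, StrictMono (task γ) := fun i => coarse_strictMono _
  have hOk := item3_ok task hμ hr htask hΛ
  have hpair : ∀ γ β j, ((item3 task γ).2 j \ (item3 task β).1).Infinite := by
    intro γ β j
    rcases lt_trichotomy γ β with h | h | h
    · exact (hOk β).2.2.2.2.1 _ ⟨γ, h, rfl⟩ j
    · subst h
      exact (hOk γ).2.2.2.2.2 _ (mem_insert _ _) j
    · exact (hOk γ).2.2.2.2.2 _ (mem_insert_of_mem _ ⟨β, h, rfl⟩) j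
  let S : Set (Set ℕ) := {x | x.Infinite ∧ ∃ γ j, ((item3 task γ).2 j \ x).Finite}
  obtain ⟨i0, _⟩ := hE (fun _ => 0)
  have hS1 : ∀ γ j, (item3 task γ).2 j ∈ S := fun γ j => ⟨(hOk γ).2.1 j, γ, j, by simp⟩
  have hup : ∀ a ∈ S, ∀ b : Set ℕ, b.Infinite → (a \ b).Finite → b ∈ S := by
    rintro a ⟨ha, γ, j, hγ⟩ b hb hab
    refine ⟨hb, γ, j, (hγ.union hab).subset ?_⟩
    rintro m ⟨hm1, hm2⟩
    by_cases hma : m ∈ a
    · exact Or.inr ⟨hma, hm2⟩
    · exact Or.inl ⟨hm1, hma⟩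
  have hS3 : ∀ γ, (item3 task γ).1 ∉ S := by
    rintro β ⟨-, γ, j, h1⟩
    exact hpair γ β j h1
  have hSemi : IsSemifilter S := ⟨⟨_, hS1 i0 0⟩, fun a ha => ha.1, hup⟩
  obtain ⟨h, hh, h3⟩ := hST S hSemi
  obtain ⟨i, hi⟩ := hE (fun n => h (n + 1))
  obtain ⟨N, hN⟩ := exists_coarse hh hi
  have hO := hOk i
  have htk : task i = coarse (E i) := rfl
  rw [htk] at hO
  set k := coarse (E i) with hk
  have hkm : StrictMono k := coarse_strictMono _
  obtain ⟨y, hy, hy2⟩ := hO.2.2.1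
  obtain ⟨z, hzd, hz⟩ := hO.2.2.2.1
  have hZS : ∀ j, quot (blk k (z j)) h ∈ (fun x => quot x h) '' S := fun j =>
    ⟨_, hz j ▸ hS1 i j, rfl⟩
  -- blocks below blocks
  have hbig : ∀ w : Set ℕ, w.Infinite → {m | ∃ n ∈ w, k n ≤ h m ∧ h (m + 1) ≤ k (n + 1)}.Infinite := by
    intro w hw hfin
    obtain ⟨M, hM⟩ := hfin.bddAbove
    obtain ⟨n, hn, hnM⟩ := hw.exists_gt (max N (h (M + 1)))
    obtain ⟨m, hm1, hm2⟩ := hN n ((le_max_left _ _).trans hnM.le)
    have h4 : m ≤ M := hM ⟨n, hn, hm1, hm2⟩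
    have h5 : h m ≤ h M := hh.monotone h4
    have h6 : h M < h (M + 1) := hh (Nat.lt_succ_self M)
    have h7 : n ≤ k n := hkm.id_le n
    have h8 : h (M + 1) ≤ max N (h (M + 1)) := le_max_right _ _
    omega
  have hzinf : ∀ j, (z j).Infinite := by
    intro j hfin
    have h4 := hO.2.1 j
    rw [hz j] at h4
    apply h4
    have : blk k (z j) ⊆ ⋃ n ∈ z j, Iio (k (n + 1)) := by
      rintro m ⟨n, hn, _, hm⟩
      exact mem_biUnion hn hm
    exact (hfin.biUnion fun n _ => finite_Iio _).subset this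
  rcases h3 with h3 | ⟨𝒱, h3⟩ | h3
  · -- the Frechet filter
    have h4 := hZS 0
    rw [h3] at h4
    have h5 : (quot (blk k (z 0)) h)ᶜ.Finite := h4
    refine hbig (z 1) (hzinf 1) (h5.subset ?_)
    rintro m ⟨n, hn, hm1, hm2⟩ ⟨x, ⟨n', hn', hx1, hx2⟩, hx3, hx4⟩
    have h6 := block_unique hkm (hm1.trans hx3) (hx4.trans_le hm2) hx1 hx2
    subst h6
    exact absurd (hzd 1 0 n hn hn') (by decide)
  · -- an ultrafilter
    have h4 : ∀ j, quot (blk k (z j)) h ∈ 𝒱 := fun j => by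
      have := hZS j
      rw [h3] at this
      exact this
    set A : Set ℕ := quot (blk k (z 0)) h ∩ (quot (blk k (z 1)) h ∩ quot (blk k (z 2)) h) with hA
    have hAV : A ∈ 𝒱 := inter_mem (h4 0) (inter_mem (h4 1) (h4 2))
    have hmid : ∀ m na nb nc xa xc, na < nb → nb < nc → N ≤ nb → h m ≤ xa → xa < k (na + 1) →
        k nc ≤ xc → xc < h (m + 1) → False := by
      intro m na nb nc xa xc h5 h6 h7 h8 h9 h10 h11
      obtain ⟨m', hm1, hm2⟩ := hN nb h7
      have h12 : k (na + 1) ≤ k nb := hkm.monotone (by omega)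
      have h13 : k (nb + 1) ≤ k nc := hkm.monotone (by omega)
      have h14 : h m < h m' := by omega
      have h15 : h (m' + 1) < h (m + 1) := by omega
      have h16 := hh.lt_iff_lt.1 h14
      have h17 := hh.lt_iff_lt.1 h15
      omega
    have hAfin : A.Finite := by
      refine (finite_Iio (k N + 1)).subset ?_
      rintro m ⟨⟨x0, ⟨n0, hn0, h5, h6⟩, h7, h8⟩, ⟨x1, ⟨n1, hn1, h9, h10⟩, h11, h12⟩,
        ⟨x2, ⟨n2, hn2, h13, h14⟩, h15, h16⟩⟩
      by_contra hcon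
      simp only [mem_Iio, not_lt] at hcon
      have hmh : m ≤ h m := hh.id_le m
      have hlow : ∀ n x, h m ≤ x → x < k (n + 1) → N ≤ n := by
        intro n x h17 h18
        by_contra h19
        have : k (n + 1) ≤ k N := hkm.monotone (by omega)
        omega
      have g0 := hlow n0 x0 h7 h6
      have g1 := hlow n1 x1 h11 h10
      have g2 := hlow n2 x2 h15 h14
      have e01 : n0 ≠ n1 := fun e => absurd (hzd 0 1 n0 hn0 (e ▸ hn1)) (by decide)
      have e02 : n0 ≠ n2 := fun e => absurd (hzd 0 2 n0 hn0 (e ▸ hn2)) (by decide)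
      have e12 : n1 ≠ n2 := fun e => absurd (hzd 1 2 n1 hn1 (e ▸ hn2)) (by decide)
      rcases lt_or_gt_of_ne e01 with c1 | c1 <;> rcases lt_or_gt_of_ne e02 with c2 | c2 <;>
        rcases lt_or_gt_of_ne e12 with c3 | c3
      · exact hmid m n0 n1 n2 x0 x2 c1 c3 g1 h7 h6 h13 h16
      · exact hmid m n0 n2 n1 x0 x1 c2 c3 g2 h7 h6 h9 h12
      · omega
      · exact hmid m n2 n0 n1 x2 x1 c2 c1 g0 h15 h14 h9 h12
      · exact hmid m n1 n0 n2 x1 x2 c1 c2 g0 h11 h10 h13 h16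
      · omega
      · exact hmid m n1 n2 n0 x1 x0 c3 c2 g2 h11 h10 h5 h8
      · exact hmid m n2 n1 n0 x2 x0 c3 c1 g1 h15 h14 h5 h8
    have hAS : A ∈ (fun x => quot x h) '' S := by rw [h3]; exact hAV
    obtain ⟨x, hxS, hx⟩ := hAS
    have hx' : quot x h = A := hx
    exact (hx' ▸ quot_infinite hh hxS.1) hAfin
  · -- all infinite sets
    set a : Set ℕ := {m | ∃ n ∈ y, k n ≤ h m ∧ h (m + 1) ≤ k (n + 1)} with ha
    have hainf : a.Infinite := hbig y hy
    have haS : a ∈ (fun x => quot x h) '' S := by rw [h3]; exact hainf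
    obtain ⟨x, hxS, hx⟩ := haS
    have hx' : quot x h = a := hx
    have h4 := diff_blk_quot hh x
    rw [hx'] at h4
    have h5 : blk h a ⊆ (item3 task i).1 := by
      rw [hy2]
      rintro m ⟨n', ⟨n, hn, h6, h7⟩, h8, h9⟩
      exact ⟨n, hn, h6.trans h8, h9.trans_le h7⟩
    have h6 : (x \ (item3 task i).1).Finite := h4.subset (sdiff_subset_sdiff_right h5)
    apply hS3 i
    refine hup x hxS _ ?_ h6
    intro hfin
    exact hxS.1 ((hfin.union h6).subset fun m hm => by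
      by_cases hm2 : m ∈ (item3 task i).1
      · exact Or.inl hm2
      · exact Or.inr ⟨hm, hm2⟩)

end Pool.Agent.TH778.MX
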