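import Mathlib
import Pool.Agent.TH778.MX.NoTri
import Pool.Agent.TH778.MX.Inst
import Pool.Agent.H458R6.Main
import Pool.Agent.H458R6.Prod

/-!
# Concentrated sets and the semifilter trichotomy under the matrix hypothesis
-/

namespace Pool.Agent.TH778.MX

open Cardinal Filter Set Pool.Agent.H458R6 Pool.Agent.Helper669.Forcing
  Pool.Agent.Helper669.MMain

/-- Combinatorial statements about the first uncountable ordinals `ω₁` (here `W1`) and
`ω₂` (here `W2`):
(1) there is an unbounded family of functions indexed by `ω₁`;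
(2) there is a dominating family indexed by `ω₂`;
(3) every family indexed by `ω₂` has a bounded subfamily indexed by `ω₁`;
(4) no family of sets indexed by `ω₁` is splitting;
(5) for every family of infinite sets indexed by `ω₁` there is a set splitting all of them. -/
def MatrixHypothesis : Prop :=
  (∃ E : W1 → ℕ → ℕ, ∀ g : ℕ → ℕ, ∃ y, ¬ ∀ᶠ n in atTop, E y n ≤ g n) ∧
  (∃ E : W2 → ℕ → ℕ, ∀ g : ℕ → ℕ, ∃ y, ∀ᶠ n in atTop, g n ≤ E y n) ∧
  (∀ f : W2 → ℕ → ℕ, ∃ R : W1 → W2, Function.Injective R ∧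
    ∃ g : ℕ → ℕ, ∀ x, ∀ᶠ n in atTop, f (R x) n ≤ g n) ∧
  (∀ E : W1 → Set ℕ, ∃ x : Set ℕ, x.Infinite ∧
    ∀ y, ¬ ((x ∩ E y).Infinite ∧ (x \ E y).Infinite)) ∧
  (∀ E : W1 → Set ℕ, (∀ y, (E y).Infinite) →
    ∃ s : Set ℕ, ∀ y, (E y ∩ s).Infinite ∧ (E y \ s).Infinite)

/-- All products with Hurewicz subsets of second countable spaces are Hurewicz. -/
def ProductivelyHurewicz (X : Set (ℕ → Bool)) : Prop :=
  ∀ (β : Type) [TopologicalSpace β] [SecondCountableTopology β] (Y : Set β),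
    Hurewicz Y → Hurewicz (X ×ˢ Y)

theorem aleph2_eq : (ℵ_ 2 : Cardinal.{0}) = Order.succ (ℵ_ 1) := by
  rw [succ_aleph, one_add_one_eq_two]

theorem le_aleph1_of_lt {c : Cardinal.{0}} (h : c < ℵ_ 2) : c ≤ ℵ_ 1 := by
  rw [aleph2_eq] at h
  exact Order.lt_succ_iff.1 h

/-- a nonempty set of size at most `ℵ₁` is enumerated by `ω₁` -/
theorem exists_enum {α : Type} (R : Set α) (hne : R.Nonempty) (hR : #R ≤ ℵ_ 1) :
    ∃ E : W1 → α, R = range E := by
  have h1 : #R ≤ #W1 := by rw [mk_ord_toType]; exact hR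
  obtain ⟨e⟩ := Cardinal.le_def _ _ |>.1 h1
  have : Nonempty R := hne.to_subtype
  have hs := Function.invFun_surjective e.injective
  refine ⟨fun x => (Function.invFun e x : R), ?_⟩
  ext a
  constructor
  · intro ha
    obtain ⟨x, hx⟩ := hs ⟨a, ha⟩
    exact ⟨x, by simp [hx]⟩
  · rintro ⟨x, rfl⟩
    exact (Function.invFun e x).2

theorem splitAll_of (H : MatrixHypothesis) : SplitAll (ℵ_ 2) := by
  intro R hR hinf
  rcases R.eq_empty_or_nonempty with rfl | hne
  · exact ⟨∅, fun a ha => absurd ha (notMem_empty a)⟩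
  obtain ⟨E, rfl⟩ := exists_enum R hne (le_aleph1_of_lt hR)
  obtain ⟨s, hs⟩ := H.2.2.2.2 E fun y => hinf _ (mem_range_self y)
  refine ⟨s, ?_⟩
  rintro _ ⟨y, rfl⟩
  exact hs y

theorem bNum_eq (H : MatrixHypothesis) : bNum = ℵ_ 1 := by
  apply le_antisymm
  · obtain ⟨E, hE⟩ := H.1
    have h1 : bNum ≤ #(range E) := by
      refine csInf_le' ⟨range E, rfl, ?_⟩
      rintro ⟨g, hg⟩
      obtain ⟨y, hy⟩ := hE g
      exact hy (hg _ (mem_range_self y))
    refine h1.trans (mk_range_le.trans ?_)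
    rw [mk_ord_toType]
  · rw [← succ_aleph0]
    exact Order.succ_le_of_lt aleph0_lt

theorem lt_sNum (H : MatrixHypothesis) : ℵ_ 2 ≤ sNum := by
  have hne : ({κ : Cardinal.{0} | ∃ S : Set (Set ℕ), #S = κ ∧
      ∀ A : Set ℕ, A.Infinite → ∃ s ∈ S, (A ∩ s).Infinite ∧ (A \ s).Infinite}).Nonempty := by
    refine ⟨_, Set.univ, rfl, fun a ha => ?_⟩
    obtain ⟨s, hs⟩ := H.2.2.2.2 (fun _ => a) fun _ => ha
    exact ⟨s, Set.mem_univ _, hs (Classical.arbitrary W1)⟩
  refine le_csInf hne ?_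
  rintro _ ⟨S, rfl, hS⟩
  by_contra hcon
  push Not at hcon
  have hSne : S.Nonempty := by
    obtain ⟨s, hs, _⟩ := hS Set.univ Set.infinite_univ
    exact ⟨s, hs⟩
  obtain ⟨E, rfl⟩ := exists_enum S hSne (le_aleph1_of_lt hcon)
  obtain ⟨x, hx, hxE⟩ := H.2.2.2.1 E
  obtain ⟨_, ⟨y, rfl⟩, h1⟩ := hS x hx
  exact hxE y h1

theorem boundedSubfamilies_of (H : MatrixHypothesis) : BoundedSubfamilies sNum := by
  intro F hF
  have h1 : #W2 ≤ #F := by
    rw [mk_ord_toType]
    exact (lt_sNum H).trans hF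
  obtain ⟨f⟩ := Cardinal.le_def _ _ |>.1 h1
  obtain ⟨R, hR, g, hg⟩ := H.2.2.1 (fun y => (f y).1)
  refine ⟨range fun x => (f (R x)).1, ?_, ?_, g, ?_⟩
  · rintro _ ⟨x, rfl⟩
    exact (f (R x)).2
  · rw [mk_range_eq _ (fun x y h => hR (f.injective (Subtype.ext h))), mk_ord_toType, bNum_eq H]
  · rintro _ ⟨x, rfl⟩
    exact hg x

theorem main_zfc (H : MatrixHypothesis) :
    (∀ X : Set (ℕ → Bool), Concentrated X → Hurewicz X ∧ ProductivelyHurewicz X) ∧
      ¬ SemifilterTrichotomy := by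
  have hbs : bNum < sNum := by
    rw [bNum_eq H]
    exact lt12.trans_le (lt_sNum H)
  constructor
  · intro X hX
    have hs := card_lt_of_boundedSubfamilies sNum hbs (boundedSubfamilies_of H) X hX
    exact ⟨hurewicz_of_small X hX hs, fun _ _ _ Y hY => prodHurewicz_of_small X hX hs Y hY⟩
  · obtain ⟨E, hE⟩ := H.2.1
    exact not_trichotomy3 (by rw [← aleph_zero, aleph_lt_aleph]; norm_num) (splitAll_of H)
      (fun γ => Cardinal.mk_Iio_toType_ord_lt γ) E hE

/-- the statements of the matrix hypothesis, in the extension by `P` -/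
def ForcedMatrixHypothesis (P : Type) [Preorder P] : Set P :=
  fand (UnboundedFam P W1) (fand (DominatingFam P W2) (fand (BoundedSub P W1 W2)
    (fand (LtSplitting P W1) (LtReaping P W1))))

theorem main_forced : ∃ (P : Type) (_ : Preorder P), Nonempty P ∧
    ∀ p : P, p ∈ CardinalsPreserved.{0, 0} P ∧ p ∈ ForcedMatrixHypothesis P :=
  ⟨PMat, inferInstance, inferInstance, fun p => by
    obtain ⟨h1, h2, h3, h4, h5, h6⟩ := forced p
    exact ⟨h1, h2, h3, h4, h5, h6⟩⟩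

end Pool.Agent.TH778.MX
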